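import Mathlib

/-! Transcendence bases among generators. -/

set_option autoImplicit false

namespace Pool.Agent.H918R2.Quad

theorem isAlgebraic_of_adjoin_eq_top {K F : Type} [Field K] [Field F] [Algebra K F] (s : Set F)
    (hs : IntermediateField.adjoin K s = ⊤) : Algebra.IsAlgebraic (Algebra.adjoin K s) F := by
  constructor
  intro y
  have hy : y ∈ IntermediateField.adjoin K s := by rw [hs]; trivial
  induction hy using IntermediateField.adjoin_induction with
  | mem y hy =>
    exact isAlgebraic_algebraMap (⟨y, Algebra.subset_adjoin hy⟩ : Algebra.adjoin K s)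
  | algebraMap k =>
    exact isAlgebraic_algebraMap (algebraMap K (Algebra.adjoin K s) k)
  | add a b _ _ ha hb => exact ha.add hb
  | inv a _ ha => exact ha.inv
  | mul a b _ _ ha hb => exact ha.mul hb

theorem exists_omit {K F : Type} [Field K] [Field F] [Algebra K F] {m : ℕ} (b : Fin m → F)
    (hb : IsTranscendenceBasis K b) {ρ : Type} [Fintype ρ] (hρ : Fintype.card ρ = m + 1)
    (w : ρ → F) (hw : IntermediateField.adjoin K (Set.range w) = ⊤) :
    ∃ j₀, AlgebraicIndependent K (fun j : {j : ρ // j ≠ j₀} => w j) := by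
  classical
  have halg := isAlgebraic_of_adjoin_eq_top (Set.range w) hw
  obtain ⟨t, ht, htb⟩ := exists_isTranscendenceBasis_subset (R := K) (Set.range w)
  have hcard := htb.lift_cardinalMk_eq hb
  simp only [Cardinal.lift_id, Cardinal.mk_fin] at hcard
  have htfin : Finite t := by
    rw [← Cardinal.lt_aleph0_iff_finite, hcard]
    exact Cardinal.natCast_lt_aleph0
  have hft : Fintype t := Fintype.ofFinite t
  have hcard' : Fintype.card t = m := by
    rw [Cardinal.mk_fintype] at hcard
    exact_mod_cast hcard
  have hsec : ∀ y : t, ∃ j, w j = y := fun y => ht y.2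
  choose σ hσ using hsec
  have hσinj : Function.Injective σ := by
    intro y y' h
    apply Subtype.ext
    rw [← hσ y, ← hσ y', h]
  have hex : ∃ j₀, ∀ y, σ y ≠ j₀ := by
    by_contra hcon
    push Not at hcon
    have hsurj : Function.Surjective σ := hcon
    have h1 := Fintype.card_le_of_surjective σ hsurj
    omega
  obtain ⟨j₀, hj₀⟩ := hex
  let σ' : t → {j : ρ // j ≠ j₀} := fun y => ⟨σ y, hj₀ y⟩
  have hσ'inj : Function.Injective σ' := fun y y' h => hσinj (congrArg Subtype.val h)
  have hσ'bij : Function.Bijective σ' := by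
    rw [Fintype.bijective_iff_injective_and_card]
    refine ⟨hσ'inj, ?_⟩
    rw [hcard', Fintype.card_subtype_compl, Fintype.card_subtype_eq, hρ]
    rfl
  let e := Equiv.ofBijective σ' hσ'bij
  refine ⟨j₀, ?_⟩
  have h1 : (fun j : {j : ρ // j ≠ j₀} => w j) = (fun y : t => (y : F)) ∘ e.symm := by
    funext j
    obtain ⟨y, rfl⟩ := e.surjective j
    simp only [Function.comp, Equiv.symm_apply_apply]
    exact hσ y
  rw [h1]
  exact htb.1.comp _ e.symm.injective

end Pool.Agent.H918R2.Quad
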