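import Mathlib

/-! Definitions for the models of quadrics (MP_4d1008_ag). -/

set_option autoImplicit false

namespace Pool.Agent.H918R2.Quad

/-- The chart ring `O[M / f]` inside `F`. -/
def chart (O : Type) {F : Type} [CommRing O] [Field F] [Algebra O F] (M : Submodule O F) (f : F) :
    Subalgebra O F :=
  Algebra.adjoin O {y | ∃ m ∈ M, y = m / f}

/-- `Q₀` has trivial radical over every field extension of the residue field. -/
def Rad {R : Type} [CommRing R] (π : R) {m : ℕ} (c₀ : Fin m → Fin m → R) : Prop :=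
  ∀ (C : Type) [CommRing C] (f : R →+* C) (Q : Ideal C) [Q.IsPrime], f π ∈ Q →
    ∀ v : Fin m → C, (∑ i, ∑ j, f (c₀ i j) * v i * v j) ∈ Q →
      (∀ j, (∑ i, f (c₀ i j + c₀ j i) * v i) ∈ Q) → ∀ i, v i ∈ Q

/-- The affine coordinates of a chart: `τ s = 1`. -/
noncomputable def tau {ι R : Type} [CommRing R] [DecidableEq ι] (s : ι) (j : ι) :
    MvPolynomial {j : ι // j ≠ s} R :=
  if h : j = s then 1 else MvPolynomial.X ⟨j, h⟩

/-- The index type of the chart of the blow-up: `none ↦ g`, `some none ↦ π`, `some (some i) ↦ Y i`. -/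
abbrev Idx (m : ℕ) : Type := Option (Option (Fin m))

/-- The coordinates `τ_j` in the chart `s` of the blow-up (variables: `none` is `σ`, `some j` for
`j ≠ s` is `T_j`). -/
noncomputable def tau2 {B : Type} [CommRing B] {m : ℕ} (s : Idx m) (j : Idx m) :
    MvPolynomial (Option {j : Idx m // j ≠ s}) B :=
  if h : j = s then 1 else MvPolynomial.X (some ⟨j, h⟩)

end Pool.Agent.H918R2.Quad
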