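import Pool.Agent.H918R2.Quad.Reg1

/-! Regularity criteria for quotients of a ring by few relations. -/

set_option autoImplicit false

namespace Pool.Agent.H918R2.Quad

open IsLocalRing

theorem height_comap_ge {W C : Type} [CommRing W] [CommRing C] (θ : W →+* C)
    (hθ : Function.Surjective θ) (n : ℕ) : ∀ (P : Ideal C) [P.IsPrime], (n : ℕ∞) ≤ P.height →
      (RingHom.ker θ).height + n ≤ (P.comap θ).height := by
  induction n with
  | zero =>
    intro P _ _
    simp only [Nat.cast_zero, add_zero]
    apply Ideal.height_mono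
    intro x hx
    rw [Ideal.mem_comap, (RingHom.mem_ker).1 hx]
    exact P.zero_mem
  | succ n ih =>
    intro P _ hP
    have h1 : ¬ P.height ≤ n := by
      intro h
      have h2 : ((n + 1 : ℕ) : ℕ∞) ≤ (n : ℕ∞) := hP.trans h
      have h3 : n + 1 ≤ n := by exact_mod_cast h2
      omega
    rw [Ideal.height_le_iff] at h1
    push Not at h1
    obtain ⟨P', hP', hlt, hge⟩ := h1
    have h2 := ih P' hge
    have hlt' : P'.comap θ < P.comap θ := by
      refine lt_of_le_of_ne (Ideal.comap_mono hlt.le) ?_
      intro h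
      exact hlt.ne (Ideal.comap_injective_of_surjective θ hθ h)
    have h3 := Ideal.height_add_one_le_of_lt_of_isPrime hlt'
    calc (RingHom.ker θ).height + ((n + 1 : ℕ) : ℕ∞)
        = ((RingHom.ker θ).height + n) + 1 := by push_cast; ring
      _ ≤ (P'.comap θ).height + 1 := by gcongr
      _ ≤ _ := h3

/-- Local generators of a prime of a regular ring. -/
theorem exists_local_gens_aux {C : Type} [CommRing C] [IsRegularRing C] (P : Ideal C) [P.IsPrime]
    {d : ℕ} (z : Fin d → Localization.AtPrime P)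
    (hz : Ideal.span (Set.range z) = maximalIdeal (Localization.AtPrime P)) (s : Finset (Fin d)) :
    ∃ G : Finset C, (∀ g ∈ G, g ∈ P) ∧ G.card ≤ s.card ∧
      Ideal.span (z '' (s : Set (Fin d))) ≤
        Ideal.map (algebraMap C (Localization.AtPrime P)) (Ideal.span (G : Set C)) := by
  classical
  have hc : ∀ i, ∃ c : C, c ∈ P ∧ Ideal.span {z i} ≤
      Ideal.map (algebraMap C (Localization.AtPrime P)) (Ideal.span {c}) := by
    intro i
    obtain ⟨c, t, hct⟩ := IsLocalization.exists_mk'_eq P.primeCompl (z i)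
    have hzi : z i ∈ maximalIdeal (Localization.AtPrime P) := by
      rw [← hz]; exact Ideal.subset_span ⟨i, rfl⟩
    refine ⟨c, ?_, ?_⟩
    · rw [← hct] at hzi
      exact (IsLocalization.AtPrime.mk'_mem_maximal_iff (Localization.AtPrime P) P c t).1 hzi
    · rw [Ideal.span_singleton_le_iff_mem, ← hct, Ideal.map_span, Set.image_singleton]
      rw [Ideal.mem_span_singleton]
      refine ⟨IsLocalization.mk' _ 1 t, ?_⟩
      rw [← IsLocalization.mk'_one (M := P.primeCompl) (Localization.AtPrime P) c,
        ← IsLocalization.mk'_mul]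
      simp
  choose c hcP hcz using hc
  refine ⟨s.image c, ?_, Finset.card_image_le, ?_⟩
  · intro g hg
    obtain ⟨i, _, rfl⟩ := Finset.mem_image.1 hg
    exact hcP i
  · rw [Ideal.span_le]
    rintro _ ⟨i, hi, rfl⟩
    have h1 := hcz i (Ideal.mem_span_singleton_self _)
    refine Ideal.map_mono (Ideal.span_mono ?_) h1
    rw [Set.singleton_subset_iff]
    simp only [Finset.coe_image]
    exact ⟨i, hi, rfl⟩

theorem mem_of_map_mem {C : Type} [CommRing C] (P : Ideal C) [P.IsPrime] (J : Ideal C) (y : C)
    (h : algebraMap C (Localization.AtPrime P) y ∈ J.map (algebraMap C (Localization.AtPrime P))) :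
    ∃ c, c ∉ P ∧ c * y ∈ J := by
  rw [IsLocalization.mem_map_algebraMap_iff P.primeCompl] at h
  obtain ⟨⟨⟨j, hj⟩, s⟩, hs⟩ := h
  simp only at hs
  rw [← map_mul] at hs
  obtain ⟨t, ht⟩ := (IsLocalization.eq_iff_exists P.primeCompl _).1 hs
  refine ⟨t * s, (t * s).2, ?_⟩
  have : (t : C) * s * y = t * j := by rw [← ht]; ring
  rw [this]
  exact J.mul_mem_left _ hj

theorem exists_local_gens {C : Type} [CommRing C] [IsRegularRing C] (P : Ideal C) [P.IsPrime] :
    ∃ G : Finset C, (∀ g ∈ G, g ∈ P) ∧ ((G.card : ℕ) : ℕ∞) ≤ P.height ∧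
      ∀ y ∈ P, ∃ c, c ∉ P ∧ c * y ∈ Ideal.span (G : Set C) := by
  classical
  obtain ⟨d, z, hd, hz⟩ := Pool.Agent.H968R2.FL.exists_param (B := Localization.AtPrime P)
  obtain ⟨G, hG, hcard, hle⟩ := exists_local_gens_aux P z hz Finset.univ
  refine ⟨G, hG, ?_, ?_⟩
  · rw [IsLocalization.AtPrime.ringKrullDim_eq_height P (Localization.AtPrime P)] at hd
    have h1 : P.height = (d : ℕ∞) := by exact_mod_cast hd
    rw [h1]
    simpa using hcard
  · intro y hy
    apply mem_of_map_mem P
    apply hle
    rw [Finset.coe_univ, Set.image_univ, hz]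
    rw [← Localization.AtPrime.map_eq_maximalIdeal]
    exact Ideal.mem_map_of_mem _ hy

theorem exists_local_gens_one {C : Type} [CommRing C] [IsRegularRing C] (P : Ideal C) [P.IsPrime]
    (E : C) (hE : E ∈ P) (hE2 : ∀ c, c ∉ P → c * E ∉ P ^ 2) :
    ∃ G : Finset C, (∀ g ∈ G, g ∈ P) ∧ ((G.card + 1 : ℕ) : ℕ∞) ≤ P.height ∧
      ∀ y ∈ P, ∃ c, c ∉ P ∧ c * y ∈ Ideal.span (insert E (G : Set C)) := by
  classical
  have h1 : algebraMap C (Localization.AtPrime P) E ∈ maximalIdeal (Localization.AtPrime P) := by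
    rw [← Localization.AtPrime.map_eq_maximalIdeal]
    exact Ideal.mem_map_of_mem _ hE
  have h2 : algebraMap C (Localization.AtPrime P) E ∉ maximalIdeal (Localization.AtPrime P) ^ 2 := by
    intro h
    rw [← Localization.AtPrime.map_eq_maximalIdeal, ← Ideal.map_pow] at h
    obtain ⟨c, hc, hcE⟩ := mem_of_map_mem P _ _ h
    exact hE2 c hc hcE
  obtain ⟨d, z, i₀, hd, hz, hzE⟩ := Pool.Agent.H968R2.FL.exists_param_of_mem
    (B := Localization.AtPrime P) _ h1 h2
  obtain ⟨G, hG, hcard, hle⟩ := exists_local_gens_aux P z hz (Finset.univ.erase i₀)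
  refine ⟨G, hG, ?_, ?_⟩
  · rw [IsLocalization.AtPrime.ringKrullDim_eq_height P (Localization.AtPrime P)] at hd
    have h1 : P.height = (d : ℕ∞) := by exact_mod_cast hd
    rw [h1]
    have h3 : G.card ≤ d - 1 := by
      rw [Finset.card_erase_of_mem (Finset.mem_univ _)] at hcard
      simpa using hcard
    have h4 : 0 < d := Fin.pos i₀
    have h5 : G.card + 1 ≤ d := by omega
    exact_mod_cast h5
  · intro y hy
    apply mem_of_map_mem P
    have h3 : algebraMap C (Localization.AtPrime P) y ∈ Ideal.span (Set.range z) := by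
      rw [hz, ← Localization.AtPrime.map_eq_maximalIdeal]
      exact Ideal.mem_map_of_mem _ hy
    refine (Ideal.span_le.2 ?_) h3
    rintro _ ⟨i, rfl⟩
    by_cases hi : i = i₀
    · subst hi
      rw [hzE]
      exact Ideal.mem_map_of_mem _ (Ideal.subset_span (Set.mem_insert _ _))
    · have h4 : z i ∈ Ideal.span (z '' ((Finset.univ.erase i₀ : Finset (Fin d)) : Set (Fin d))) := by
        apply Ideal.subset_span
        exact ⟨i, by simp [hi], rfl⟩
      exact Ideal.map_mono (Ideal.span_mono (Set.subset_insert _ _)) (hle h4)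

/-- Common core. -/
theorem reg_core {W A C : Type} [CommRing W] [IsNoetherianRing W] [CommRing A]
    [CommRing C] [IsRegularRing C]
    (pr : W →+* A) (hpr : Function.Surjective pr)
    (S : Finset W) (hS : RingHom.ker pr = Ideal.span (S : Set W))
    (q : Ideal A) [q.IsPrime]
    (θ : W →+* C) (hθ : Function.Surjective θ) (hker : RingHom.ker θ ≤ q.comap pr)
    (a : Finset W) (ha : ∀ x ∈ a, pr x ∈ q)
    (hloc : ∀ x ∈ RingHom.ker θ, ∃ c, pr c ∉ q ∧ pr (c * x) ∈ Ideal.span (pr '' (a : Set W)))
    (T : Set W) (hT : ∀ x ∈ T, pr x = 0) (G : Finset C)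
    (hG : ∀ g ∈ G, g ∈ (q.comap pr).map θ)
    (hGgen : ∀ y ∈ (q.comap pr).map θ, ∃ c, c ∉ (q.comap pr).map θ ∧
      c * y ∈ Ideal.span (θ '' T ∪ (G : Set C)))
    (hcard : ((a.card + G.card + S.card : ℕ) : ℕ∞) ≤ (q.comap pr).height) :
    IsRegularLocalRing (Localization.AtPrime q) := by
  classical
  have hA : IsNoetherianRing A := isNoetherianRing_of_surjective W A pr hpr
  have hcomap : ((q.comap pr).map θ).comap θ = q.comap pr := by
    rw [Ideal.comap_map_of_surjective θ hθ]
    exact sup_eq_left.2 (by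
      intro x hx
      exact hker (by simpa using hx))
  choose σ hσ using hθ
  let G' : Finset W := G.image σ
  have hG' : ∀ x ∈ G', pr x ∈ q := by
    intro x hx
    obtain ⟨g, hg, rfl⟩ := Finset.mem_image.1 hx
    have h1 : σ g ∈ ((q.comap pr).map θ).comap θ := by
      rw [Ideal.mem_comap, hσ]
      exact hG g hg
    rw [hcomap] at h1
    exact h1
  have hheight : (q.comap pr).height ≤ q.height + S.card := by
    have h1 := Ideal.height_le_height_add_spanFinrank_of_le (I := RingHom.ker pr)
      (p := q.comap pr) (by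
        intro x hx
        rw [Ideal.mem_comap, (RingHom.mem_ker).1 hx]
        exact q.zero_mem)
    have h2 : ((q.comap pr).map (Ideal.Quotient.mk (RingHom.ker pr))).height = q.height := by
      have e := RingHom.quotientKerEquivOfSurjective hpr
      have h3 := RingEquiv.height_comap (RingHom.quotientKerEquivOfSurjective hpr) q
      rw [← h3]
      congr 1
      have h4 : q.comap pr = (q.comap (RingHom.quotientKerEquivOfSurjective hpr)).comap
          (Ideal.Quotient.mk (RingHom.ker pr)) := by
        ext x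
        exact Iff.rfl
      rw [h4, Ideal.map_comap_of_surjective _ Ideal.Quotient.mk_surjective]
    rw [h2] at h1
    refine h1.trans ?_
    gcongr
    rw [hS]
    refine (Submodule.spanFinrank_span_le_ncard_of_finite (Finset.finite_toSet S)).trans ?_
    rw [Set.ncard_coe_finset]
  refine regular_of_gens q ((a ∪ G').image pr) ?_ ?_ ?_
  · intro g hg
    obtain ⟨x, hx, rfl⟩ := Finset.mem_image.1 hg
    rcases Finset.mem_union.1 hx with h | h
    · exact ha x h
    · exact hG' x h
  · intro x hx
    obtain ⟨w, rfl⟩ := hpr x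
    obtain ⟨c, hc, hcw⟩ := hGgen (θ w) (Ideal.mem_map_of_mem θ (by simpa using hx))
    have hcs : c * θ w = θ (σ c * w) := by rw [map_mul, hσ]
    have hsp : Ideal.span (θ '' T ∪ (G : Set C)) = (Ideal.span (T ∪ (G' : Set W))).map θ := by
      rw [Ideal.map_span, Set.image_union]
      congr 2
      simp only [G', Finset.coe_image, Set.image_image, hσ, Set.image_id']
    rw [hcs, hsp, Ideal.mem_map_iff_of_surjective θ (fun y => ⟨σ y, hσ y⟩)] at hcw
    obtain ⟨u, hu, hue⟩ := hcw
    obtain ⟨c', hc', hcx⟩ := hloc (σ c * w - u) (by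
      rw [RingHom.mem_ker, map_sub, hue, sub_self])
    refine ⟨pr (c' * σ c), ?_, ?_⟩
    · rw [map_mul]
      intro h
      rcases Ideal.IsPrime.mem_or_mem inferInstance h with h | h
      · exact hc' h
      · apply hc
        rw [← hσ c]
        exact Ideal.mem_map_of_mem θ (by simpa using h)
    · have h1 : pr (c' * σ c) * pr w = pr (c' * (σ c * w - u)) + pr c' * pr u := by
        rw [← map_mul, ← map_mul, ← map_add]
        congr 1
        ring
      rw [h1]
      apply Ideal.add_mem
      · refine Ideal.span_mono ?_ hcx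
        intro y hy
        obtain ⟨z, hz, rfl⟩ := hy
        simp only [Finset.coe_image, Finset.coe_union]
        exact ⟨z, Or.inl hz, rfl⟩
      · apply Ideal.mul_mem_left
        have h2 : pr u ∈ (Ideal.span (T ∪ (G' : Set W))).map pr := Ideal.mem_map_of_mem _ hu
        rw [Ideal.map_span] at h2
        refine (Ideal.span_le.2 ?_) h2
        rintro _ ⟨y, hy, rfl⟩
        rcases hy with hy | hy
        · rw [hT y hy]
          exact Submodule.zero_mem _
        · apply Ideal.subset_span
          simp only [Finset.coe_image, Finset.coe_union]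
          exact ⟨y, Or.inr hy, rfl⟩
  · have h1 : ((a ∪ G').image pr).card ≤ a.card + G.card := by
      refine Finset.card_image_le.trans ((Finset.card_union_le _ _).trans ?_)
      gcongr
      exact Finset.card_image_le
    have h2 : ((a.card + G.card + S.card : ℕ) : ℕ∞) ≤ q.height + S.card := hcard.trans hheight
    have h3 : ((a.card + G.card : ℕ) : ℕ∞) ≤ q.height := by
      have h4 : ((a.card + G.card : ℕ) : ℕ∞) + (S.card : ℕ∞) ≤ q.height + (S.card : ℕ∞) := by
        exact_mod_cast h2
      exact (ENat.add_le_add_iff_right (ENat.natCast_ne_top _)).1 h4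
    exact le_trans (by exact_mod_cast h1) h3

theorem reg_crit {W A C : Type} [CommRing W] [IsNoetherianRing W] [CommRing A]
    [CommRing C] [IsRegularRing C]
    (pr : W →+* A) (hpr : Function.Surjective pr)
    (S : Finset W) (hS : RingHom.ker pr = Ideal.span (S : Set W))
    (q : Ideal A) [q.IsPrime]
    (θ : W →+* C) (hθ : Function.Surjective θ) (hker : RingHom.ker θ ≤ q.comap pr)
    (a : Finset W) (ha : ∀ x ∈ a, pr x ∈ q)
    (hloc : ∀ x ∈ RingHom.ker θ, ∃ c, pr c ∉ q ∧ pr (c * x) ∈ Ideal.span (pr '' (a : Set W)))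
    (hht : ((a.card + S.card : ℕ) : ℕ∞) ≤ (RingHom.ker θ).height) :
    IsRegularLocalRing (Localization.AtPrime q) := by
  have hP : ((q.comap pr).map θ).IsPrime := Ideal.map_isPrime_of_surjective hθ hker
  have hcomap : ((q.comap pr).map θ).comap θ = q.comap pr := by
    rw [Ideal.comap_map_of_surjective θ hθ]
    exact sup_eq_left.2 (by
      intro x hx
      exact hker (by simpa using hx))
  obtain ⟨G, hG, hcard, hgen⟩ := exists_local_gens ((q.comap pr).map θ)
  refine reg_core pr hpr S hS q θ hθ hker a ha hloc ∅ (by simp) G hG ?_ ?_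
  · intro y hy
    obtain ⟨c, hc, hcy⟩ := hgen y hy
    exact ⟨c, hc, by simpa using hcy⟩
  · have h1 := height_comap_ge θ hθ G.card _ hcard
    rw [hcomap] at h1
    refine le_trans ?_ h1
    calc ((a.card + G.card + S.card : ℕ) : ℕ∞) = ((a.card + S.card : ℕ) : ℕ∞) + G.card := by
          push_cast; ring
      _ ≤ _ := by gcongr

theorem reg_crit_one {W A C : Type} [CommRing W] [IsNoetherianRing W] [CommRing A]
    [CommRing C] [IsRegularRing C]
    (pr : W →+* A) (hpr : Function.Surjective pr)
    (S : Finset W) (hS : RingHom.ker pr = Ideal.span (S : Set W))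
    (q : Ideal A) [q.IsPrime]
    (θ : W →+* C) (hθ : Function.Surjective θ) (hker : RingHom.ker θ ≤ q.comap pr)
    (a : Finset W) (ha : ∀ x ∈ a, pr x ∈ q)
    (hloc : ∀ x ∈ RingHom.ker θ, ∃ c, pr c ∉ q ∧ pr (c * x) ∈ Ideal.span (pr '' (a : Set W)))
    (E : W) (hE : pr E = 0)
    (hE2 : ∀ c : C, c ∉ (q.comap pr).map θ → c * θ E ∉ ((q.comap pr).map θ) ^ 2)
    (hht : ((a.card + S.card : ℕ) : ℕ∞) ≤ (RingHom.ker θ).height + 1) :
    IsRegularLocalRing (Localization.AtPrime q) := by
  have hP : ((q.comap pr).map θ).IsPrime := Ideal.map_isPrime_of_surjective hθ hker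
  have hcomap : ((q.comap pr).map θ).comap θ = q.comap pr := by
    rw [Ideal.comap_map_of_surjective θ hθ]
    exact sup_eq_left.2 (by
      intro x hx
      exact hker (by simpa using hx))
  have hEq : θ E ∈ (q.comap pr).map θ := by
    apply Ideal.mem_map_of_mem
    rw [Ideal.mem_comap, hE]
    exact q.zero_mem
  obtain ⟨G, hG, hcard, hgen⟩ := exists_local_gens_one ((q.comap pr).map θ) (θ E) hEq hE2
  refine reg_core pr hpr S hS q θ hθ hker a ha hloc {E} (by simpa using hE) G hG ?_ ?_
  · intro y hy
    obtain ⟨c, hc, hcy⟩ := hgen y hy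
    refine ⟨c, hc, ?_⟩
    rw [Set.image_singleton, Set.singleton_union]
    exact hcy
  · have h1 := height_comap_ge θ hθ (G.card + 1) _ hcard
    rw [hcomap] at h1
    refine le_trans ?_ h1
    calc ((a.card + G.card + S.card : ℕ) : ℕ∞) = ((a.card + S.card : ℕ) : ℕ∞) + G.card := by
          push_cast; ring
      _ ≤ ((RingHom.ker θ).height + 1) + G.card := by gcongr
      _ = _ := by push_cast; ring

end Pool.Agent.H918R2.Quad
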