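import Mathlib
import Pool.Agent.H918R2.Quad.Defs

set_option autoImplicit false

/-!
Task F2 of helper918 (MP_4d1008_ag), by helper992: regular points of the exceptional divisor.
-/

open MvPolynomial

namespace Pool.Agent.H918R2.Quad.F2

open Pool.Agent.H918R2.Quad

section maps

variable {R : Type} [CommRing R] [IsDomain R] [IsDiscreteValuationRing R] {J : Type}
  (g : Polynomial R)

/-- reduce the coefficients modulo the maximal ideal -/
noncomputable def A1 (R : Type) [CommRing R] [IsDomain R] [IsDiscreteValuationRing R] (J : Type) :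
    MvPolynomial (Option J) (Polynomial R) →+*
      MvPolynomial (Option J) (Polynomial (IsLocalRing.ResidueField R)) :=
  MvPolynomial.map (Polynomial.mapRingHom (IsLocalRing.residue R))

/-- kill the variable `none` -/
noncomputable def A2 (K : Type) [CommRing K] (J : Type) :
    MvPolynomial (Option J) K →+* MvPolynomial J K :=
  MvPolynomial.eval₂Hom C (fun o : Option J => o.elim 0 X)

/-- reduce the coefficients modulo `g` -/
noncomputable def A3 (g : Polynomial R) (J : Type) :
    MvPolynomial J (Polynomial (IsLocalRing.ResidueField R)) →+*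
      MvPolynomial J (AdjoinRoot (g.map (IsLocalRing.residue R))) :=
  MvPolynomial.map (AdjoinRoot.mk (g.map (IsLocalRing.residue R)))

noncomputable def TH (g : Polynomial R) (J : Type) :
    MvPolynomial (Option J) (Polynomial R) →+*
      MvPolynomial J (AdjoinRoot (g.map (IsLocalRing.residue R))) :=
  (A3 g J).comp ((A2 _ J).comp (A1 R J))

theorem A1_surj : Function.Surjective (A1 R J) := by
  apply MvPolynomial.map_surjective
  apply Polynomial.map_surjective
  exact IsLocalRing.residue_surjective

theorem A2_surj (K : Type) [CommRing K] : Function.Surjective (A2 K J) := by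
  intro p
  refine ⟨rename some p, ?_⟩
  rw [A2, MvPolynomial.coe_eval₂Hom, MvPolynomial.eval₂_rename]
  have : (fun o : Option J => (o.elim 0 X : MvPolynomial J K)) ∘ some = X := rfl
  rw [this, MvPolynomial.eval₂_eta]

theorem A3_surj : Function.Surjective (A3 g J) := by
  apply MvPolynomial.map_surjective
  exact AdjoinRoot.mk_surjective

theorem TH_surj : Function.Surjective (TH g J) :=
  (A3_surj g).comp ((A2_surj _).comp A1_surj)

theorem TH_none : TH g J (X none) = 0 := by
  simp [TH, A1, A2, A3]

theorem TH_some (j : J) : TH g J (X (some j)) = X j := by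
  simp [TH, A1, A2, A3]

theorem TH_C (p : Polynomial R) :
    TH g J (C p) = C (AdjoinRoot.mk (g.map (IsLocalRing.residue R))
      (p.map (IsLocalRing.residue R))) := by
  simp [TH, A1, A2, A3]

theorem ker_TH (π : R) (hπ : Irreducible π) :
    RingHom.ker (TH g J) ≤ Ideal.span {X none, C (Polynomial.C π), C g} := by
  set I : Ideal (MvPolynomial (Option J) (Polynomial R)) :=
    Ideal.span {X none, C (Polynomial.C π), C g} with hI
  set mk := Ideal.Quotient.mk I with hmk
  set r0 : R →+* (MvPolynomial (Option J) (Polynomial R) ⧸ I) :=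
    mk.comp (C.comp Polynomial.C) with hr0
  have hr0m : ∀ a ∈ IsLocalRing.maximalIdeal R, r0 a = 0 := by
    intro a ha
    rw [hπ.maximalIdeal_eq, Ideal.mem_span_singleton] at ha
    obtain ⟨c, rfl⟩ := ha
    rw [map_mul]
    have : r0 π = 0 := by
      simp only [hr0, RingHom.comp_apply, hmk]
      rw [Ideal.Quotient.eq_zero_iff_mem, hI]
      exact Ideal.subset_span (by simp)
    rw [this, zero_mul]
  set r1 : IsLocalRing.ResidueField R →+* (MvPolynomial (Option J) (Polynomial R) ⧸ I) :=
    Ideal.Quotient.lift (IsLocalRing.maximalIdeal R) r0 hr0m with hr1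
  have hr1c : r1.comp (IsLocalRing.residue R) = r0 := by
    ext a
    rfl
  set r2 : AdjoinRoot (g.map (IsLocalRing.residue R)) →+*
      (MvPolynomial (Option J) (Polynomial R) ⧸ I) :=
    AdjoinRoot.lift r1 (mk (C Polynomial.X)) (by
      rw [Polynomial.eval₂_map, hr1c, hr0, ← Polynomial.hom_eval₂, ← Polynomial.hom_eval₂,
        Polynomial.eval₂_C_X, hmk, Ideal.Quotient.eq_zero_iff_mem, hI]
      exact Ideal.subset_span (by simp)) with hr2
  set r3 : MvPolynomial J (AdjoinRoot (g.map (IsLocalRing.residue R))) →+*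
      (MvPolynomial (Option J) (Polynomial R) ⧸ I) :=
    MvPolynomial.eval₂Hom r2 (fun j => mk (X (some j))) with hr3
  have hcomp : r3.comp (TH g J) = mk := by
    apply MvPolynomial.ringHom_ext'
    · apply Polynomial.ringHom_ext
      · intro a
        simp only [RingHom.comp_apply, TH_C, hr3, MvPolynomial.coe_eval₂Hom, MvPolynomial.eval₂_C,
          Polynomial.map_C, AdjoinRoot.mk_C, hr2, AdjoinRoot.lift_of]
        rw [← RingHom.comp_apply, hr1c]
        rfl
      · simp only [RingHom.comp_apply, TH_C, hr3, MvPolynomial.coe_eval₂Hom, MvPolynomial.eval₂_C,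
          Polynomial.map_X, AdjoinRoot.mk_X, hr2, AdjoinRoot.lift_root]
    · intro o
      cases o with
      | none =>
        simp only [RingHom.comp_apply, TH_none, map_zero]
        symm
        rw [hmk, Ideal.Quotient.eq_zero_iff_mem, hI]
        exact Ideal.subset_span (by simp)
      | some j =>
        simp only [RingHom.comp_apply, TH_some, hr3, MvPolynomial.coe_eval₂Hom,
          MvPolynomial.eval₂_X]
  intro p hp
  rw [RingHom.mem_ker] at hp
  have h1 : mk p = 0 := by
    rw [← hcomp, RingHom.comp_apply, hp, map_zero]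
  rwa [hmk, Ideal.Quotient.eq_zero_iff_mem] at h1

theorem height_ker (π : R) (hπ : Irreducible π)
    (hg : Irreducible (g.map (IsLocalRing.residue R))) :
    (3 : ℕ∞) ≤ (RingHom.ker (TH g J)).height := by
  have : Fact (Irreducible (g.map (IsLocalRing.residue R))) := ⟨hg⟩
  have p1 : (RingHom.ker (A1 R J)).IsPrime := RingHom.ker_isPrime _
  have p2 : (RingHom.ker ((A2 (Polynomial (IsLocalRing.ResidueField R)) J).comp (A1 R J))).IsPrime :=
    RingHom.ker_isPrime _
  have p3 : (RingHom.ker (TH g J)).IsPrime := RingHom.ker_isPrime _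
  have p0 : (⊥ : Ideal (MvPolynomial (Option J) (Polynomial R))).IsPrime := Ideal.isPrime_bot
  have hres : IsLocalRing.residue R π = 0 := by
    rw [IsLocalRing.residue_eq_zero_iff, hπ.maximalIdeal_eq]
    exact Ideal.mem_span_singleton_self π
  have h01 : (⊥ : Ideal (MvPolynomial (Option J) (Polynomial R))) < RingHom.ker (A1 R J) := by
    rw [bot_lt_iff_ne_bot]
    intro h
    have hm : C (Polynomial.C π) ∈ RingHom.ker (A1 R J) := by
      rw [RingHom.mem_ker]
      simp [A1, hres]
    rw [h, Ideal.mem_bot] at hm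
    simp at hm
    exact hπ.ne_zero hm
  have h12 : RingHom.ker (A1 R J) <
      RingHom.ker ((A2 (Polynomial (IsLocalRing.ResidueField R)) J).comp (A1 R J)) := by
    refine lt_of_le_of_ne ?_ ?_
    · intro p hp
      rw [RingHom.mem_ker] at hp ⊢
      rw [RingHom.comp_apply, hp, map_zero]
    · intro h
      have hm : (X none : MvPolynomial (Option J) (Polynomial R)) ∈
          RingHom.ker ((A2 (Polynomial (IsLocalRing.ResidueField R)) J).comp (A1 R J)) := by
        rw [RingHom.mem_ker]
        simp [A1, A2]
      rw [← h, RingHom.mem_ker] at hm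
      simp [A1] at hm
  have h23 : RingHom.ker ((A2 (Polynomial (IsLocalRing.ResidueField R)) J).comp (A1 R J)) <
      RingHom.ker (TH g J) := by
    refine lt_of_le_of_ne ?_ ?_
    · intro p hp
      rw [RingHom.mem_ker] at hp ⊢
      rw [TH, RingHom.comp_apply, hp, map_zero]
    · intro h
      have hm : (C g : MvPolynomial (Option J) (Polynomial R)) ∈ RingHom.ker (TH g J) := by
        rw [RingHom.mem_ker, TH_C]
        simp
      rw [← h, RingHom.mem_ker] at hm
      simp [A1, A2] at hm
      exact hg.ne_zero hm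
  have e1 := Ideal.height_add_one_le_of_lt_of_isPrime h01
  have e2 := Ideal.height_add_one_le_of_lt_of_isPrime h12
  have e3 := Ideal.height_add_one_le_of_lt_of_isPrime h23
  have e0 : (1 : ℕ∞) ≤ (RingHom.ker (A1 R J)).height := le_trans (by simp) e1
  have e0' : (2 : ℕ∞) ≤
      (RingHom.ker ((A2 (Polynomial (IsLocalRing.ResidueField R)) J).comp (A1 R J))).height := by
    refine le_trans ?_ e2
    calc (2 : ℕ∞) = 1 + 1 := by norm_num
      _ ≤ _ := by gcongr
  refine le_trans ?_ e3
  calc (3 : ℕ∞) = 2 + 1 := by norm_num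
    _ ≤ _ := by gcongr

end maps

section quad

variable {K : Type} [CommRing K] {m : ℕ} (s : Idx m) (b' : Fin m → K) (c' : Fin m → Fin m → K)

/-- the coordinates -/
noncomputable def tt (s : Idx m) (j : Idx m) : MvPolynomial {j : Idx m // j ≠ s} K :=
  if h : j = s then 1 else X ⟨j, h⟩

noncomputable def GG : MvPolynomial {j : Idx m // j ≠ s} K :=
  tt s (some none) * (tt s none + ∑ i, C (b' i) * tt s (some (some i))) +
    ∑ i, ∑ j, C (c' i j) * tt s (some (some i)) * tt s (some (some j))

/-- the formal partial derivatives -/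
noncomputable def Gp : Idx m → MvPolynomial {j : Idx m // j ≠ s} K
  | none => tt s (some none)
  | some none => tt s none + ∑ i, C (b' i) * tt s (some (some i))
  | some (some i) => tt s (some none) * C (b' i) +
      ∑ i', C (c' i' i + c' i i') * tt s (some (some i'))

theorem pderiv_tt (j : Idx m) (h : j ≠ s) (o : Idx m) :
    pderiv ⟨j, h⟩ (tt (K := K) s o) = if o = j then 1 else 0 := by
  unfold tt
  split_ifs with h1 h2 h2
  · exact absurd (h2.symm.trans h1) h
  · simp
  · subst h2
    rw [pderiv_X_self]
  · rw [pderiv_X_of_ne]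
    intro h3
    apply h2
    exact congrArg Subtype.val h3

theorem pderiv_GG (j : Idx m) (h : j ≠ s) :
    pderiv ⟨j, h⟩ (GG s b' c') = Gp s b' c' j := by
  have hd : pderiv ⟨j, h⟩ (GG s b' c') =
      pderiv ⟨j, h⟩ (tt s (some none)) * (tt s none + ∑ i, C (b' i) * tt s (some (some i))) +
      tt s (some none) * (pderiv ⟨j, h⟩ (tt s none) +
        ∑ i, C (b' i) * pderiv ⟨j, h⟩ (tt s (some (some i)))) +
      (∑ i, ∑ i', C (c' i i') * pderiv ⟨j, h⟩ (tt s (some (some i))) * tt s (some (some i')) +
        ∑ i, ∑ i', C (c' i i') * tt s (some (some i)) * pderiv ⟨j, h⟩ (tt s (some (some i')))) := by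
    unfold GG
    simp only [map_add, map_sum, pderiv_mul, pderiv_C, zero_mul, zero_add,
      Finset.sum_add_distrib]
  rw [hd]
  simp only [pderiv_tt]
  rcases j with _ | _ | i
  · simp [Gp]
  · simp [Gp]
  · simp only [Gp, Option.some.injEq, reduceCtorEq, if_false, zero_mul, zero_add, mul_ite, mul_one,
      mul_zero, Finset.sum_ite_eq', Finset.mem_univ, if_true, ite_mul, map_add, add_mul,
      Finset.sum_add_distrib]
    congr 1
    rw [add_comm]
    congr 1
    rw [Finset.sum_comm]
    simp

theorem euler : ∑ o, tt s o * Gp s b' c' o = 2 * GG s b' c' := by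
  rw [Fintype.sum_option, Fintype.sum_option]
  simp only [Gp, GG]
  have h1 : ∑ i : Fin m, tt (K := K) s (some (some i)) * (tt s (some none) * C (b' i) +
      ∑ i', C (c' i' i + c' i i') * tt s (some (some i'))) =
      tt s (some none) * ∑ i, C (b' i) * tt s (some (some i)) +
      2 * ∑ i, ∑ j, C (c' i j) * tt s (some (some i)) * tt s (some (some j)) := by
    rw [Finset.mul_sum, two_mul]
    nth_rewrite 2 [Finset.sum_comm]
    rw [← Finset.sum_add_distrib, ← Finset.sum_add_distrib]
    apply Finset.sum_congr rfl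
    intro i _
    rw [← Finset.sum_add_distrib, mul_add, Finset.mul_sum]
    congr 1
    · ring
    · apply Finset.sum_congr rfl
      intro i' _
      rw [map_add]
      ring
  rw [h1]
  ring

theorem not_all {R : Type} [CommRing R] (π : R) (c₀ : Fin m → Fin m → R) (hrad : Rad π c₀)
    (f : R →+* K) (hf : f π = 0) (hc : ∀ i j, c' i j = f (c₀ i j))
    (Q : Ideal (MvPolynomial {j : Idx m // j ≠ s} K)) [Q.IsPrime]
    (hG : GG s b' c' ∈ Q) (hd : ∀ (j : Idx m) (h : j ≠ s), pderiv ⟨j, h⟩ (GG s b' c') ∈ Q) :
    False := by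
  have hs : tt (K := K) s s = 1 := by simp [tt]
  have hall : ∀ j, Gp s b' c' j ∈ Q := by
    have h1 : ∀ j, j ≠ s → Gp s b' c' j ∈ Q := by
      intro j hj
      rw [← pderiv_GG s b' c' j hj]
      exact hd j hj
    intro j
    by_cases hj : j = s
    · subst hj
      have he := euler j b' c'
      rw [← Finset.add_sum_erase _ _ (Finset.mem_univ j), hs, one_mul] at he
      have h2 : Gp j b' c' j = 2 * GG j b' c' -
          ∑ x ∈ Finset.univ.erase j, tt j x * Gp j b' c' x := by
        rw [← he]; ring
      rw [h2]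
      apply Q.sub_mem
      · exact Q.mul_mem_left _ hG
      · apply Q.sum_mem
        intro x hx
        exact Q.mul_mem_left _ (h1 x (Finset.ne_of_mem_erase hx))
    · exact h1 j hj
  have hpi : tt s (some none) ∈ Q := hall none
  have hq : (∑ i, ∑ j, (C.comp f : R →+* _) (c₀ i j) * tt s (some (some i)) *
      tt s (some (some j))) ∈ Q := by
    have h3 : (∑ i, ∑ j, (C.comp f : R →+* _) (c₀ i j) * tt s (some (some i)) *
      tt s (some (some j))) = GG s b' c' -
        tt s (some none) * (tt s none + ∑ i, C (b' i) * tt s (some (some i))) := by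
      simp only [GG, hc, RingHom.comp_apply]
      ring
    rw [h3]
    exact Q.sub_mem hG (Q.mul_mem_right _ hpi)
  have hy := hrad (MvPolynomial {j : Idx m // j ≠ s} K) (C.comp f) Q (by simp [hf])
    (fun i => tt s (some (some i))) hq (by
      intro j
      have h4 := hall (some (some j))
      simp only [Gp] at h4
      have h5 := Q.sub_mem h4 (Q.mul_mem_right (C (b' j)) hpi)
      rw [add_sub_cancel_left] at h5
      simpa only [hc, RingHom.comp_apply, map_add] using h5)
  have hg : tt s none ∈ Q := by
    have h6 := hall (some none)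
    simp only [Gp] at h6
    have h7 : (∑ i, C (b' i) * tt s (some (some i))) ∈ Q :=
      Q.sum_mem fun i _ => Q.mul_mem_left _ (hy i)
    have h8 := Q.sub_mem h6 h7
    rwa [add_sub_cancel_right] at h8
  have hone : tt (K := K) s s ∈ Q := by
    rcases s with _ | _ | i
    · exact hg
    · exact hpi
    · exact hy i
  rw [hs] at hone
  exact Ideal.IsPrime.ne_top ‹_› ((Ideal.eq_top_iff_one Q).2 hone)

/-- `c G ∉ Q²` -/
theorem not_sq {R : Type} [CommRing R] (π : R) (c₀ : Fin m → Fin m → R) (hrad : Rad π c₀)
    (f : R →+* K) (hf : f π = 0) (hc : ∀ i j, c' i j = f (c₀ i j))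
    (Q : Ideal (MvPolynomial {j : Idx m // j ≠ s} K)) [Q.IsPrime]
    (hG : GG s b' c' ∈ Q) (c : MvPolynomial {j : Idx m // j ≠ s} K) (hcQ : c ∉ Q) :
    c * GG s b' c' ∉ Q ^ 2 := by
  intro h
  apply not_all s b' c' π c₀ hrad f hf hc Q hG
  intro j hj
  have hD : ∀ x ∈ Q ^ 2, pderiv ⟨j, hj⟩ x ∈ Q := by
    intro x hx
    rw [pow_two] at hx
    refine Submodule.mul_induction_on hx ?_ ?_
    · intro y hy z hz
      rw [pderiv_mul]
      exact Q.add_mem (Q.mul_mem_left _ hz) (Q.mul_mem_right _ hy)
    · intro y z hy hz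
      rw [map_add]
      exact Q.add_mem hy hz
  have h1 := hD _ h
  rw [pderiv_mul] at h1
  have h2 : c * pderiv ⟨j, hj⟩ (GG s b' c') ∈ Q := by
    have h3 := Q.sub_mem h1 (Q.mul_mem_left (pderiv ⟨j, hj⟩ c) hG)
    rwa [add_sub_cancel_left] at h3
  exact (Ideal.IsPrime.mem_or_mem ‹_› h2).resolve_left hcQ

end quad

/-- the statement of task B2 -/
def RegCritOne : Prop := ∀ {W A C : Type} [CommRing W] [IsNoetherianRing W] [CommRing A]
    [CommRing C] [IsRegularRing C]
    (pr : W →+* A) (_ : Function.Surjective pr)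
    (S : Finset W) (_ : RingHom.ker pr = Ideal.span (S : Set W))
    (q : Ideal A) [q.IsPrime]
    (θ : W →+* C) (_ : Function.Surjective θ) (_ : RingHom.ker θ ≤ q.comap pr)
    (a : Finset W) (_ : ∀ x ∈ a, pr x ∈ q)
    (_ : ∀ x ∈ RingHom.ker θ, ∃ c, pr c ∉ q ∧ pr (c * x) ∈ Ideal.span (pr '' (a : Set W)))
    (E : W) (_ : pr E = 0)
    (_ : ∀ c : C, c ∉ (q.comap pr).map θ → c * θ E ∉ ((q.comap pr).map θ) ^ 2)
    (_ : ((a.card + S.card : ℕ) : ℕ∞) ≤ (RingHom.ker θ).height + 1),
    IsRegularLocalRing (Localization.AtPrime q)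

theorem regular_T2_of (hcrit : RegCritOne)
    {R A : Type} [CommRing R] [IsDomain R] [IsDiscreteValuationRing R]
    [CommRing A] (π : R) (hπ : Irreducible π) {m : ℕ}
    (g : Polynomial R) (hg : Irreducible (g.map (IsLocalRing.residue R)))
    (b : Fin m → Polynomial R) (c₀ : Fin m → Fin m → R) (hrad : Rad π c₀) (s : Idx m)
    (pr : MvPolynomial (Option {j : Idx m // j ≠ s}) (Polynomial R) →+* A)
    (hpr : Function.Surjective pr)
    (hE : RingHom.ker pr = Ideal.span
      {C (Polynomial.C π) - X none * tau2 s (some none),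
        C g - X none * tau2 s none,
        tau2 s (some none) * (tau2 s none + ∑ i, C (b i) * tau2 s (some (some i))) +
          ∑ i, ∑ j, C (Polynomial.C (c₀ i j)) * tau2 s (some (some i)) * tau2 s (some (some j))})
    (q : Ideal A) [q.IsPrime] (hσ : pr (X none) ∈ q) :
    IsRegularLocalRing (Localization.AtPrime q) := by
  classical
  have : Fact (Irreducible (g.map (IsLocalRing.residue R))) := ⟨hg⟩
  set φ : Polynomial R →+* AdjoinRoot (g.map (IsLocalRing.residue R)) :=
    (AdjoinRoot.mk (g.map (IsLocalRing.residue R))).comp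
      (Polynomial.mapRingHom (IsLocalRing.residue R)) with hφ
  set E1 : MvPolynomial (Option {j : Idx m // j ≠ s}) (Polynomial R) :=
    C (Polynomial.C π) - X none * tau2 s (some none) with hE1
  set E2 : MvPolynomial (Option {j : Idx m // j ≠ s}) (Polynomial R) := C g - X none * tau2 s none with hE2
  set E3 : MvPolynomial (Option {j : Idx m // j ≠ s}) (Polynomial R) :=
    tau2 s (some none) * (tau2 s none + ∑ i, C (b i) * tau2 s (some (some i))) +
      ∑ i, ∑ j, C (Polynomial.C (c₀ i j)) * tau2 s (some (some i)) * tau2 s (some (some j)) with hE3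
  have hpr1 : pr E1 = 0 := by
    rw [← RingHom.mem_ker, hE]; exact Ideal.subset_span (by simp)
  have hpr2 : pr E2 = 0 := by
    rw [← RingHom.mem_ker, hE]; exact Ideal.subset_span (by simp)
  have hpr3 : pr E3 = 0 := by
    rw [← RingHom.mem_ker, hE]; exact Ideal.subset_span (by simp)
  have hpi : pr (C (Polynomial.C π)) = pr (X none) * pr (tau2 s (some none)) := by
    have := hpr1
    rw [hE1, map_sub, sub_eq_zero, map_mul] at this
    exact this
  have hgg : pr (C g) = pr (X none) * pr (tau2 s none) := by
    have := hpr2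
    rw [hE2, map_sub, sub_eq_zero, map_mul] at this
    exact this
  have hspan : ∀ x ∈ RingHom.ker (TH g {j : Idx m // j ≠ s}), pr x ∈ Ideal.span {pr (X none)} := by
    intro x hx
    have h1 := ker_TH g π hπ hx
    have h2 : Ideal.span {X none, C (Polynomial.C π), C g} ≤
        (Ideal.span {pr (X none)}).comap pr := by
      rw [Ideal.span_le]
      rintro y (rfl | rfl | rfl)
      · exact Ideal.mem_span_singleton_self _
      · rw [SetLike.mem_coe, Ideal.mem_comap, hpi]
        exact Ideal.mul_mem_right _ _ (Ideal.mem_span_singleton_self _)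
      · rw [SetLike.mem_coe, Ideal.mem_comap, hgg]
        exact Ideal.mul_mem_right _ _ (Ideal.mem_span_singleton_self _)
    exact h2 h1
  have hker : RingHom.ker (TH g {j : Idx m // j ≠ s}) ≤ q.comap pr := by
    intro x hx
    rw [Ideal.mem_comap]
    have h1 := hspan x hx
    have h2 : Ideal.span {pr (X none)} ≤ q := by
      rw [Ideal.span_le]
      rintro y rfl
      exact hσ
    exact h2 h1
  have hTE : TH g {j : Idx m // j ≠ s} E3 = GG s (fun i => φ (b i)) (fun i j => φ (Polynomial.C (c₀ i j))) := by
    have ht : ∀ j : Idx m, TH g {j : Idx m // j ≠ s} (tau2 s j) = tt s j := by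
      intro j
      unfold tau2 tt
      split_ifs with h
      · rw [map_one]
      · rw [TH_some]
    simp only [hE3, map_add, map_mul, map_sum, ht, TH_C, GG]
    rfl
  have hmp : ((q.comap pr).map (TH g {j : Idx m // j ≠ s})).IsPrime :=
    Ideal.map_isPrime_of_surjective (TH_surj g) hker
  refine hcrit pr hpr {E1, E2, E3} ?_ q (TH g {j : Idx m // j ≠ s}) (TH_surj g) hker {X none} ?_ ?_ E3 hpr3 ?_ ?_
  · rw [hE]
    congr 1
    simp
  · intro x hx
    rw [Finset.mem_singleton] at hx
    rw [hx]
    exact hσ
  · intro x hx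
    refine ⟨1, ?_, ?_⟩
    · rw [map_one]
      intro h
      exact Ideal.IsPrime.ne_top ‹_› ((Ideal.eq_top_iff_one q).2 h)
    · rw [one_mul, Finset.coe_singleton, Set.image_singleton]
      exact hspan x hx
  · intro c hc
    rw [hTE]
    refine not_sq s _ _ π c₀ hrad (φ.comp Polynomial.C) ?_ (fun i j => rfl) _ ?_ c hc
    · have hres : IsLocalRing.residue R π = 0 := by
        rw [IsLocalRing.residue_eq_zero_iff, hπ.maximalIdeal_eq]
        exact Ideal.mem_span_singleton_self π
      simp [hφ, hres]
    · have h5 : TH g {j : Idx m // j ≠ s} E3 ∈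
          (q.comap pr).map (TH g {j : Idx m // j ≠ s}) := by
        apply Ideal.mem_map_of_mem
        rw [Ideal.mem_comap, hpr3]
        exact q.zero_mem
      rw [hTE] at h5
      exact h5
  · have h3 := height_ker (J := {j : Idx m // j ≠ s}) g π hπ hg
    have hc : ({X none} : Finset (MvPolynomial (Option {j : Idx m // j ≠ s}) (Polynomial R))).card +
        ({E1, E2, E3} : Finset (MvPolynomial (Option {j : Idx m // j ≠ s}) (Polynomial R))).card ≤ 4 := by
      have := Finset.card_le_three (a := E1) (b := E2) (c := E3)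
      rw [Finset.card_singleton]
      omega
    calc _ ≤ ((4 : ℕ) : ℕ∞) := by exact_mod_cast hc
      _ = 3 + 1 := by norm_num
      _ ≤ _ := by gcongr

end Pool.Agent.H918R2.Quad.F2
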