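import Pool.Agent.H918R2.Quad.Defs
import Pool.Agent.H918R2.Quad.Reg2
import Pool.Agent.H918R2.Quad.F2
import Pool.Agent.H968R2.Quad.RegSub
import Pool.Agent.H968R2.Quad.ExistsModel
import Pool.Agent.H825R2.QuadF
import Pool.Agent.H58R2.QL.Adapted

/-! The ingredients proved by helper968 (model, local subrings), helper58 (lattices), helper825 and
helper992 (regular points). -/

set_option autoImplicit false

open AlgebraicGeometry CategoryTheory

namespace Pool.Agent.H918R2.Quad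

theorem exists_model {O : Type} [CommRing O] [IsDomain O] [Module.Finite ℤ O]
    {F : Type} [Field F] [Algebra O F] (hinj : Function.Injective (algebraMap O F))
    (M : Submodule O F) (hM : M.FG) (h0 : ∃ f ∈ M, f ≠ 0)
    (hgen : ∀ f ∈ M, f ≠ 0 → ∀ x : F, ∃ a ∈ chart O M f, ∃ b ∈ chart O M f, b ≠ 0 ∧ x = a / b)
    (hreg : ∀ f ∈ M, f ≠ 0 → ∀ (q : Ideal (chart O M f)) [q.IsPrime],
      IsRegularLocalRing (Localization.AtPrime q)) :
    ∃ (X' : Scheme.{0}) (_ : IsIntegral X') (g : X' ⟶ Spec (CommRingCat.of ℤ)),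
      IsProper g ∧
      (∀ x : X',
        (((Module.finrank (IsLocalRing.ResidueField (X'.presheaf.stalk x))
            (IsLocalRing.CotangentSpace (X'.presheaf.stalk x)) : ℕ∞)) : WithBot ℕ∞)
          = ringKrullDim (X'.presheaf.stalk x)) ∧
      Nonempty (X'.functionField ≃+* F) :=
  Pool.Agent.H968R2.Quad.exists_model hinj M hM h0 hgen hreg

theorem regular_subring {R A F : Type} [CommRing R] [CommRing A] [Algebra R A] [Field F]
    [Algebra R F]
    (𝒪 : Subring F) (e : A →ₐ[R] F) (he : ∀ a, e a ∈ 𝒪)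
    (hfrac : ∀ x ∈ 𝒪, ∃ a b : A, e b ≠ 0 ∧ (e b)⁻¹ ∈ 𝒪 ∧ x = e a / e b)
    (q : Ideal A) [q.IsPrime] (hq : ∀ a, a ∈ q ↔ (e a = 0 ∨ (e a)⁻¹ ∉ 𝒪))
    (hreg : IsRegularLocalRing (Localization.AtPrime q))
    {ρ : Type} (y : ρ → A) (P : MvPolynomial ρ R) (hP : P ≠ 0)
    (hPy : MvPolynomial.aeval y P = 0)
    (j₀ : ρ) (hind : AlgebraicIndependent R (fun j : {j : ρ // j ≠ j₀} => e (y j)))
    (hgen : ∀ a : A, ∃ p p' : MvPolynomial ρ R, e (MvPolynomial.aeval y p') ≠ 0 ∧
      MvPolynomial.aeval y p' * a = MvPolynomial.aeval y p) :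
    IsRegularLocalRing 𝒪 :=
  Pool.Agent.H968R2.Quad.regular_subring_of_isDomain 𝒪 e he hfrac q hq hreg
    (regular_isDomain _) y P hP hPy j₀ hind hgen

theorem exists_adapted {R K : Type} [CommRing R] [IsDomain R] [IsDiscreteValuationRing R]
    [Finite (IsLocalRing.ResidueField R)] [Field K] [CharZero K] [Algebra R K]
    [IsFractionRing R K] (n : ℕ) (a : Fin n → R) (ha : ∀ i, a i ≠ 0) (π : R)
    (hπ : Irreducible π) :
    ∃ (d m : ℕ) (_ : d ≤ 2) (_ : d + m = n) (T : (Fin d ⊕ Fin m) → Fin n → R)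
      (U : Fin n → (Fin d ⊕ Fin m) → K)
      (c₁ : Fin d → Fin d → R) (c₂ : Fin d → Fin m → R) (c₀ : Fin m → Fin m → R),
      (∀ i i', ∑ j, U i j * algebraMap R K (T j i') = if i = i' then 1 else 0) ∧
      (∀ j j', ∑ i, algebraMap R K (T j i) * U i j' = if j = j' then 1 else 0) ∧
      (∀ (F : Type) [Field F] [Algebra K F] (z : (Fin d ⊕ Fin m) → F),
        ∑ i, algebraMap K F (algebraMap R K (a i)) * (∑ j, algebraMap K F (U i j) * z j) ^ 2 =
          algebraMap K F (algebraMap R K π) * (∑ i, ∑ j, algebraMap K F (algebraMap R K (c₁ i j)) *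
              z (Sum.inl i) * z (Sum.inl j)) +
          algebraMap K F (algebraMap R K π) * (∑ i, ∑ j, algebraMap K F (algebraMap R K (c₂ i j)) *
              z (Sum.inl i) * z (Sum.inr j)) +
          ∑ i, ∑ j, algebraMap K F (algebraMap R K (c₀ i j)) * z (Sum.inr i) * z (Sum.inr j)) ∧
      (∀ v : Fin d → R, π ∣ (∑ i, ∑ j, c₁ i j * v i * v j) → ∀ i, π ∣ v i) ∧
      Rad π c₀ :=
  Pool.Agent.H58R2.QL.exists_adapted n a ha π hπ

open MvPolynomial in
theorem regular_of_pderiv {R A σ : Type} [CommRing R] [IsRegularRing R] [Finite σ] [CommRing A]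
    (E : MvPolynomial σ R) (pr : MvPolynomial σ R →+* A) (hpr : Function.Surjective pr)
    (hE : RingHom.ker pr = Ideal.span {E}) (q : Ideal A) [q.IsPrime]
    (j : σ) (hj : pr (pderiv j E) ∉ q) :
    IsRegularLocalRing (Localization.AtPrime q) :=
  Pool.Agent.H825R2.QuadF.regular_of_pderiv E pr hpr hE q j hj

open MvPolynomial in
theorem regular_T1 {R A : Type} [CommRing R] [IsDomain R] [IsDiscreteValuationRing R]
    [CommRing A] (π : R) (hπ : Irreducible π) {d m : ℕ}
    (c₁ : Fin d → Fin d → R) (c₂ : Fin d → Fin m → R) (c₀ : Fin m → Fin m → R)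
    (hrad : Rad π c₀) (s : Fin d ⊕ Fin m)
    (pr : MvPolynomial {j : Fin d ⊕ Fin m // j ≠ s} R →+* A) (hpr : Function.Surjective pr)
    (hE : RingHom.ker pr = Ideal.span
      {C π * (∑ i, ∑ j, C (c₁ i j) * tau s (Sum.inl i) * tau s (Sum.inl j)) +
        C π * (∑ i, ∑ j, C (c₂ i j) * tau s (Sum.inl i) * tau s (Sum.inr j)) +
        ∑ i, ∑ j, C (c₀ i j) * tau s (Sum.inr i) * tau s (Sum.inr j)})
    (q : Ideal A) [q.IsPrime] (hπq : pr (C π) ∈ q)
    (hout : (∃ i : Fin m, pr (tau s (Sum.inr i)) ∉ q) ∨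
      pr (∑ i, ∑ j, C (c₁ i j) * tau s (Sum.inl i) * tau s (Sum.inl j)) ∉ q) :
    IsRegularLocalRing (Localization.AtPrime q) :=
  Pool.Agent.H825R2.QuadF.regular_T1 π hπ c₁ c₂ c₀ hrad s pr hpr hE q hπq hout

open MvPolynomial in
theorem regular_T2 {R A : Type} [CommRing R] [IsDomain R] [IsDiscreteValuationRing R]
    [CommRing A] (π : R) (hπ : Irreducible π) {m : ℕ}
    (g : Polynomial R) (hg : Irreducible (g.map (IsLocalRing.residue R)))
    (b : Fin m → Polynomial R) (c₀ : Fin m → Fin m → R) (hrad : Rad π c₀) (s : Idx m)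
    (pr : MvPolynomial (Option {j : Idx m // j ≠ s}) (Polynomial R) →+* A)
    (hpr : Function.Surjective pr)
    (hE : RingHom.ker pr = Ideal.span
      {C (Polynomial.C π) - X none * tau2 s (some none),
        C g - X none * tau2 s none,
        tau2 s (some none) * (tau2 s none + ∑ i, C (b i) * tau2 s (some (some i))) +
          ∑ i, ∑ j, C (Polynomial.C (c₀ i j)) * tau2 s (some (some i)) * tau2 s (some (some j))})
    (q : Ideal A) [q.IsPrime] (hσ : pr (X none) ∈ q) :
    IsRegularLocalRing (Localization.AtPrime q) :=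
  Pool.Agent.H918R2.Quad.F2.regular_T2_of
    (by
      intro W A C _ _ _ _ _ pr hpr S hS q _ th hth hker a ha hloc E hE hE2 hht
      exact reg_crit_one pr hpr S hS q th hth hker a ha hloc E hE hE2 hht)
    π hπ g hg b c₀ hrad s pr hpr hE q hσ

end Pool.Agent.H918R2.Quad
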