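import Pool.Agent.H918R2.Quad.Loc
import Pool.Agent.H918R2.Quad.Tasks

/-! Local rings of the model of a quadric at bad primes: the open part. -/

set_option autoImplicit false

namespace Pool.Agent.H918R2.Quad

open MvPolynomial

section Epol

variable {R : Type} [CommRing R] {d m : ℕ}

/-- The value of the quadratic form. -/
def Qval (A : Type) [CommRing A] [Algebra R A] (π : R) (c₁ : Fin d → Fin d → R)
    (c₂ : Fin d → Fin m → R) (c₀ : Fin m → Fin m → R) (t : Fin d ⊕ Fin m → A) : A :=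
  algebraMap R A π * (∑ i, ∑ j, algebraMap R A (c₁ i j) * t (Sum.inl i) * t (Sum.inl j)) +
    algebraMap R A π * (∑ i, ∑ j, algebraMap R A (c₂ i j) * t (Sum.inl i) * t (Sum.inr j)) +
    ∑ i, ∑ j, algebraMap R A (c₀ i j) * t (Sum.inr i) * t (Sum.inr j)

theorem Qval_smul (A : Type) [CommRing A] [Algebra R A] (π : R) (c₁ : Fin d → Fin d → R)
    (c₂ : Fin d → Fin m → R) (c₀ : Fin m → Fin m → R) (t : Fin d ⊕ Fin m → A) (l : A) :
    Qval A π c₁ c₂ c₀ (fun j => l * t j) = l ^ 2 * Qval A π c₁ c₂ c₀ t := by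
  unfold Qval
  rw [mul_add, mul_add]
  congr 1
  · congr 1
    · rw [← mul_assoc, mul_comm (l ^ 2), mul_assoc]
      congr 1
      simp only [Finset.mul_sum]
      refine Finset.sum_congr rfl fun i _ => Finset.sum_congr rfl fun j _ => ?_
      ring
    · rw [← mul_assoc, mul_comm (l ^ 2), mul_assoc]
      congr 1
      simp only [Finset.mul_sum]
      refine Finset.sum_congr rfl fun i _ => Finset.sum_congr rfl fun j _ => ?_
      ring
  · simp only [Finset.mul_sum]
    refine Finset.sum_congr rfl fun i _ => Finset.sum_congr rfl fun j _ => ?_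
    ring

theorem Qval_map {A B : Type} [CommRing A] [Algebra R A] [CommRing B] [Algebra R B]
    (φ : A →ₐ[R] B) (π : R) (c₁ : Fin d → Fin d → R)
    (c₂ : Fin d → Fin m → R) (c₀ : Fin m → Fin m → R) (t : Fin d ⊕ Fin m → A) :
    φ (Qval A π c₁ c₂ c₀ t) = Qval B π c₁ c₂ c₀ (fun j => φ (t j)) := by
  unfold Qval
  simp only [map_add, map_mul, map_sum, AlgHom.commutes]

/-- Dehomogenised equation. -/
noncomputable def Epol (π : R) (c₁ : Fin d → Fin d → R) (c₂ : Fin d → Fin m → R)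
    (c₀ : Fin m → Fin m → R) (s : Fin d ⊕ Fin m) : MvPolynomial {j : Fin d ⊕ Fin m // j ≠ s} R :=
  C π * (∑ i, ∑ j, C (c₁ i j) * tau s (Sum.inl i) * tau s (Sum.inl j)) +
    C π * (∑ i, ∑ j, C (c₂ i j) * tau s (Sum.inl i) * tau s (Sum.inr j)) +
    ∑ i, ∑ j, C (c₀ i j) * tau s (Sum.inr i) * tau s (Sum.inr j)

theorem Epol_eq (π : R) (c₁ : Fin d → Fin d → R) (c₂ : Fin d → Fin m → R)
    (c₀ : Fin m → Fin m → R) (s : Fin d ⊕ Fin m) :
    Epol π c₁ c₂ c₀ s = Qval (MvPolynomial {j : Fin d ⊕ Fin m // j ≠ s} R) π c₁ c₂ c₀ (tau s) := rfl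

theorem aeval_tau {ι A : Type} [DecidableEq ι] [CommRing A] [Algebra R A] (s : ι) (t : ι → A)
    (hs : t s = 1) (j : ι) : aeval (fun j : {j : ι // j ≠ s} => t j) (tau (R := R) s j) = t j := by
  unfold tau
  by_cases h : j = s
  · subst h; simp [hs]
  · simp [h]

theorem aeval_Epol {A : Type} [CommRing A] [Algebra R A] (π : R) (c₁ : Fin d → Fin d → R)
    (c₂ : Fin d → Fin m → R) (c₀ : Fin m → Fin m → R) (s : Fin d ⊕ Fin m)
    (t : Fin d ⊕ Fin m → A) (hs : t s = 1) :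
    aeval (fun j : {j : Fin d ⊕ Fin m // j ≠ s} => t j) (Epol π c₁ c₂ c₀ s) =
      Qval A π c₁ c₂ c₀ t := by
  rw [Epol_eq, Qval_map]
  congr 1
  funext j
  exact aeval_tau s t hs j

theorem Epol_ne_zero {K : Type} [IsDomain R] [Field K] [Algebra R K]
    (hinj : Function.Injective (algebraMap R K)) (π : R)
    (c₁ : Fin d → Fin d → R) (c₂ : Fin d → Fin m → R) (c₀ : Fin m → Fin m → R)
    (s : Fin d ⊕ Fin m) (v : Fin d ⊕ Fin m → R) (hvs : v s ≠ 0)
    (hv : Qval R π c₁ c₂ c₀ v ≠ 0) : Epol π c₁ c₂ c₀ s ≠ 0 := by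
  intro h
  have hvs' : algebraMap R K (v s) ≠ 0 := fun h0 => hvs (hinj (by rw [h0, map_zero]))
  have h1 := aeval_Epol (A := K) π c₁ c₂ c₀ s (fun j => (algebraMap R K (v s))⁻¹ *
    algebraMap R K (v j)) (inv_mul_cancel₀ hvs')
  rw [h, map_zero, Qval_smul] at h1
  have h2 : Qval K π c₁ c₂ c₀ (fun j => algebraMap R K (v j)) = 0 := by
    rcases mul_eq_zero.1 h1.symm with h3 | h3
    · exact absurd h3 (pow_ne_zero 2 (inv_ne_zero hvs'))
    · exact h3
  have h3 := Qval_map (Algebra.ofId R K) π c₁ c₂ c₀ v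
  simp only [Algebra.ofId_apply] at h3
  rw [h2] at h3
  exact hv (hinj (by rw [map_zero]; exact h3))

end Epol

/-- Generators of the second factor. -/
def Tset {R F : Type} [CommRing R] [Field F] [Algebra R F] {d m : ℕ} (π : R)
    (c₁ : Fin d → Fin d → R) (z : Fin d ⊕ Fin m → F) : Set F :=
  {b | (∃ i j, b = algebraMap R F π * z i * z j) ∨ (∃ (i : Fin m) (j : _), b = z (Sum.inr i) * z j) ∨
    b = ∑ i, ∑ j, algebraMap R F (c₁ i j) * z (Sum.inl i) * z (Sum.inl j)}

/-- Generators of the local fractional ideal. -/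
def Gset {R F : Type} [CommRing R] [Field F] [Algebra R F] {d m : ℕ} (π : R)
    (c₁ : Fin d → Fin d → R) (z : Fin d ⊕ Fin m → F) : Set F :=
  {g | ∃ j, ∃ b ∈ Tset π c₁ z, g = z j * b}

section T1

variable {R K F : Type} [CommRing R] [IsDomain R] [IsDiscreteValuationRing R]
  [Field F] [Algebra R F]

/-- Open part: assembly. -/
theorem regular_open (𝒪 : Subring F) (hloc : IsLoc 𝒪) (hR : ∀ r : R, algebraMap R F r ∈ 𝒪)
    (π : R) (hπ : Irreducible π) (hπ𝒪 : ¬ U 𝒪 (algebraMap R F π)) {d m : ℕ}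
    (c₁ : Fin d → Fin d → R) (c₂ : Fin d → Fin m → R) (c₀ : Fin m → Fin m → R)
    (hrad : Rad π c₀) (z : Fin d ⊕ Fin m → F) (hrel : Qval F π c₁ c₂ c₀ z = 0)
    (s : Fin d ⊕ Fin m) (hs : z s ≠ 0) (hz : ∀ j, z j / z s ∈ 𝒪)
    (hne : Epol π c₁ c₂ c₀ s ≠ 0) (j₀ : {j : Fin d ⊕ Fin m // j ≠ s})
    (hind : AlgebraicIndependent R
      (fun j : {j : {j : Fin d ⊕ Fin m // j ≠ s} // j ≠ j₀} => z j / z s))
    (f : F) (hfG : f ∈ Submodule.span R (Gset π c₁ z)) (hfh : U 𝒪 (f / z s ^ 3))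
    (hloc2 : IsLocOf 𝒪 (chart R (Submodule.span R (Gset π c₁ z)) f))
    (hout : (∃ i : Fin m, U 𝒪 (z (Sum.inr i) / z s)) ∨
      U 𝒪 (∑ i, ∑ j, algebraMap R F (c₁ i j) * (z (Sum.inl i) / z s) * (z (Sum.inl j) / z s))) :
    IsRegularLocalRing 𝒪 := by
  let I : Ideal (MvPolynomial {j : Fin d ⊕ Fin m // j ≠ s} R) := Ideal.span {Epol π c₁ c₂ c₀ s}
  let A := MvPolynomial {j : Fin d ⊕ Fin m // j ≠ s} R ⧸ I
  let t : Fin d ⊕ Fin m → F := fun j => z j / z s
  have hts : t s = 1 := div_self hs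
  let eW : MvPolynomial {j : Fin d ⊕ Fin m // j ≠ s} R →ₐ[R] F := aeval (fun j : {j : Fin d ⊕ Fin m // j ≠ s} => t j)
  have heW : ∀ w, eW w ∈ 𝒪 := by
    intro w
    induction w using MvPolynomial.induction_on with
    | C r =>
      have h1 : eW (C r) = algebraMap R F r := aeval_C _ r
      rw [h1]; exact hR r
    | add p q hp hq => rw [map_add]; exact 𝒪.add_mem hp hq
    | mul_X p j hp =>
      rw [map_mul]
      have h1 : eW (X j) = t j := aeval_X _ j
      rw [h1]; exact 𝒪.mul_mem hp (hz _)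
  have hEt : eW (Epol π c₁ c₂ c₀ s) = 0 := by
    simp only [eW]
    rw [aeval_Epol π c₁ c₂ c₀ s t hts]
    have h1 : t = fun j => (z s)⁻¹ * z j := by
      funext j; simp only [t]; rw [div_eq_inv_mul]
    rw [h1, Qval_smul, hrel, mul_zero]
  have hI : ∀ w ∈ I, eW w = 0 := by
    intro w hw
    obtain ⟨c, rfl⟩ := Ideal.mem_span_singleton.1 hw
    rw [map_mul, hEt, zero_mul]
  let e : A →ₐ[R] F := Ideal.Quotient.liftₐ I eW hI
  have hemk : ∀ w, e (Ideal.Quotient.mk I w) = eW w := fun w => rfl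
  have he : ∀ a, e a ∈ 𝒪 := by
    intro a
    obtain ⟨w, rfl⟩ := Ideal.Quotient.mk_surjective a
    rw [hemk]; exact heW w
  let q : Ideal A := primeOf hloc (e : A →+* F) he
  have hqp : q.IsPrime := primeOf_isPrime hloc (e : A →+* F) he
  have hmemq : ∀ a : A, a ∈ q ↔ ¬ U 𝒪 (e a) := fun a => mem_primeOf hloc (e : A →+* F) he a
  have hmap : ∀ j, eW (tau s j) = t j := fun j => aeval_tau s t hts j
  have hzt : ∀ j, z j = z s * eW (tau s j) := by
    intro j
    rw [hmap]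
    simp only [t]
    field_simp
  have hG : ∀ g ∈ Gset π c₁ z, ∃ w, g = z s ^ 3 * eW w := by
    rintro g ⟨j, b, hb, rfl⟩
    have hb' : ∃ w, b = z s ^ 2 * eW w := by
      rcases hb with ⟨i, j, rfl⟩ | ⟨i, j, rfl⟩ | rfl
      · refine ⟨C π * tau s i * tau s j, ?_⟩
        have h1 : eW (C π) = algebraMap R F π := aeval_C _ π
        rw [map_mul, map_mul, h1, hzt i, hzt j]
        ring
      · refine ⟨tau s (Sum.inr i) * tau s j, ?_⟩
        rw [map_mul, hzt (Sum.inr i), hzt j]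
        ring
      · refine ⟨∑ i, ∑ j, C (c₁ i j) * tau s (Sum.inl i) * tau s (Sum.inl j), ?_⟩
        simp only [map_sum, map_mul, Finset.mul_sum]
        refine Finset.sum_congr rfl fun i _ => Finset.sum_congr rfl fun j _ => ?_
        have h1 : eW (C (c₁ i j)) = algebraMap R F (c₁ i j) := aeval_C _ _
        rw [h1, hzt (Sum.inl i), hzt (Sum.inl j)]
        ring
    obtain ⟨w, rfl⟩ := hb'
    refine ⟨tau s j * w, ?_⟩
    rw [map_mul, hzt j]
    ring
  have hfrac := frac_of_chart eW heW (Gset π c₁ z) f (z s ^ 3) (pow_ne_zero 3 hs) hG hfG hfh hloc2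
  have hreg : IsRegularLocalRing (Localization.AtPrime q) := by
    refine regular_T1 π hπ c₁ c₂ c₀ hrad s (Ideal.Quotient.mk I) Ideal.Quotient.mk_surjective
      (Ideal.mk_ker) q ?_ ?_
    · rw [hmemq, hemk]
      simp only [eW, algHom_C]
      exact hπ𝒪
    · rcases hout with ⟨i, hi⟩ | hq
      · left
        refine ⟨i, ?_⟩
        rw [hmemq, hemk, hmap, not_not]
        exact hi
      · right
        rw [hmemq, hemk, not_not]
        simp only [map_sum, map_mul, hmap]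
        convert hq using 6
        simp only [eW, algHom_C]
  refine regular_subring (R := R) 𝒪 e he ?_ q (fun a => mem_primeOf' hloc (e : A →+* F) he a) hreg
    (fun j : {j : Fin d ⊕ Fin m // j ≠ s} => Ideal.Quotient.mk I (X j)) (Epol π c₁ c₂ c₀ s) hne
    ?_ j₀ ?_ ?_
  · intro x hx
    obtain ⟨a, b, hb, hb', hx'⟩ := hfrac x hx
    exact ⟨Ideal.Quotient.mk I a, Ideal.Quotient.mk I b, hb, hb', hx'⟩
  · have h1 : ∀ p, aeval (fun j : {j : Fin d ⊕ Fin m // j ≠ s} =>
        Ideal.Quotient.mk I (X j)) p = Ideal.Quotient.mk I p := by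
      intro p
      have h2 : (aeval (fun j : {j : Fin d ⊕ Fin m // j ≠ s} =>
        Ideal.Quotient.mk I (X j)) : MvPolynomial {j : Fin d ⊕ Fin m // j ≠ s} R →ₐ[R] A) = Ideal.Quotient.mkₐ R I := by
        apply MvPolynomial.algHom_ext
        intro j
        rw [aeval_X]
        rfl
      rw [h2]
      rfl
    rw [h1]
    exact Ideal.Quotient.eq_zero_iff_mem.2 (Ideal.mem_span_singleton_self _)
  · convert hind using 2 with j
    rw [hemk]
    simp [eW, t]
  · intro a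
    obtain ⟨w, rfl⟩ := Ideal.Quotient.mk_surjective a
    refine ⟨w, 1, by simp, ?_⟩
    have h2 : (aeval (fun j : {j : Fin d ⊕ Fin m // j ≠ s} =>
      Ideal.Quotient.mk I (X j)) : MvPolynomial {j : Fin d ⊕ Fin m // j ≠ s} R →ₐ[R] A) = Ideal.Quotient.mkₐ R I := by
      apply MvPolynomial.algHom_ext
      intro j
      rw [aeval_X]
      rfl
    rw [h2, map_one, one_mul]
    rfl

end T1

end Pool.Agent.H918R2.Quad
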