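import Pool.Agent.H918R2.Quad.Loc
import Pool.Agent.H918R2.Quad.Tasks

/-! Local subring presented by a quotient of an algebra. -/

set_option autoImplicit false

namespace Pool.Agent.H918R2.Quad

open MvPolynomial

theorem regular_of_pres {R F W A : Type} [CommRing R] [Field F] [Algebra R F] [CommRing W]
    [Algebra R W] [CommRing A] [Algebra R A] (𝒪 : Subring F) (hloc : IsLoc 𝒪)
    (pr : W →ₐ[R] A) (hpr : Function.Surjective pr) (eW : W →ₐ[R] F)
    (hker : ∀ w, pr w = 0 → eW w = 0) (hW : ∀ w, eW w ∈ 𝒪)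
    (hfrac : ∀ x ∈ 𝒪, ∃ a b : W, eW b ≠ 0 ∧ (eW b)⁻¹ ∈ 𝒪 ∧ x = eW a / eW b)
    (hreg : ∀ (q : Ideal A) [q.IsPrime], (∀ w, pr w ∈ q ↔ ¬ U 𝒪 (eW w)) →
      IsRegularLocalRing (Localization.AtPrime q))
    {ρ : Type} (y : ρ → W) (P : MvPolynomial ρ R) (hP : P ≠ 0)
    (hPy : pr (aeval y P) = 0) (j₀ : ρ)
    (hind : AlgebraicIndependent R (fun j : {j : ρ // j ≠ j₀} => eW (y j)))
    (hgen : ∀ w : W, ∃ p p' : MvPolynomial ρ R, eW (aeval y p') ≠ 0 ∧
      pr (aeval y p' * w) = pr (aeval y p)) : IsRegularLocalRing 𝒪 := by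
  have hkk : RingHom.ker pr ≤ RingHom.ker eW := by
    intro w hw
    exact hker w hw
  let e : A →ₐ[R] F := AlgHom.liftOfSurjective pr hpr eW hkk
  have hemk : ∀ w, e (pr w) = eW w := fun w => AlgHom.liftOfSurjective_apply pr hpr eW hkk w
  have he : ∀ a, e a ∈ 𝒪 := by
    intro a
    obtain ⟨w, rfl⟩ := hpr a
    rw [hemk]; exact hW w
  let q : Ideal A := primeOf hloc (e : A →+* F) he
  have hqp : q.IsPrime := primeOf_isPrime hloc (e : A →+* F) he
  have hmemq : ∀ a : A, a ∈ q ↔ ¬ U 𝒪 (e a) := fun a => mem_primeOf hloc (e : A →+* F) he a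
  have haev : ∀ p : MvPolynomial ρ R, aeval (fun j => pr (y j)) p = pr (aeval y p) := by
    intro p
    have : (aeval (fun j => pr (y j)) : MvPolynomial ρ R →ₐ[R] A) = pr.comp (aeval y) := by
      apply MvPolynomial.algHom_ext
      intro j
      simp
    rw [this]
    rfl
  refine regular_subring (R := R) 𝒪 e he ?_ q (fun a => mem_primeOf' hloc (e : A →+* F) he a)
    (hreg q ?_) (fun j => pr (y j)) P hP ?_ j₀ ?_ ?_
  · intro x hx
    obtain ⟨a, b, hb, hb', hx'⟩ := hfrac x hx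
    refine ⟨pr a, pr b, ?_, ?_, ?_⟩
    · rw [hemk]; exact hb
    · rw [hemk]; exact hb'
    · rw [hemk, hemk]; exact hx'
  · intro w
    rw [hmemq, hemk]
  · rw [haev]; exact hPy
  · convert hind using 2 with j
    exact hemk _
  · intro a
    obtain ⟨w, rfl⟩ := hpr a
    obtain ⟨p, p', h1, h2⟩ := hgen w
    refine ⟨p, p', ?_, ?_⟩
    · rw [haev, hemk]; exact h1
    · rw [haev, haev, ← map_mul]; exact h2

theorem exists_quot {R W : Type} [CommRing R] [CommRing W] [Algebra R W] (I : Ideal W) :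
    ∃ (A : Type) (_ : CommRing A) (_ : Algebra R A) (pr : W →ₐ[R] A), Function.Surjective pr ∧
      RingHom.ker (pr : W →+* A) = I ∧ ∀ w, pr w = 0 ↔ w ∈ I :=
  ⟨W ⧸ I, inferInstance, inferInstance, Ideal.Quotient.mkₐ R I, Ideal.Quotient.mkₐ_surjective R I,
    Ideal.mk_ker, fun _ => Ideal.Quotient.eq_zero_iff_mem⟩

end Pool.Agent.H918R2.Quad
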