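import Pool.Agent.H918R2.Quad.Bad1
import Pool.Agent.H918R2.Quad.Pres

/-! Local rings of the model of a quadric at bad primes: the exceptional divisor. -/

set_option autoImplicit false

namespace Pool.Agent.H918R2.Quad

open MvPolynomial

section irr

variable {R : Type} [CommRing R] [IsDomain R] [IsDiscreteValuationRing R]

/-- `r j = 1` for `j = s'`, the variable otherwise. -/
noncomputable def rr (R : Type) [CommRing R] (s' j : Fin 2) : Polynomial R :=
  if j = s' then 1 else Polynomial.X

noncomputable def gpol (c₁ : Fin 2 → Fin 2 → R) (s' : Fin 2) : Polynomial R :=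
  ∑ i, ∑ j, Polynomial.C (c₁ i j) * rr R s' i * rr R s' j

theorem irr_gpol (π : R) (hπ : Irreducible π) (c₁ : Fin 2 → Fin 2 → R)
    (haniso : ∀ v : Fin 2 → R, π ∣ (∑ i, ∑ j, c₁ i j * v i * v j) → ∀ i, π ∣ v i) (s' : Fin 2) :
    Irreducible ((gpol c₁ s').map (IsLocalRing.residue R)) := by
  have hmem : ∀ x : R, π ∣ x ↔ IsLocalRing.residue R x = 0 := by
    intro x
    rw [IsLocalRing.residue_eq_zero_iff, hπ.maximalIdeal_eq, Ideal.mem_span_singleton]
  have hu : ¬ π ∣ 1 := fun h => hπ.not_isUnit (isUnit_of_dvd_one h)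
  have hform : ∃ a b c : R, gpol c₁ s' = Polynomial.C a * Polynomial.X ^ 2 +
      Polynomial.C b * Polynomial.X + Polynomial.C c ∧ ¬ π ∣ a := by
    by_cases h : s' = 0
    · refine ⟨c₁ 1 1, c₁ 0 1 + c₁ 1 0, c₁ 0 0, ?_, ?_⟩
      · simp only [gpol, rr, Fin.sum_univ_two, h]
        simp only [Polynomial.C_add]
        norm_num
        ring
      · intro hd
        have := haniso (fun i => if i = 1 then 1 else 0) (by
          simpa [Fin.sum_univ_two] using hd) 1
        exact hu (by simpa using this)
    · have h : s' = 1 := by omega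
      refine ⟨c₁ 0 0, c₁ 0 1 + c₁ 1 0, c₁ 1 1, ?_, ?_⟩
      · simp only [gpol, rr, Fin.sum_univ_two, h]
        simp only [Polynomial.C_add]
        norm_num
        ring
      · intro hd
        have := haniso (fun i => if i = 0 then 1 else 0) (by
          simpa [Fin.sum_univ_two] using hd) 0
        exact hu (by simpa using this)
  obtain ⟨a, b, c, hg, ha⟩ := hform
  have hdeg : ((gpol c₁ s').map (IsLocalRing.residue R)).natDegree = 2 := by
    rw [hg]
    simp only [Polynomial.map_add, Polynomial.map_mul, Polynomial.map_C, Polynomial.map_pow,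
      Polynomial.map_X]
    exact Polynomial.natDegree_quadratic (by rwa [Ne, ← hmem])
  rw [Polynomial.irreducible_iff_roots_eq_zero_of_degree_le_three (by omega) (by omega)]
  rw [Multiset.eq_zero_iff_forall_notMem]
  intro l hl
  have hroot := (Polynomial.mem_roots'.1 hl).2
  obtain ⟨l', rfl⟩ := IsLocalRing.residue_surjective l
  have h0 := Polynomial.hom_eval₂ (gpol c₁ s') (RingHom.id R) (IsLocalRing.residue R) l'
  rw [RingHom.comp_id] at h0
  rw [Polynomial.IsRoot.def, Polynomial.eval_map, ← h0] at hroot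
  have h1 : Polynomial.eval₂ (RingHom.id R) l' (gpol c₁ s') =
      ∑ i, ∑ j, c₁ i j * (if i = s' then 1 else l') * (if j = s' then 1 else l') := by
    simp only [gpol, rr, Polynomial.eval₂_finsetSum, Polynomial.eval₂_mul, Polynomial.eval₂_C,
      RingHom.id_apply]
    refine Finset.sum_congr rfl fun i _ => Finset.sum_congr rfl fun j _ => ?_
    split_ifs <;> simp
  rw [h1, ← hmem] at hroot
  have h2 := haniso (fun i => if i = s' then 1 else l') hroot s'
  exact hu (by simpa using h2)

end irr

section T2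

variable {R F : Type} [CommRing R] [IsDomain R] [IsDiscreteValuationRing R]
  [Field F] [Algebra R F]

/-- The generators of the ideal of the bad point. -/
noncomputable def alpha {d m : ℕ} (π : R) (c₁ : Fin d → Fin d → R) (t : Fin d ⊕ Fin m → F) :
    Idx m → F
  | none => ∑ i, ∑ j, algebraMap R F (c₁ i j) * t (Sum.inl i) * t (Sum.inl j)
  | some none => algebraMap R F π
  | some (some i) => t (Sum.inr i)

/-- Exceptional part: assembly. -/
theorem regular_exc (𝒪 : Subring F) (hloc : IsLoc 𝒪) (hR : ∀ r : R, algebraMap R F r ∈ 𝒪)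
    (π : R) (hπ : Irreducible π) {m : ℕ}
    (c₁ : Fin 2 → Fin 2 → R) (c₂ : Fin 2 → Fin m → R) (c₀ : Fin m → Fin m → R)
    (haniso : ∀ v : Fin 2 → R, π ∣ (∑ i, ∑ j, c₁ i j * v i * v j) → ∀ i, π ∣ v i)
    (hrad : Rad π c₀) (z : Fin 2 ⊕ Fin m → F) (hrel : Qval F π c₁ c₂ c₀ z = 0)
    (s' : Fin 2) (hs : z (Sum.inl s') ≠ 0) (hz : ∀ j, z j / z (Sum.inl s') ∈ 𝒪)
    (hne : Epol π c₁ c₂ c₀ (Sum.inl s') ≠ 0)
    (j₀ : {j : Fin 2 ⊕ Fin m // j ≠ Sum.inl s'})
    (hind : AlgebraicIndependent R
      (fun j : {j : {j : Fin 2 ⊕ Fin m // j ≠ Sum.inl s'} // j ≠ j₀} => z j / z (Sum.inl s')))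
    (k : Idx m) (hk : alpha π c₁ (fun j => z j / z (Sum.inl s')) k ≠ 0)
    (hkm : alpha π c₁ (fun j => z j / z (Sum.inl s')) k ∈ 𝒪)
    (hdiv : ∀ k', alpha π c₁ (fun j => z j / z (Sum.inl s')) k' /
      alpha π c₁ (fun j => z j / z (Sum.inl s')) k ∈ 𝒪)
    (hkU : ¬ U 𝒪 (alpha π c₁ (fun j => z j / z (Sum.inl s')) k))
    (f : F) (hfG : f ∈ Submodule.span R (Gset π c₁ z))
    (hfh : U 𝒪 (f / (z (Sum.inl s') ^ 3 * alpha π c₁ (fun j => z j / z (Sum.inl s')) k)))
    (hloc2 : IsLocOf 𝒪 (chart R (Submodule.span R (Gset π c₁ z)) f)) :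
    IsRegularLocalRing 𝒪 := by
  set t : Fin 2 ⊕ Fin m → F := fun j => z j / z (Sum.inl s') with ht
  set α : Idx m → F := alpha π c₁ t with hα
  have hts : t (Sum.inl s') = 1 := div_self hs
  have hzt : ∀ j, z j = z (Sum.inl s') * t j := by
    intro j
    simp only [ht]
    field_simp
  have hrelt : Qval F π c₁ c₂ c₀ t = 0 := by
    have h1 : t = fun j => (z (Sum.inl s'))⁻¹ * z j := by
      funext j; simp only [ht]; rw [div_eq_inv_mul]
    rw [h1, Qval_smul, hrel, mul_zero]
  -- the evaluation of coefficients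
  let eB : Polynomial R →ₐ[R] F := Polynomial.aeval (t (Sum.inl (s' + 1)))
  have heBr : ∀ j, eB (rr R s' j) = t (Sum.inl j) := by
    intro j
    unfold rr
    by_cases h : j = s'
    · rw [if_pos h, map_one, h, hts]
    · rw [if_neg h]
      have key : ∀ a b : Fin 2, ¬ b = a → b = a + 1 := by decide
      have h2 : j = s' + 1 := key s' j h
      rw [h2]
      exact Polynomial.aeval_X _
  let eW : MvPolynomial (Option {j : Idx m // j ≠ k}) (Polynomial R) →ₐ[R] F :=
    aevalTower eB (fun o => match o with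
      | none => α k
      | some j => α j / α k)
  have heC : ∀ p, eW (C p) = eB p := fun p => aevalTower_C _ _ p
  have heX0 : eW (X none) = α k := aevalTower_X _ _ _
  have heT : ∀ j, eW (tau2 k j) = α j / α k := by
    intro j
    unfold tau2
    by_cases h : j = k
    · rw [dif_pos h, map_one, h, div_self hk]
    · rw [dif_neg h]
      exact aevalTower_X _ _ _
  -- the coordinates
  let Y : Fin 2 ⊕ Fin m → MvPolynomial (Option {j : Idx m // j ≠ k}) (Polynomial R) := fun j =>
    Sum.elim (fun i => C (rr R s' i)) (fun i => X none * tau2 k (some (some i))) j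
  have hYl : ∀ i, Y (Sum.inl i) = C (rr R s' i) := fun i => rfl
  have hYr : ∀ i, Y (Sum.inr i) = X none * tau2 k (some (some i)) := fun i => rfl
  have heY : ∀ j, eW (Y j) = t j := by
    rintro (i | i)
    · rw [hYl, heC, heBr]
    · rw [hYr, map_mul, heX0, heT]
      have : α (some (some i)) = t (Sum.inr i) := rfl
      rw [this]
      field_simp
  have hYs : Y (Sum.inl s') = 1 := by
    rw [hYl, rr, if_pos rfl, map_one]
  have hW𝒪 : ∀ w, eW w ∈ 𝒪 := by
    intro w
    induction w using MvPolynomial.induction_on with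
    | C p =>
      rw [heC]
      induction p using Polynomial.induction_on' with
      | add p q hp hq => rw [map_add]; exact 𝒪.add_mem hp hq
      | monomial n r =>
        have h1 : eB (Polynomial.monomial n r) = algebraMap R F r * t (Sum.inl (s' + 1)) ^ n := by
          exact Polynomial.aeval_monomial _
        rw [h1]
        exact 𝒪.mul_mem (hR r) (𝒪.pow_mem (hz _) n)
    | add p q hp hq => rw [map_add]; exact 𝒪.add_mem hp hq
    | mul_X p j hp =>
      rw [map_mul]
      refine 𝒪.mul_mem hp ?_
      cases j with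
      | none => rw [heX0]; exact hkm
      | some j =>
        have h1 : eW (X (some j)) = α j / α k := aevalTower_X _ _ _
        rw [h1]
        exact hdiv _
  -- the relations
  let b : Fin m → Polynomial R := fun i => ∑ j, Polynomial.C (c₂ j i) * rr R s' j
  let E1 : MvPolynomial (Option {j : Idx m // j ≠ k}) (Polynomial R) :=
    C (Polynomial.C π) - X none * tau2 k (some none)
  let E2 : MvPolynomial (Option {j : Idx m // j ≠ k}) (Polynomial R) :=
    C (gpol c₁ s') - X none * tau2 k none
  let E3 : MvPolynomial (Option {j : Idx m // j ≠ k}) (Polynomial R) :=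
    tau2 k (some none) * (tau2 k none + ∑ i, C (b i) * tau2 k (some (some i))) +
      ∑ i, ∑ j, C (Polynomial.C (c₀ i j)) * tau2 k (some (some i)) * tau2 k (some (some j))
  let I : Ideal (MvPolynomial (Option {j : Idx m // j ≠ k}) (Polynomial R)) :=
    Ideal.span {E1, E2, E3}
  have hQY : Qval (MvPolynomial (Option {j : Idx m // j ≠ k}) (Polynomial R)) π c₁ c₂ c₀ Y =
      E1 * (C (gpol c₁ s') + X none * ∑ i, C (b i) * tau2 k (some (some i))) +
        E2 * (X none * tau2 k (some none)) + E3 * X none ^ 2 := by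
    have h1 : (∑ i, ∑ j, algebraMap R (MvPolynomial (Option {j : Idx m // j ≠ k}) (Polynomial R))
        (c₁ i j) * Y (Sum.inl i) * Y (Sum.inl j)) = C (gpol c₁ s') := by
      simp only [gpol, map_sum, map_mul, hYl]
      rfl
    have h2 : (∑ i, ∑ j, algebraMap R (MvPolynomial (Option {j : Idx m // j ≠ k}) (Polynomial R))
        (c₂ i j) * Y (Sum.inl i) * Y (Sum.inr j)) =
        X none * ∑ i, C (b i) * tau2 k (some (some i)) := by
      rw [Finset.sum_comm, Finset.mul_sum]
      refine Finset.sum_congr rfl fun i _ => ?_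
      simp only [b, map_sum, map_mul, hYl, hYr, Finset.sum_mul, Finset.mul_sum]
      refine Finset.sum_congr rfl fun j _ => ?_
      have h3 : algebraMap R (MvPolynomial (Option {j : Idx m // j ≠ k}) (Polynomial R))
        (c₂ j i) = C (Polynomial.C (c₂ j i)) := rfl
      rw [h3]
      ring
    have h3 : (∑ i, ∑ j, algebraMap R (MvPolynomial (Option {j : Idx m // j ≠ k}) (Polynomial R))
        (c₀ i j) * Y (Sum.inr i) * Y (Sum.inr j)) = X none ^ 2 *
        ∑ i, ∑ j, C (Polynomial.C (c₀ i j)) * tau2 k (some (some i)) * tau2 k (some (some j)) := by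
      simp only [Finset.mul_sum]
      refine Finset.sum_congr rfl fun i _ => Finset.sum_congr rfl fun j _ => ?_
      have h3 : algebraMap R (MvPolynomial (Option {j : Idx m // j ≠ k}) (Polynomial R))
        (c₀ i j) = C (Polynomial.C (c₀ i j)) := rfl
      rw [h3, hYr, hYr]
      ring
    have h4 : algebraMap R (MvPolynomial (Option {j : Idx m // j ≠ k}) (Polynomial R)) π =
      C (Polynomial.C π) := rfl
    unfold Qval
    rw [h1, h2, h3, h4]
    simp only [E1, E2, E3]
    ring
  have hαπ : α (some none) = algebraMap R F π := rfl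
  have hαg : α none = ∑ i, ∑ j, algebraMap R F (c₁ i j) * t (Sum.inl i) * t (Sum.inl j) := rfl
  have heCr : ∀ r : R, eB (Polynomial.C r) = algebraMap R F r := fun r => Polynomial.aeval_C _ r
  have heg : eB (gpol c₁ s') = α none := by
    rw [hαg]
    simp only [gpol, map_sum, map_mul, heCr, heBr]
  have he1 : eW E1 = 0 := by
    simp only [E1]
    rw [map_sub, map_mul, heC, heCr, heX0, heT, hαπ]
    field_simp
    ring
  have he2 : eW E2 = 0 := by
    simp only [E2]
    rw [map_sub, map_mul, heC, heg, heX0, heT]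
    field_simp
    ring
  have he3 : eW E3 = 0 := by
    have h1 : eW (Qval (MvPolynomial (Option {j : Idx m // j ≠ k}) (Polynomial R)) π c₁ c₂ c₀ Y)
        = 0 := by
      rw [Qval_map]
      rw [show (fun j => eW (Y j)) = t from funext heY]
      exact hrelt
    rw [hQY] at h1
    simp only [map_add, map_mul, map_pow, he1, he2, heX0, zero_mul, zero_add] at h1
    exact (mul_eq_zero.1 h1).resolve_right (pow_ne_zero 2 hk)
  have hI : ∀ w ∈ I, eW w = 0 := by
    have h1 : I ≤ RingHom.ker (eW : _ →+* F) := by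
      rw [Ideal.span_le]
      intro x hx
      simp only [Set.mem_insert_iff, Set.mem_singleton_iff] at hx
      rcases hx with rfl | rfl | rfl
      · exact he1
      · exact he2
      · exact he3
    intro w hw
    exact h1 hw
  have hG : ∀ g ∈ Gset π c₁ z, ∃ w, g = (z (Sum.inl s') ^ 3 * α k) * eW w := by
    rintro g ⟨j, b, hb, rfl⟩
    have hb' : ∃ w, b = (z (Sum.inl s') ^ 2 * α k) * eW w := by
      rcases hb with ⟨i, j, rfl⟩ | ⟨i, j, rfl⟩ | rfl
      · refine ⟨tau2 k (some none) * Y i * Y j, ?_⟩
        rw [map_mul, map_mul, heT, heY, heY, hαπ, hzt i, hzt j]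
        field_simp
      · refine ⟨tau2 k (some (some i)) * Y j, ?_⟩
        have h1 : α (some (some i)) = t (Sum.inr i) := rfl
        rw [map_mul, heT, heY, h1, hzt (Sum.inr i), hzt j]
        field_simp
      · refine ⟨tau2 k none, ?_⟩
        rw [heT, hαg]
        have h1 : z (Sum.inl s') ^ 2 * α k * ((∑ i, ∑ j, algebraMap R F (c₁ i j) * t (Sum.inl i) *
          t (Sum.inl j)) / α k) = z (Sum.inl s') ^ 2 * (∑ i, ∑ j, algebraMap R F (c₁ i j) *
          t (Sum.inl i) * t (Sum.inl j)) := by
          field_simp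
        rw [h1]
        simp only [Finset.mul_sum]
        refine Finset.sum_congr rfl fun i _ => Finset.sum_congr rfl fun j _ => ?_
        rw [hzt (Sum.inl i), hzt (Sum.inl j)]
        ring
    obtain ⟨w, rfl⟩ := hb'
    refine ⟨Y j * w, ?_⟩
    rw [map_mul, heY, hzt j]
    ring
  have hfrac := frac_of_chart eW hW𝒪 (Gset π c₁ z) f (z (Sum.inl s') ^ 3 * α k)
    (mul_ne_zero (pow_ne_zero 3 hs) hk) hG hfG hfh hloc2
  obtain ⟨A, _, _, pr, hpr, hprk, hpr0⟩ := exists_quot (R := R) I
  refine regular_of_pres 𝒪 hloc pr hpr eW ?_ hW𝒪 hfrac ?_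
    (fun j : {j : Fin 2 ⊕ Fin m // j ≠ Sum.inl s'} => Y j)
    (Epol π c₁ c₂ c₀ (Sum.inl s')) hne ?_ j₀ ?_ ?_
  · intro w hw
    exact hI w ((hpr0 w).1 hw)
  · intro q hq hqm
    refine regular_T2 π hπ (gpol c₁ s') (irr_gpol π hπ c₁ haniso s') b c₀ hrad k
      (pr : _ →+* A) hpr hprk q ?_
    have h1 := hqm (X none)
    rw [heX0] at h1
    exact h1.2 hkU
  · rw [aeval_Epol (R := R) π c₁ c₂ c₀ (Sum.inl s') Y hYs, hQY, hpr0]
    refine I.add_mem (I.add_mem ?_ ?_) ?_
    · exact I.mul_mem_right _ (Ideal.subset_span (by simp))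
    · exact I.mul_mem_right _ (Ideal.subset_span (by simp))
    · exact I.mul_mem_right _ (Ideal.subset_span (by simp))
  · convert hind using 2 with j
    exact heY _
  · have hpe : ∀ a b, pr a = pr b → eW a = eW b := by
      intro a b hab
      have h1 : a - b ∈ I := by rw [← hpr0, map_sub, hab, sub_self]
      have h2 := hI _ h1
      rw [map_sub] at h2
      exact sub_eq_zero.1 h2
    let y : {j : Fin 2 ⊕ Fin m // j ≠ Sum.inl s'} →
      MvPolynomial (Option {j : Idx m // j ≠ k}) (Polynomial R) := fun j => Y j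
    have hsub : ∃ S : Subalgebra R A, ∀ w, pr w ∈ S ↔
        ∃ p : MvPolynomial {j : Fin 2 ⊕ Fin m // j ≠ Sum.inl s'} R, pr w = pr (aeval y p) := by
      refine ⟨(pr.comp (aeval y)).range, fun w => ?_⟩
      rw [AlgHom.mem_range]
      constructor
      · rintro ⟨p, hp⟩
        exact ⟨p, hp.symm⟩
      · rintro ⟨p, hp⟩
        exact ⟨p, hp.symm⟩
    obtain ⟨S, hS⟩ := hsub
    have hSX : pr (C Polynomial.X) ∈ S := by
      rw [hS]
      have key : ∀ a : Fin 2, ¬ a + 1 = a := by decide
      refine ⟨X ⟨Sum.inl (s' + 1), by simp⟩, ?_⟩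
      rw [aeval_X]
      have h1 : Y (Sum.inl (s' + 1)) = C Polynomial.X := by
        rw [hYl, rr, if_neg (key s')]
      rw [← h1]
    have hSC : ∀ p, pr (C p) ∈ S := by
      intro p
      induction p using Polynomial.induction_on' with
      | add p q hp hq => rw [C_add, map_add]; exact S.add_mem hp hq
      | monomial n r =>
        have h1 : (C (Polynomial.monomial n r) :
            MvPolynomial (Option {j : Idx m // j ≠ k}) (Polynomial R)) =
            algebraMap R _ r * (C Polynomial.X) ^ n := by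
          rw [← Polynomial.C_mul_X_pow_eq_monomial, C_mul, C_pow]
          rfl
        rw [h1, map_mul, map_pow, AlgHom.commutes]
        exact S.mul_mem (S.algebraMap_mem r) (S.pow_mem hSX n)
    have hST : ∀ j, pr (X none * tau2 k j) ∈ S := by
      rintro (_ | _ | i)
      · have h1 : pr (X none * tau2 k none) = pr (C (gpol c₁ s')) := by
          have h2 : pr E2 = 0 := (hpr0 _).2 (Ideal.subset_span (by simp))
          simp only [E2] at h2
          rw [map_sub] at h2
          exact (sub_eq_zero.1 h2).symm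
        rw [h1]
        exact hSC _
      · have h1 : pr (X none * tau2 k (some none)) = pr (C (Polynomial.C π)) := by
          have h2 : pr E1 = 0 := (hpr0 _).2 (Ideal.subset_span (by simp))
          simp only [E1] at h2
          rw [map_sub] at h2
          exact (sub_eq_zero.1 h2).symm
        rw [h1]
        exact hSC _
      · rw [hS]
        refine ⟨X ⟨Sum.inr i, by simp⟩, ?_⟩
        rw [aeval_X]
        rfl
    have hSσ : pr (X none) ∈ S := by
      have h1 := hST k
      have h2 : tau2 (B := Polynomial R) k k = 1 := by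
        unfold tau2
        rw [dif_pos rfl]
      rw [h2, mul_one] at h1
      exact h1
    intro w
    induction w using MvPolynomial.induction_on with
    | C p =>
      obtain ⟨p₁, hp₁⟩ := (hS _).1 (hSC p)
      exact ⟨p₁, 1, by simp, by rw [map_one, one_mul]; exact hp₁⟩
    | add a b ha hb =>
      obtain ⟨p, p', h1, h2⟩ := ha
      obtain ⟨r, r', h3, h4⟩ := hb
      refine ⟨p * r' + p' * r, p' * r', ?_, ?_⟩
      · rw [map_mul, map_mul]; exact mul_ne_zero h1 h3
      · simp only [map_add, map_mul] at h2 h4 ⊢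
        linear_combination pr (aeval y r') * h2 + pr (aeval y p') * h4
    | mul_X a o ha =>
      obtain ⟨p, p', h1, h2⟩ := ha
      have hX : ∃ r r' : MvPolynomial {j : Fin 2 ⊕ Fin m // j ≠ Sum.inl s'} R,
          eW (aeval y r') ≠ 0 ∧ pr (aeval y r' * X o) = pr (aeval y r) := by
        cases o with
        | none =>
          obtain ⟨p₁, hp₁⟩ := (hS _).1 hSσ
          exact ⟨p₁, 1, by simp, by rw [map_one, one_mul]; exact hp₁⟩
        | some j =>
          obtain ⟨p₁, hp₁⟩ := (hS _).1 hSσ
          obtain ⟨p₂, hp₂⟩ := (hS _).1 (hST j)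
          refine ⟨p₂, p₁, ?_, ?_⟩
          · rw [← hpe _ _ hp₁, heX0]
            exact hk
          · rw [← hp₂, map_mul, map_mul, ← hp₁]
            congr 2
            unfold tau2
            rw [dif_neg j.2]
      obtain ⟨r, r', h3, h4⟩ := hX
      refine ⟨p * r, p' * r', ?_, ?_⟩
      · rw [map_mul, map_mul]; exact mul_ne_zero h1 h3
      · simp only [map_mul] at h2 h4 ⊢
        linear_combination pr (aeval y r') * pr (X o) * h2 + pr (aeval y p) * h4

end T2

end Pool.Agent.H918R2.Quad
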