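import Pool.Agent.H918R2.Quad.Bad2

/-! Local rings of the model of a quadric at bad primes. -/

set_option autoImplicit false

namespace Pool.Agent.H918R2.Quad

open MvPolynomial

theorem regular_bad {R F : Type} [CommRing R] [IsDomain R] [IsDiscreteValuationRing R]
    [Field F] [Algebra R F] (𝒪 : Subring F) (hloc : IsLoc 𝒪)
    (hR : ∀ r : R, algebraMap R F r ∈ 𝒪)
    (π : R) (hπ : Irreducible π) (hπ𝒪 : ¬ U 𝒪 (algebraMap R F π)) {d m : ℕ} (hd : d ≤ 2)
    (c₁ : Fin d → Fin d → R) (c₂ : Fin d → Fin m → R) (c₀ : Fin m → Fin m → R)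
    (haniso : ∀ v : Fin d → R, π ∣ (∑ i, ∑ j, c₁ i j * v i * v j) → ∀ i, π ∣ v i)
    (hrad : Rad π c₀) (z : Fin d ⊕ Fin m → F) (hrel : Qval F π c₁ c₂ c₀ z = 0)
    (hne : ∀ s, Epol π c₁ c₂ c₀ s ≠ 0)
    (hind : ∀ s, z s ≠ 0 → ∃ j₀ : {j : Fin d ⊕ Fin m // j ≠ s}, AlgebraicIndependent R
      (fun j : {j : {j : Fin d ⊕ Fin m // j ≠ s} // j ≠ j₀} => z j / z s))
    (f : F) (hf : f ≠ 0) (hfG : f ∈ Submodule.span R (Gset π c₁ z))
    (hG : ∀ g ∈ Gset π c₁ z, g / f ∈ 𝒪)
    (hloc2 : IsLocOf 𝒪 (chart R (Submodule.span R (Gset π c₁ z)) f)) :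
    IsRegularLocalRing 𝒪 := by
  obtain ⟨g, ⟨s, b, hb, rfl⟩, hU⟩ := exists_U_gen hloc hR _ f hf hG hfG
  have hsb : z s * b ≠ 0 := by
    intro h
    rw [h, zero_div] at hU
    exact not_U_zero hU
  have hs : z s ≠ 0 := left_ne_zero_of_mul hsb
  have hb0 : b ≠ 0 := right_ne_zero_of_mul hsb
  obtain ⟨j₀, hj₀⟩ := hind s hs
  have hz : ∀ j, z j / z s ∈ 𝒪 := by
    intro j
    have h1 : z j * b / f ∈ 𝒪 := hG _ ⟨j, b, hb, rfl⟩
    have h2 : z j / z s = (z j * b / f) * (z s * b / f)⁻¹ := by field_simp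
    rw [h2]
    exact 𝒪.mul_mem h1 hU.2.2
  have hbT : ∀ b' ∈ Tset π c₁ z, b' / b ∈ 𝒪 := by
    intro b' hb'
    have h1 : z s * b' / f ∈ 𝒪 := hG _ ⟨s, b', hb', rfl⟩
    have h2 : b' / b = (z s * b' / f) * (z s * b / f)⁻¹ := by field_simp
    rw [h2]
    exact 𝒪.mul_mem h1 hU.2.2
  set t : Fin d ⊕ Fin m → F := fun j => z j / z s with ht
  have htj : ∀ j, t j = z j / z s := fun j => rfl
  have hts : t s = 1 := div_self hs
  set α : Idx m → F := alpha π c₁ t with hα
  have hαn : α none = ∑ i, ∑ j, algebraMap R F (c₁ i j) * t (Sum.inl i) * t (Sum.inl j) := rfl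
  have hαp : α (some none) = algebraMap R F π := rfl
  have hαi : ∀ i, α (some (some i)) = t (Sum.inr i) := fun i => rfl
  have hzt : ∀ j, z j = z s * t j := by
    intro j
    simp only [ht]
    field_simp
  have hg : ∑ i, ∑ j, algebraMap R F (c₁ i j) * z (Sum.inl i) * z (Sum.inl j) =
      z s ^ 2 * α none := by
    rw [hαn]
    simp only [Finset.mul_sum]
    refine Finset.sum_congr rfl fun i _ => Finset.sum_congr rfl fun j _ => ?_
    rw [hzt (Sum.inl i), hzt (Sum.inl j)]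
    ring
  have hαT : ∀ k', z s ^ 2 * α k' ∈ Tset π c₁ z := by
    rintro (_ | _ | i)
    · right; right
      exact hg.symm
    · left
      exact ⟨s, s, by rw [hαp]; ring⟩
    · right; left
      refine ⟨i, s, ?_⟩
      rw [hαi, hzt (Sum.inr i)]
      ring
  have hαm : ∀ k', α k' ∈ 𝒪 := by
    rintro (_ | _ | i)
    · rw [hαn]
      refine 𝒪.sum_mem fun i _ => 𝒪.sum_mem fun j _ => ?_
      exact 𝒪.mul_mem (𝒪.mul_mem (hR _) (hz _)) (hz _)
    · exact hR π
    · exact hz _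
  have hbα : ∃ k, ∃ c ∈ 𝒪, b = z s ^ 2 * α k * c := by
    rcases hb with ⟨i, j, rfl⟩ | ⟨i, j, rfl⟩ | rfl
    · refine ⟨some none, t i * t j, 𝒪.mul_mem (hz i) (hz j), ?_⟩
      rw [hαp, hzt i, hzt j]
      ring
    · refine ⟨some (some i), t j, hz j, ?_⟩
      rw [hαi, hzt (Sum.inr i), hzt j]
      ring
    · refine ⟨none, 1, 𝒪.one_mem, ?_⟩
      rw [hg]
      ring
  obtain ⟨k, c, hc, hbk⟩ := hbα
  have hk0 : α k ≠ 0 := by
    intro h
    rw [h] at hbk
    exact hb0 (by rw [hbk]; ring)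
  have hUk : U 𝒪 (z s ^ 2 * α k / b) := by
    refine U.of_mul_left (hbT _ (hαT k)) hc ?_
    have h1 : z s ^ 2 * α k / b * c = 1 := by
      rw [div_mul_eq_mul_div, ← hbk, div_self hb0]
    rw [h1]
    exact U_one
  have hUf : U 𝒪 (f / (z s ^ 3 * α k)) := by
    have h1 : f / (z s ^ 3 * α k) = (z s * b / f)⁻¹ * (z s ^ 2 * α k / b)⁻¹ := by field_simp
    rw [h1]
    exact hU.inv.mul hUk.inv
  have hdiv : ∀ k', α k' / α k ∈ 𝒪 := by
    intro k'
    have h1 : α k' / α k = (z s ^ 2 * α k' / b) * (z s ^ 2 * α k / b)⁻¹ := by field_simp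
    rw [h1]
    exact 𝒪.mul_mem (hbT _ (hαT k')) hUk.2.2
  by_cases hkU : U 𝒪 (α k)
  · refine regular_open 𝒪 hloc hR π hπ hπ𝒪 c₁ c₂ c₀ hrad z hrel s hs hz (hne s) j₀ hj₀ f hfG ?_
      hloc2 ?_
    · have h1 : f / z s ^ 3 = f / (z s ^ 3 * α k) * α k := by field_simp
      rw [h1]
      exact hUf.mul hkU
    · rcases k with _ | _ | i
      · right
        exact hkU
      · exact absurd hkU hπ𝒪
      · left
        exact ⟨i, hkU⟩
  · -- all of the `α` are nonunits
    have hall : ∀ k', ¬ U 𝒪 (α k') := by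
      intro k' hk'
      apply hkU
      have h1 : α k' = α k * (α k' / α k) := by field_simp
      rw [h1] at hk'
      exact hk'.of_mul_left (hαm k) (hdiv k')
    rcases s with s' | i
    · obtain rfl | rfl | rfl : d = 0 ∨ d = 1 ∨ d = 2 := by omega
      · exact s'.elim0
      · exfalso
        apply hall none
        have hs' : s' = 0 := Subsingleton.elim _ _
        subst hs'
        have h1 : α none = algebraMap R F (c₁ 0 0) := by
          rw [hαn]
          simp [hts]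
        rw [h1]
        have h2 : ¬ π ∣ c₁ 0 0 := by
          intro h
          have h3 := haniso (fun _ => 1) (by simpa using h) 0
          exact hπ.not_isUnit (isUnit_of_dvd_one h3)
        have h3 : IsUnit (c₁ 0 0) := by
          by_contra hnu
          apply h2
          have h4 : c₁ 0 0 ∈ IsLocalRing.maximalIdeal R := hnu
          rwa [hπ.maximalIdeal_eq, Ideal.mem_span_singleton] at h4
        obtain ⟨u, hu⟩ := h3
        rw [← hu]
        refine ⟨?_, hR _, ?_⟩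
        · exact (u.isUnit.map (algebraMap R F)).ne_zero
        · have h5 : (algebraMap R F (u : R))⁻¹ = algebraMap R F ((u⁻¹ : Rˣ) : R) := by
            apply inv_eq_of_mul_eq_one_right
            rw [← map_mul]
            simp
          rw [h5]
          exact hR _
      · exact regular_exc 𝒪 hloc hR π hπ c₁ c₂ c₀ haniso hrad z hrel s' hs hz (hne _) j₀ hj₀ k
          hk0 (hαm k) hdiv hkU f hfG hUf hloc2
    · exfalso
      apply hall (some (some i))
      rw [hαi, hts]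
      exact U_one

end Pool.Agent.H918R2.Quad
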