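import Mathlib

/-! Task P4 of helper918 (MP_4d1008_ag): the function field of an irreducible polynomial of degree
at most two. -/

set_option autoImplicit false

namespace Pool.Agent.H918R2.Quad

open MvPolynomial

namespace DegTwo

/-- homogenising variables -/
noncomputable def Xt (K : Type) [Field K] (N : ℕ) : Fin (N + 1) → MvPolynomial (Fin N) K :=
  Fin.cons 1 X

theorem Xt_zero (K : Type) [Field K] (N : ℕ) : Xt K N 0 = 1 := rfl

theorem Xt_succ (K : Type) [Field K] (N : ℕ) (i : Fin N) : Xt K N i.succ = X i := rfl

/-- `p` is a quadratic form in the homogenising variables -/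
def IsQ {K : Type} [Field K] {N : ℕ} (p : MvPolynomial (Fin N) K) : Prop :=
  ∃ c : Fin (N + 1) → Fin (N + 1) → K, p = ∑ i, ∑ j, C (c i j) * Xt K N i * Xt K N j

theorem isQ_zero {K : Type} [Field K] {N : ℕ} : IsQ (0 : MvPolynomial (Fin N) K) :=
  ⟨fun _ _ => 0, by simp⟩

theorem isQ_add {K : Type} [Field K] {N : ℕ} {p q : MvPolynomial (Fin N) K} (hp : IsQ p)
    (hq : IsQ q) : IsQ (p + q) := by
  obtain ⟨c, rfl⟩ := hp
  obtain ⟨d, rfl⟩ := hq
  refine ⟨fun i j => c i j + d i j, ?_⟩
  rw [← Finset.sum_add_distrib]
  apply Finset.sum_congr rfl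
  intro i _
  rw [← Finset.sum_add_distrib]
  apply Finset.sum_congr rfl
  intro j _
  rw [C_add]
  ring

theorem isQ_term {K : Type} [Field K] {N : ℕ} (a : K) (i j : Fin (N + 1)) :
    IsQ (C a * Xt K N i * Xt K N j) := by
  classical
  refine ⟨fun i' j' => if i' = i ∧ j' = j then a else 0, ?_⟩
  rw [Finset.sum_eq_single i, Finset.sum_eq_single j]
  · simp
  · intro j' _ hj'
    simp [hj']
  · intro h
    exact absurd (Finset.mem_univ _) h
  · intro i' _ hi'
    apply Finset.sum_eq_zero
    intro j' _
    simp [hi']
  · intro h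
    exact absurd (Finset.mem_univ _) h

theorem isQ_of_deg {K : Type} [Field K] {N : ℕ} (f : MvPolynomial (Fin N) K)
    (hf : f.totalDegree ≤ 2) : IsQ f := by
  classical
  rw [f.as_sum]
  have key : ∀ s ∈ f.support, IsQ (monomial s (coeff s f)) := by
    intro s hs
    have h1 : Multiset.card (Finsupp.toMultiset s) ≤ 2 := by
      have h2 := le_totalDegree hs
      rw [Finsupp.card_toMultiset]
      exact h2.trans hf
    set a := coeff s f with ha
    have h3 : s = Multiset.toFinsupp (Finsupp.toMultiset s) := by simp
    rcases Nat.lt_or_ge (Multiset.card (Finsupp.toMultiset s)) 1 with h4 | h4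
    · have h5 : Finsupp.toMultiset s = 0 := Multiset.card_eq_zero.mp (by omega)
      rw [h5, map_zero] at h3
      rw [h3]
      have h6 := isQ_term (N := N) a 0 0
      rw [Xt_zero, mul_one, mul_one] at h6
      exact h6
    · rcases Nat.lt_or_ge (Multiset.card (Finsupp.toMultiset s)) 2 with h5 | h5
      · obtain ⟨i, hi⟩ := Multiset.card_eq_one.mp (show Multiset.card (Finsupp.toMultiset s) = 1
          by omega)
        rw [hi, Multiset.toFinsupp_singleton] at h3
        have h6 := isQ_term (N := N) a 0 i.succ
        rw [Xt_zero, mul_one, Xt_succ] at h6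
        rw [h3]
        have h7 : C a * X i = monomial (Finsupp.single i 1) a := by
          rw [C_mul_X_eq_monomial]
        rwa [h7] at h6
      · obtain ⟨i, j, hij⟩ := Multiset.card_eq_two.mp
          (show Multiset.card (Finsupp.toMultiset s) = 2 by omega)
        have h6 : s = Finsupp.single i 1 + Finsupp.single j 1 := by
          rw [h3, hij]
          rw [show ({i, j} : Multiset (Fin N)) = {i} + {j} from rfl, map_add,
            Multiset.toFinsupp_singleton, Multiset.toFinsupp_singleton]
        have h7 := isQ_term (N := N) a i.succ j.succ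
        rw [Xt_succ, Xt_succ] at h7
        rw [h6]
        have h8 : C a * X i * X j = monomial (Finsupp.single i 1 + Finsupp.single j 1) a := by
          rw [C_mul_X_eq_monomial, X, monomial_mul, mul_one]
        rwa [h8] at h7
  have hsum : ∀ S : Finset (Fin N →₀ ℕ), (∀ s ∈ S, IsQ (monomial s (coeff s f))) →
      IsQ (∑ s ∈ S, monomial s (coeff s f)) := by
    intro S
    induction S using Finset.induction_on with
    | empty => intro _; simpa using isQ_zero
    | insert s S hs ih =>
      intro h
      rw [Finset.sum_insert hs]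
      exact isQ_add (h s (Finset.mem_insert_self _ _))
        (ih fun t ht => h t (Finset.mem_insert_of_mem ht))
  exact hsum _ key

end DegTwo

open DegTwo in
/-- TASK P4. Generators, relation and transcendence degree for an irreducible polynomial of degree
at most two. -/
theorem degree_two_field {K F : Type} [Field K] [CharZero K] [Field F] (N : ℕ)
    (f : MvPolynomial (Fin N) K) (hf : Irreducible f) (hdeg : f.totalDegree ≤ 2)
    (e : F ≃+* FractionRing (MvPolynomial (Fin N) K ⧸ Ideal.span {f})) :
    ∃ (_ : Algebra K F) (x : Fin (N + 1) → F) (c : Fin (N + 1) → Fin (N + 1) → K), x 0 = 1 ∧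
      IntermediateField.adjoin K (Set.range x) = ⊤ ∧ (N : Cardinal) ≤ Algebra.trdeg K F + 1 ∧
      (∃ v : Fin (N + 1) → K, ∑ i, ∑ j, c i j * v i * v j ≠ 0) ∧
      ∑ i, ∑ j, algebraMap K F (c i j) * x i * x j = 0 := by
  classical
  set I : Ideal (MvPolynomial (Fin N) K) := Ideal.span {f} with hI
  have hf0 : f ≠ 0 := hf.ne_zero
  have hprime : Prime f := hf.prime
  have hIp : I.IsPrime := (Ideal.span_singleton_prime hf0).mpr hprime
  let A := MvPolynomial (Fin N) K ⧸ I
  have hdom : IsDomain A := Ideal.Quotient.isDomain I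
  let φ : MvPolynomial (Fin N) K →+* F :=
    (e.symm : FractionRing A →+* F).comp
      ((algebraMap A (FractionRing A)).comp (Ideal.Quotient.mk I))
  have hinj : Function.Injective (algebraMap A (FractionRing A)) :=
    IsLocalization.injective (FractionRing A) (le_refl (nonZeroDivisors A))
  have hker : ∀ p, φ p = 0 → f ∣ p := by
    intro p hp
    have h1 : algebraMap A (FractionRing A) (Ideal.Quotient.mk I p) = 0 := by
      have : e.symm (algebraMap A (FractionRing A) (Ideal.Quotient.mk I p)) = 0 := hp
      exact (map_eq_zero_iff e.symm e.symm.injective).1 this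
    have h2 : Ideal.Quotient.mk I p = 0 := hinj (by rw [h1, map_zero])
    rw [Ideal.Quotient.eq_zero_iff_mem, hI, Ideal.mem_span_singleton] at h2
    exact h2
  have hφf : φ f = 0 := by
    have : Ideal.Quotient.mk I f = 0 := by
      rw [Ideal.Quotient.eq_zero_iff_mem, hI, Ideal.mem_span_singleton]
    simp [φ, this]
  let alg : Algebra K F := (φ.comp C).toAlgebra
  have halg : ∀ c : K, algebraMap K F c = φ (C c) := fun c => rfl
  let x : Fin (N + 1) → F := Fin.cons 1 (fun i => φ (X i))
  have hx0 : x 0 = 1 := rfl
  have hxs : ∀ i : Fin N, x i.succ = φ (X i) := fun i => rfl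
  have hxX : ∀ i : Fin (N + 1), x i = φ (Xt K N i) := by
    intro i
    refine Fin.cases ?_ (fun i => ?_) i
    · rw [hx0, Xt_zero, map_one]
    · rw [hxs, Xt_succ]
  have hfrac : ∀ y : F, ∃ p s, φ s ≠ 0 ∧ y = φ p / φ s := by
    intro y
    obtain ⟨u, v, hv, huv⟩ : ∃ (u v : A), v ∈ nonZeroDivisors A ∧
        e y * algebraMap A (FractionRing A) v = algebraMap A (FractionRing A) u := by
      obtain ⟨⟨u, v⟩, h⟩ := IsLocalization.surj (nonZeroDivisors A) (e y)
      exact ⟨u, v, v.2, h⟩
    obtain ⟨p, rfl⟩ := Ideal.Quotient.mk_surjective u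
    obtain ⟨s, rfl⟩ := Ideal.Quotient.mk_surjective v
    have hs : φ s ≠ 0 := by
      intro h
      have h1 : algebraMap A (FractionRing A) (Ideal.Quotient.mk I s) = 0 := by
        have : e.symm (algebraMap A (FractionRing A) (Ideal.Quotient.mk I s)) = 0 := h
        exact (map_eq_zero_iff e.symm e.symm.injective).1 this
      have h2 : Ideal.Quotient.mk I s = 0 := hinj (by rw [h1, map_zero])
      rw [h2] at hv
      exact zero_notMem_nonZeroDivisors hv
    refine ⟨p, s, hs, ?_⟩
    rw [eq_div_iff hs]
    apply e.injective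
    rw [map_mul]
    have h3 : e (φ s) = algebraMap A (FractionRing A) (Ideal.Quotient.mk I s) :=
      e.apply_symm_apply _
    have h4 : e (φ p) = algebraMap A (FractionRing A) (Ideal.Quotient.mk I p) :=
      e.apply_symm_apply _
    rw [h3, h4]
    exact huv
  have hmem : ∀ (L : IntermediateField K F), (∀ i, φ (X i) ∈ L) → ∀ p, φ p ∈ L := by
    intro L hL p
    induction p using MvPolynomial.induction_on with
    | C c => rw [← halg]; exact L.algebraMap_mem c
    | add p q hp hq => rw [map_add]; exact L.add_mem hp hq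
    | mul_X p i hp => rw [map_mul]; exact L.mul_mem hp (hL i)
  have hgen : IntermediateField.adjoin K (Set.range x) = ⊤ := by
    rw [eq_top_iff]
    intro y _
    obtain ⟨p, s, hs, rfl⟩ := hfrac y
    have hL : ∀ i, φ (X i) ∈ IntermediateField.adjoin K (Set.range x) := fun i =>
      IntermediateField.subset_adjoin K _ ⟨i.succ, rfl⟩
    exact IntermediateField.div_mem _ (hmem _ hL p) (hmem _ hL s)
  obtain ⟨c, hc⟩ := isQ_of_deg f hdeg
  -- a variable occurring in f
  obtain ⟨j, hj⟩ : ∃ j, degreeOf j f ≠ 0 := by
    by_contra hno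
    push Not at hno
    have h1 : f.degrees = 0 := by
      rw [Multiset.eq_zero_iff_forall_notMem]
      intro j hjm
      have h2 := hno j
      rw [degreeOf_def, Multiset.count_eq_zero] at h2
      exact h2 hjm
    have h2 : f.totalDegree = 0 := by
      have := totalDegree_le_degrees_card f
      rw [h1, Multiset.card_zero] at this
      omega
    rw [totalDegree_eq_zero_iff_eq_C] at h2
    have h3 : coeff 0 f ≠ 0 := by
      intro h4
      rw [h4, C_0] at h2
      exact hf0 h2
    apply hf.not_isUnit
    rw [h2]
    exact (isUnit_iff_ne_zero.mpr h3).map C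
  set x' : {i : Fin N // i ≠ j} → F := fun i => φ (X i.1) with hx'
  have hind : AlgebraicIndependent K x' := by
    rw [algebraicIndependent_iff]
    intro p hp
    have h1 : aeval x' p = φ (rename Subtype.val p) := by
      have : (aeval x' : MvPolynomial {i : Fin N // i ≠ j} K →ₐ[K] F).toRingHom =
          φ.comp (rename Subtype.val : MvPolynomial {i : Fin N // i ≠ j} K →ₐ[K] _).toRingHom := by
        apply MvPolynomial.ringHom_ext
        · intro c; simp [halg]
        · intro i; simp [hx']
      exact RingHom.congr_fun this p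
    rw [h1] at hp
    obtain ⟨r, hr⟩ := hker _ hp
    by_contra hp0
    have hrp : rename Subtype.val p ≠ (0 : MvPolynomial (Fin N) K) := by
      intro h
      exact hp0 (rename_injective _ Subtype.val_injective (by rw [h, map_zero]))
    have hr0 : r ≠ 0 := by
      rintro rfl
      exact hrp (by rw [hr, mul_zero])
    have hd := degreeOf_mul_eq (n := j) hf0 hr0
    rw [← hr] at hd
    have h0 : degreeOf j (rename Subtype.val p : MvPolynomial (Fin N) K) = 0 := by
      rw [degreeOf_def, Multiset.count_eq_zero]
      intro hjm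
      have h2 : j ∈ (rename Subtype.val p : MvPolynomial (Fin N) K).vars := by
        rw [vars_def]
        exact Multiset.mem_toFinset.mpr hjm
      have h3 := vars_rename (Subtype.val : {i : Fin N // i ≠ j} → Fin N) p h2
      rw [Finset.mem_image] at h3
      obtain ⟨i, _, hi⟩ := h3
      exact i.2 hi
    omega
  refine ⟨alg, x, c, hx0, hgen, ?_, ?_, ?_⟩
  · have h1 := hind.cardinalMk_le_trdeg
    have h2 : (N : Cardinal) = Cardinal.mk {i : Fin N // i ≠ j} + 1 := by
      rw [Cardinal.mk_fintype, Fintype.card_subtype_compl, Fintype.card_fin,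
        Fintype.card_subtype_eq]
      have hN : 1 ≤ N := by
        have := j.2
        omega
      have : N = (N - 1) + 1 := by omega
      conv_lhs => rw [this]
      push_cast
      rfl
    rw [h2]
    gcongr
  · obtain ⟨a, ha⟩ : ∃ a : Fin N → K, eval a f ≠ 0 := by
      by_contra hno
      push Not at hno
      exact hf0 (MvPolynomial.funext fun a => by rw [hno a, map_zero])
    refine ⟨Fin.cons 1 a, ?_⟩
    have h1 : ∀ i : Fin (N + 1), eval a (Xt K N i) = (Fin.cons 1 a : Fin (N + 1) → K) i := by
      intro i
      refine Fin.cases ?_ (fun i => ?_) i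
      · rw [Xt_zero, map_one]; rfl
      · rw [Xt_succ, eval_X]; rfl
    have h2 : eval a f = ∑ i, ∑ j, c i j * (Fin.cons 1 a : Fin (N + 1) → K) i *
        (Fin.cons 1 a : Fin (N + 1) → K) j := by
      conv_lhs => rw [hc]
      simp only [map_sum, map_mul, eval_C, h1]
    rw [← h2]
    exact ha
  · have h1 : φ f = ∑ i, ∑ j, algebraMap K F (c i j) * x i * x j := by
      conv_lhs => rw [hc]
      simp only [map_sum, map_mul, halg, hxX]
    rw [← h1, hφf]

end Pool.Agent.H918R2.Quad
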