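import Pool.Agent.H918R2.Quad.Defs

/-! Fields with a good module. -/

set_option autoImplicit false

namespace Pool.Agent.H918R2.Quad

/-- `F` has a finitely generated `O`-submodule all of whose charts are regular with fraction
field `F`. -/
def HasModule (O F : Type) [CommRing O] [Field F] [Algebra O F] : Prop :=
  ∃ M : Submodule O F, M.FG ∧ (∃ f ∈ M, f ≠ 0) ∧
    (∀ f ∈ M, f ≠ 0 → ∀ y : F, ∃ b ∈ chart O M f, ∃ c ∈ chart O M f, c ≠ 0 ∧ y = b / c) ∧
    ∀ f ∈ M, f ≠ 0 → ∀ (q : Ideal (chart O M f)) [q.IsPrime],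
      IsRegularLocalRing (Localization.AtPrime q)

end Pool.Agent.H918R2.Quad
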