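import Pool.Agent.H918R2.Quad.Global
import Pool.Agent.H918R2.Quad.HasModule

/-! Function fields of quadrics over number fields have regular models proper over `ℤ`. -/

set_option autoImplicit false

open AlgebraicGeometry CategoryTheory NumberField

namespace Pool.Agent.H918R2.Quad

theorem quadric_hasModule {K : Type} [Field K] [NumberField K] {m : ℕ} (a : Fin (m + 2) → K)
    (ha : ∀ i, a i ≠ 0) {F : Type} [Field F] [Algebra K F] [Algebra (𝓞 K) F]
    [IsScalarTower (𝓞 K) K F] (x : Fin (m + 2) → F) (hx0 : x 0 = 1)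
    (hrel : ∑ i, algebraMap K F (a i) * x i ^ 2 = 0)
    (hgen : IntermediateField.adjoin K (Set.range x) = ⊤)
    (b : Fin m → F) (htb : IsTranscendenceBasis K b) : HasModule (𝓞 K) F := by
  have hOK : Function.Injective (algebraMap (𝓞 K) K) := IsFractionRing.injective (𝓞 K) K
  obtain ⟨β, hb⟩ := IsLocalization.exist_integer_multiples_of_finite (nonZeroDivisors (𝓞 K)) a
  choose a' ha' using hb
  have hb0 : (β : 𝓞 K) ≠ 0 := nonZeroDivisors.ne_zero β.2
  have hbK : algebraMap (𝓞 K) K β ≠ 0 := fun h => hb0 (hOK (by rw [h, map_zero]))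
  have ha'0 : ∀ i, a' i ≠ 0 := by
    intro i h
    have h1 := ha' i
    rw [h, map_zero, Algebra.smul_def] at h1
    exact mul_ne_zero hbK (ha i) h1.symm
  have hrel' : ∑ i, algebraMap (𝓞 K) F (a' i) * x i ^ 2 = 0 := by
    have h1 : ∀ i, algebraMap (𝓞 K) F (a' i) * x i ^ 2 =
        algebraMap (𝓞 K) F β * (algebraMap K F (a i) * x i ^ 2) := by
      intro i
      rw [IsScalarTower.algebraMap_apply (𝓞 K) K F, ha' i, Algebra.smul_def, map_mul,
        ← IsScalarTower.algebraMap_apply]
      ring
    simp only [h1]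
    rw [← Finset.mul_sum, hrel, mul_zero]
  exact exists_module (O := 𝓞 K) (K := K) (F := F)
    (fun 𝔭 _ h => Ideal.finiteQuotientOfFreeOfNeBot 𝔭 h) a' ha'0 x hx0 hrel' hgen b htb

/-- A field with a good module has a regular proper model. -/
theorem model_of_hasModule {O : Type} [CommRing O] [IsDomain O] [Module.Finite ℤ O]
    {F : Type} [Field F] [Algebra O F] (hinj : Function.Injective (algebraMap O F))
    (h : HasModule O F) :
    ∃ (X' : Scheme.{0}) (_ : IsIntegral X') (g : X' ⟶ Spec (CommRingCat.of ℤ)),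
      IsProper g ∧
      (∀ x : X',
        (((Module.finrank (IsLocalRing.ResidueField (X'.presheaf.stalk x))
            (IsLocalRing.CotangentSpace (X'.presheaf.stalk x)) : ℕ∞)) : WithBot ℕ∞)
          = ringKrullDim (X'.presheaf.stalk x)) ∧
      Nonempty (X'.functionField ≃+* F) := by
  obtain ⟨M, hM, h0, hg, hreg⟩ := h
  exact exists_model hinj M hM h0 hg hreg

theorem quadric_model_aux {K : Type} [Field K] [NumberField K] {m : ℕ} (a : Fin (m + 2) → K)
    (ha : ∀ i, a i ≠ 0) {F : Type} [Field F] [Algebra K F] (x : Fin (m + 2) → F) (hx0 : x 0 = 1)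
    (hrel : ∑ i, algebraMap K F (a i) * x i ^ 2 = 0)
    (hgen : IntermediateField.adjoin K (Set.range x) = ⊤)
    (htb : IsTranscendenceBasis K (fun i : Fin m => x i.succ.succ)) :
    ∃ (X' : Scheme.{0}) (_ : IsIntegral X') (g : X' ⟶ Spec (CommRingCat.of ℤ)),
      IsProper g ∧
      (∀ x : X',
        (((Module.finrank (IsLocalRing.ResidueField (X'.presheaf.stalk x))
            (IsLocalRing.CotangentSpace (X'.presheaf.stalk x)) : ℕ∞)) : WithBot ℕ∞)
          = ringKrullDim (X'.presheaf.stalk x)) ∧
      Nonempty (X'.functionField ≃+* F) := by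
  let _ : Algebra (𝓞 K) F := ((algebraMap K F).comp (algebraMap (𝓞 K) K)).toAlgebra
  have _ : IsScalarTower (𝓞 K) K F := IsScalarTower.of_algebraMap_eq fun _ => rfl
  have hOK : Function.Injective (algebraMap (𝓞 K) K) := IsFractionRing.injective (𝓞 K) K
  have hOF : Function.Injective (algebraMap (𝓞 K) F) := by
    rw [IsScalarTower.algebraMap_eq (𝓞 K) K F]
    exact (algebraMap K F).injective.comp hOK
  exact model_of_hasModule hOF (quadric_hasModule a ha x hx0 hrel hgen _ htb)

end Pool.Agent.H918R2.Quad
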