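import Pool.Agent.H918R2.Quad.Final
import Pool.Agent.H918R2.Quad.Frac
import Pool.Agent.H918R2.Quad.DegTwo
import Pool.Agent.H473R2.Quad.Poly
import Pool.Agent.H394R2.Quad.DegTwo

/-! Hypersurfaces of degree at most two over number fields. -/

set_option autoImplicit false

open AlgebraicGeometry CategoryTheory NumberField

namespace Pool.Agent.H918R2.Quad

theorem hasModule_two {K : Type} [Field K] [NumberField K] {F : Type} [Field F] [Algebra K F]
    {N : ℕ} (x : Fin (N + 1) → F) (hx0 : x 0 = 1)
    (hgen : IntermediateField.adjoin K (Set.range x) = ⊤)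
    (htr : (N : Cardinal) ≤ Algebra.trdeg K F + 1)
    (c : Fin (N + 1) → Fin (N + 1) → K) (hc : ∃ v : Fin (N + 1) → K, ∑ i, ∑ j, c i j * v i * v j ≠ 0)
    (hrel : ∑ i, ∑ j, algebraMap K F (c i j) * x i * x j = 0) :
    ∃ (O : Type) (_ : CommRing O) (_ : IsDomain O) (_ : Module.Finite ℤ O) (_ : Algebra O F),
      Function.Injective (algebraMap O F) ∧ HasModule O F := by
  rcases Pool.Agent.H394R2.Quad.degree_two_cases x hx0 hgen htr c hc hrel with
    ⟨K', hK', ρ, hρ, t, ht, htop⟩ | ⟨m, a, ha, F₀, y, hy0, hrel', hgen', ⟨b, hb⟩, ρ, hρ, t, ht, htop⟩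
  · have : CharZero K' := charZero_of_injective_algebraMap (algebraMap K K').injective
    have : FiniteDimensional ℚ K' := FiniteDimensional.trans ℚ K K'
    have : NumberField K' := ⟨⟩
    let _ : Algebra (𝓞 K') F := ((algebraMap K' F).comp (algebraMap (𝓞 K') K')).toAlgebra
    have hst : IsScalarTower (𝓞 K') K' F := IsScalarTower.of_algebraMap_eq fun _ => rfl
    have hinj : Function.Injective (algebraMap (𝓞 K') F) := by
      rw [IsScalarTower.algebraMap_eq (𝓞 K') K' F]
      exact (algebraMap K' F).injective.comp (IsFractionRing.injective (𝓞 K') K')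
    exact ⟨𝓞 K', inferInstance, inferInstance, inferInstance, inferInstance, hinj,
      Pool.Agent.H473R2.Quad.hasModule_poly (F₀ := K') hasModule_frac t ht htop⟩
  · let _ : Algebra (𝓞 K) F₀ := ((algebraMap K F₀).comp (algebraMap (𝓞 K) K)).toAlgebra
    let _ : Algebra (𝓞 K) F := ((algebraMap K F).comp (algebraMap (𝓞 K) K)).toAlgebra
    have h1 : IsScalarTower (𝓞 K) K F₀ := IsScalarTower.of_algebraMap_eq fun _ => rfl
    have h2 : IsScalarTower (𝓞 K) K F := IsScalarTower.of_algebraMap_eq fun _ => rfl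
    have h3 : IsScalarTower (𝓞 K) F₀ F := IsScalarTower.of_algebraMap_eq fun _ => rfl
    have hinj : Function.Injective (algebraMap (𝓞 K) F) := by
      rw [IsScalarTower.algebraMap_eq (𝓞 K) K F]
      exact (algebraMap K F).injective.comp (IsFractionRing.injective (𝓞 K) K)
    exact ⟨𝓞 K, inferInstance, inferInstance, inferInstance, inferInstance, hinj,
      Pool.Agent.H473R2.Quad.hasModule_poly (F₀ := F₀) (quadric_hasModule a ha y hy0 hrel' hgen' b hb) t ht htop⟩

open MvPolynomial in
theorem degree_two_model {K : Type} [Field K] [NumberField K] (N : ℕ)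
    (f : MvPolynomial (Fin N) K) (hf : Irreducible f) (hdeg : f.totalDegree ≤ 2)
    {F : Type} [Field F] (e : F ≃+* FractionRing (MvPolynomial (Fin N) K ⧸ Ideal.span {f})) :
    ∃ (X' : Scheme.{0}) (_ : IsIntegral X') (g : X' ⟶ Spec (CommRingCat.of ℤ)),
      IsProper g ∧
      (∀ x : X',
        (((Module.finrank (IsLocalRing.ResidueField (X'.presheaf.stalk x))
            (IsLocalRing.CotangentSpace (X'.presheaf.stalk x)) : ℕ∞)) : WithBot ℕ∞)
          = ringKrullDim (X'.presheaf.stalk x)) ∧
      Nonempty (X'.functionField ≃+* F) := by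
  obtain ⟨_, x, c, hx0, hgen, htr, hc, hrel⟩ := degree_two_field N f hf hdeg e
  obtain ⟨O, _, _, _, _, hinj, hM⟩ := hasModule_two x hx0 hgen htr c hc hrel
  exact model_of_hasModule hinj hM

end Pool.Agent.H918R2.Quad
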