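import Mathlib

/-! Gluing of local modules. -/

set_option autoImplicit false

namespace Pool.Agent.H918R2.Quad

theorem exists_mult {O : Type} [CommRing O] (S : Finset (Ideal O))
    (hS : ∀ 𝔭 ∈ S, 𝔭.IsMaximal) (k : Ideal O → ℕ) (𝔮 : Ideal O) [𝔮.IsPrime] (h : 𝔮 ∉ S) :
    ∃ t, t ∉ 𝔮 ∧ ∀ 𝔭 ∈ S, t ∈ 𝔭 ^ k 𝔭 := by
  classical
  have h1 : ¬ (∏ 𝔭 ∈ S, 𝔭 ^ k 𝔭) ≤ 𝔮 := by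
    intro hle
    obtain ⟨𝔭, h𝔭, hle⟩ := (Ideal.IsPrime.prod_le ‹𝔮.IsPrime›).1 hle
    have h2 : 𝔭 ≤ 𝔮 := Ideal.IsPrime.le_of_pow_le hle
    have h3 : 𝔭 = 𝔮 := (hS 𝔭 h𝔭).eq_of_le Ideal.IsPrime.ne_top' h2
    exact h (h3 ▸ h𝔭)
  obtain ⟨t, ht, htq⟩ := SetLike.not_le_iff_exists.1 h1
  refine ⟨t, htq, fun 𝔭 h𝔭 => ?_⟩
  have h2 := Ideal.prod_le_inf ht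
  exact (Finset.inf_le (f := fun 𝔭 => 𝔭 ^ k 𝔭) h𝔭) h2

theorem glue {O F : Type} [CommRing O] [AddCommGroup F] [Module O F] (N₀ : Submodule O F)
    (S : Finset (Ideal O)) (hS : ∀ 𝔭 ∈ S, 𝔭.IsMaximal) (P : Ideal O → Submodule O F)
    (h1 : ∀ 𝔭 ∈ S, ∀ x ∈ P 𝔭, ∃ s, s ∉ 𝔭 ∧ s • x ∈ N₀)
    (h2 : ∀ 𝔭 ∈ S, ∃ k : ℕ, ∀ c ∈ 𝔭 ^ k, ∀ x ∈ N₀, c • x ∈ P 𝔭) :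
    ∃ M : Submodule O F, M ≤ N₀ ∧ (∀ 𝔭 ∈ S, M ≤ P 𝔭) ∧
      (∀ 𝔭 ∈ S, ∀ x ∈ P 𝔭, ∃ s, s ∉ 𝔭 ∧ s • x ∈ M) ∧
      (∀ 𝔮 : Ideal O, 𝔮.IsPrime → 𝔮 ∉ S → ∀ x ∈ N₀, ∃ s, s ∉ 𝔮 ∧ s • x ∈ M) := by
  classical
  choose! k hk using h2
  have hmem : ∀ x, x ∈ N₀ ⊓ ⨅ 𝔭 ∈ S, P 𝔭 ↔ x ∈ N₀ ∧ ∀ 𝔭 ∈ S, x ∈ P 𝔭 := by
    intro x
    simp [Submodule.mem_iInf]
  refine ⟨N₀ ⊓ ⨅ 𝔭 ∈ S, P 𝔭, inf_le_left, ?_, ?_, ?_⟩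
  · intro 𝔭 h𝔭 x hx
    exact ((hmem x).1 hx).2 𝔭 h𝔭
  · intro 𝔭 h𝔭 x hx
    obtain ⟨s, hs, hsx⟩ := h1 𝔭 h𝔭 x hx
    have hmax := hS 𝔭 h𝔭
    have hprime : 𝔭.IsPrime := hmax.isPrime
    obtain ⟨t, ht, htS⟩ := exists_mult (S.erase 𝔭) (fun 𝔭' h => hS 𝔭' (Finset.mem_of_mem_erase h))
      k 𝔭 (Finset.notMem_erase _ _)
    refine ⟨t * s, fun h => (hprime.mem_or_mem h).elim ht hs, ?_⟩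
    rw [mul_smul, hmem]
    refine ⟨N₀.smul_mem _ hsx, fun 𝔭' h𝔭' => ?_⟩
    by_cases he : 𝔭' = 𝔭
    · rw [he]
      exact (P 𝔭).smul_mem _ ((P 𝔭).smul_mem _ hx)
    · exact hk 𝔭' h𝔭' t (htS 𝔭' (Finset.mem_erase.2 ⟨he, h𝔭'⟩)) _ hsx
  · intro 𝔮 hq hqS x hx
    obtain ⟨t, ht, htS⟩ := exists_mult S hS k 𝔮 hqS
    refine ⟨t, ht, ?_⟩
    rw [hmem]
    exact ⟨N₀.smul_mem _ hx, fun 𝔭' h𝔭' => hk 𝔭' h𝔭' t (htS 𝔭' h𝔭') _ hx⟩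

end Pool.Agent.H918R2.Quad
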