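import Pool.Agent.H918R2.Quad.Local
import Pool.Agent.H918R2.Quad.Glue
import Pool.Agent.H968R2.Quad.QField

/-! The global model. -/

set_option autoImplicit false

open AlgebraicGeometry CategoryTheory NumberField

namespace Pool.Agent.H918R2.Quad

section

variable {O K F : Type} [CommRing O] [IsDedekindDomain O] [Field K] [Algebra O K]
  [IsFractionRing O K] [Field F] [Algebra K F] [Algebra O F] [IsScalarTower O K F]

theorem good_local' (𝔭 : Ideal O) [𝔭.IsPrime] {m : ℕ} (a : Fin (m + 2) → O)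
    (ha : ∀ i, 2 * a i ∉ 𝔭) (x : Fin (m + 2) → F) (hx0 : x 0 = 1)
    (hrel : ∑ i, algebraMap O F (a i) * x i ^ 2 = 0)
    (hgen : IntermediateField.adjoin K (Set.range x) = ⊤)
    (b : Fin m → F) (htb : IsTranscendenceBasis K b)
    (M : Submodule O F) (hM : M ≤ Submodule.span O (G3 x))
    (hM2 : ∀ y ∈ Submodule.span O (G3 x), ∃ s, s ∉ 𝔭 ∧ s • y ∈ M) : RegAt 𝔭 M := by
  let R := Localization.subalgebra.ofField K 𝔭.primeCompl 𝔭.primeCompl_le_nonZeroDivisors
  have : IsLocalization.AtPrime R 𝔭 := Localization.subalgebra.isLocalization_ofField K _ _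
  have : IsFractionRing R K := Localization.subalgebra.isFractionRing_ofField K _ _
  have : IsDedekindDomain R := IsLocalization.isDedekindDomain O
    𝔭.primeCompl_le_nonZeroDivisors R
  have : IsScalarTower O R F := IsScalarTower.of_algebraMap_eq fun r => by
    rw [IsScalarTower.algebraMap_apply O K F]; rfl
  have : IsScalarTower R K F := IsScalarTower.of_algebraMap_eq fun r => rfl
  exact good_local (R := R) (K := K) 𝔭 (IsFractionRing.injective R K) a ha x hx0 hrel hgen b htb M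
    hM hM2

theorem bad_local' [CharZero K] (𝔭 : Ideal O) [𝔭.IsPrime] (h0 : 𝔭 ≠ ⊥) [Finite (O ⧸ 𝔭)] {m : ℕ}
    (a : Fin (m + 2) → O) (ha : ∀ i, a i ≠ 0) (x : Fin (m + 2) → F) (hx0 : x 0 = 1)
    (hrel : ∑ i, algebraMap O F (a i) * x i ^ 2 = 0)
    (hgen : IntermediateField.adjoin K (Set.range x) = ⊤)
    (b : Fin m → F) (htb : IsTranscendenceBasis K b) :
    ∃ P : Submodule O F, (∀ y ∈ P, ∃ s, s ∉ 𝔭 ∧ s • y ∈ Submodule.span O (G3 x)) ∧
      (∃ k : ℕ, ∀ c ∈ 𝔭 ^ k, ∀ y ∈ Submodule.span O (G3 x), c • y ∈ P) ∧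
      ∀ M : Submodule O F, M ≤ P → (∀ y ∈ P, ∃ s, s ∉ 𝔭 ∧ s • y ∈ M) → RegAt 𝔭 M := by
  let R := Localization.subalgebra.ofField K 𝔭.primeCompl 𝔭.primeCompl_le_nonZeroDivisors
  have : IsLocalization.AtPrime R 𝔭 := Localization.subalgebra.isLocalization_ofField K _ _
  have : IsFractionRing R K := Localization.subalgebra.isFractionRing_ofField K _ _
  have hdvr : IsDiscreteValuationRing R :=
    IsLocalization.AtPrime.isDiscreteValuationRing_of_dedekind_domain O h0 R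
  have : IsScalarTower O R F := IsScalarTower.of_algebraMap_eq fun r => by
    rw [IsScalarTower.algebraMap_apply O K F]; rfl
  have : IsScalarTower R K F := IsScalarTower.of_algebraMap_eq fun r => rfl
  have hmax : 𝔭.IsMaximal := Ideal.IsPrime.isMaximal ‹_› h0
  have hfin : Finite (IsLocalRing.ResidueField R) :=
    Finite.of_equiv _ (IsLocalization.AtPrime.equivQuotMaximalIdeal 𝔭 R).toEquiv
  refine bad_local (R := R) (K := K) 𝔭 a ?_ x hx0 hrel hgen b htb
  intro i h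
  apply ha i
  have hinj : Function.Injective (algebraMap O R) :=
    IsLocalization.injective R 𝔭.primeCompl_le_nonZeroDivisors
  exact hinj (by rw [h, map_zero])

/-- The global module: all charts are regular and have fraction field `F`. -/
theorem exists_module [CharZero K] (hfin : ∀ 𝔭 : Ideal O, 𝔭.IsPrime → 𝔭 ≠ ⊥ → Finite (O ⧸ 𝔭))
    {m : ℕ} (a : Fin (m + 2) → O) (ha : ∀ i, a i ≠ 0) (x : Fin (m + 2) → F) (hx0 : x 0 = 1)
    (hrel : ∑ i, algebraMap O F (a i) * x i ^ 2 = 0)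
    (hgen : IntermediateField.adjoin K (Set.range x) = ⊤)
    (b : Fin m → F) (htb : IsTranscendenceBasis K b) :
    ∃ M : Submodule O F, M.FG ∧ (∃ f ∈ M, f ≠ 0) ∧
      (∀ f ∈ M, f ≠ 0 → ∀ y : F, ∃ b ∈ chart O M f, ∃ c ∈ chart O M f, c ≠ 0 ∧ y = b / c) ∧
      ∀ f ∈ M, f ≠ 0 → ∀ (q : Ideal (chart O M f)) [q.IsPrime],
        IsRegularLocalRing (Localization.AtPrime q) := by
  classical
  have hOK : Function.Injective (algebraMap O K) := IsFractionRing.injective O K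
  have hOF : Function.Injective (algebraMap O F) := by
    rw [IsScalarTower.algebraMap_eq O K F]
    exact (algebraMap K F).injective.comp hOK
  have hchar : CharZero O := by
    constructor
    intro i j hij
    have h1 := congrArg (algebraMap O K) hij
    simpa using h1
  set D : O := 2 * ∏ i, a i with hD
  have hD0 : D ≠ 0 := mul_ne_zero two_ne_zero (Finset.prod_ne_zero_iff.2 fun i _ => ha i)
  have hDspan : Ideal.span {D} ≠ ⊥ := by
    rw [Ne, Ideal.span_singleton_eq_bot]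
    exact hD0
  let S : Finset (Ideal O) := (UniqueFactorizationMonoid.normalizedFactors (Ideal.span {D})).toFinset
  have hS : ∀ 𝔭, 𝔭 ∈ S ↔ 𝔭.IsPrime ∧ D ∈ 𝔭 := by
    intro 𝔭
    rw [Multiset.mem_toFinset, Ideal.mem_normalizedFactors_iff hDspan,
      Ideal.span_singleton_le_iff_mem]
  have hS0 : ∀ 𝔭 ∈ S, 𝔭 ≠ ⊥ := by
    intro 𝔭 h𝔭 h
    have h1 := ((hS 𝔭).1 h𝔭).2
    rw [h] at h1
    exact hD0 h1
  have hSmax : ∀ 𝔭 ∈ S, 𝔭.IsMaximal := fun 𝔭 h𝔭 =>
    Ideal.IsPrime.isMaximal ((hS 𝔭).1 h𝔭).1 (hS0 𝔭 h𝔭)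
  have hbad : ∀ 𝔭 : Ideal O, ∃ P : Submodule O F, 𝔭 ∈ S →
      ((∀ y ∈ P, ∃ s, s ∉ 𝔭 ∧ s • y ∈ Submodule.span O (G3 x)) ∧
      (∃ k : ℕ, ∀ c ∈ 𝔭 ^ k, ∀ y ∈ Submodule.span O (G3 x), c • y ∈ P) ∧
      ∀ M : Submodule O F, M ≤ P → (∀ y ∈ P, ∃ s, s ∉ 𝔭 ∧ s • y ∈ M) → RegAt 𝔭 M) := by
    intro 𝔭
    by_cases h𝔭 : 𝔭 ∈ S
    · have hp := ((hS 𝔭).1 h𝔭).1
      have := hfin 𝔭 hp (hS0 𝔭 h𝔭)
      obtain ⟨P, hP⟩ := bad_local' 𝔭 (hS0 𝔭 h𝔭) a ha x hx0 hrel hgen b htb
      exact ⟨P, fun _ => hP⟩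
    · exact ⟨⊥, fun h => absurd h h𝔭⟩
  choose P hP using hbad
  obtain ⟨M, hMN, hMP, hM1, hM2⟩ := glue (Submodule.span O (G3 x)) S hSmax P
    (fun 𝔭 h𝔭 => (hP 𝔭 h𝔭).1) (fun 𝔭 h𝔭 => (hP 𝔭 h𝔭).2.1)
  have hbotS : (⊥ : Ideal O) ∉ S := fun h => hS0 ⊥ h rfl
  have hMbot : ∀ y ∈ Submodule.span O (G3 x), ∃ s : O, s ≠ 0 ∧ s • y ∈ M := by
    intro y hy
    obtain ⟨s, hs, hsy⟩ := hM2 ⊥ Ideal.isPrime_bot hbotS y hy
    exact ⟨s, fun h => hs (by rw [h]; exact Ideal.zero_mem _), hsy⟩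
  have hxG : ∀ i, x i ∈ Submodule.span O (G3 x) := fun i =>
    Submodule.subset_span ⟨i, 0, 0, by rw [hx0]; ring⟩
  have h1G : (1 : F) ∈ Submodule.span O (G3 x) := by
    have := hxG 0
    rwa [hx0] at this
  obtain ⟨t, ht0, htM⟩ := hMbot 1 h1G
  have htF : algebraMap O F t ≠ 0 := fun h => ht0 (hOF (by rw [h, map_zero]))
  refine ⟨M, ?_, ⟨t • 1, htM, ?_⟩, ?_, ?_⟩
  · have hG3 : (G3 x).Finite := by
      have h1 : G3 x = Set.range (fun p : Fin (m + 2) × Fin (m + 2) × Fin (m + 2) =>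
          x p.1 * x p.2.1 * x p.2.2) := by
        ext g
        constructor
        · rintro ⟨i, j, k, rfl⟩
          exact ⟨(i, j, k), rfl⟩
        · rintro ⟨⟨i, j, k⟩, rfl⟩
          exact ⟨i, j, k, rfl⟩
      rw [h1]
      exact Set.finite_range _
    exact Submodule.FG.of_le (Submodule.fg_span hG3) hMN
  · rw [Algebra.smul_def, mul_one]
    exact htF
  · intro f hfM hf0 y
    have hdivM : ∀ u ∈ M, u / f ∈ chart O M f := fun u hu =>
      Algebra.subset_adjoin ⟨u, hu, rfl⟩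
    have hy : y ∈ IntermediateField.adjoin K (Set.range x) := by
      rw [hgen]; trivial
    induction hy using IntermediateField.adjoin_induction with
    | mem y hy =>
      obtain ⟨i, rfl⟩ := hy
      obtain ⟨s, hs0, hsM⟩ := hMbot (x i) (hxG i)
      have hsF : algebraMap O F s ≠ 0 := fun h => hs0 (hOF (by rw [h, map_zero]))
      refine ⟨(s • x i) / f * algebraMap O F t,
        Subalgebra.mul_mem _ (hdivM _ hsM) (Subalgebra.algebraMap_mem _ _),
        (t • 1) / f * algebraMap O F s,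
        Subalgebra.mul_mem _ (hdivM _ htM) (Subalgebra.algebraMap_mem _ _), ?_, ?_⟩
      · rw [Algebra.smul_def, mul_one]
        exact mul_ne_zero (div_ne_zero htF hf0) hsF
      · rw [Algebra.smul_def, Algebra.smul_def, mul_one]
        field_simp
    | algebraMap k =>
      obtain ⟨b, c, hc, rfl⟩ := IsFractionRing.div_surjective (A := O) k
      have hc0 : c ≠ 0 := nonZeroDivisors.ne_zero hc
      refine ⟨algebraMap O F b, Subalgebra.algebraMap_mem _ _, algebraMap O F c,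
        Subalgebra.algebraMap_mem _ _, fun h => hc0 (hOF (by rw [h, map_zero])), ?_⟩
      rw [map_div₀, ← IsScalarTower.algebraMap_apply, ← IsScalarTower.algebraMap_apply]
    | add y z _ _ hy hz =>
      obtain ⟨b, hb, c, hc, hc0, rfl⟩ := hy
      obtain ⟨b', hb', c', hc', hc0', rfl⟩ := hz
      refine ⟨b * c' + b' * c, Subalgebra.add_mem _ (Subalgebra.mul_mem _ hb hc')
        (Subalgebra.mul_mem _ hb' hc), c * c', Subalgebra.mul_mem _ hc hc',
        mul_ne_zero hc0 hc0', ?_⟩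
      field_simp
    | inv y _ hy =>
      obtain ⟨b, hb, c, hc, hc0, rfl⟩ := hy
      by_cases hb0 : b = 0
      · refine ⟨0, Subalgebra.zero_mem _, 1, Subalgebra.one_mem _, one_ne_zero, ?_⟩
        rw [hb0]; simp
      · exact ⟨c, hc, b, hb, hb0, by rw [inv_div]⟩
    | mul y z _ _ hy hz =>
      obtain ⟨b, hb, c, hc, hc0, rfl⟩ := hy
      obtain ⟨b', hb', c', hc', hc0', rfl⟩ := hz
      refine ⟨b * b', Subalgebra.mul_mem _ hb hb', c * c', Subalgebra.mul_mem _ hc hc',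
        mul_ne_zero hc0 hc0', ?_⟩
      field_simp
  · intro f hfM hf0 q hq
    have hpp : (q.comap (algebraMap O (chart O M f))).IsPrime := inferInstance
    by_cases h𝔭 : q.comap (algebraMap O (chart O M f)) ∈ S
    · exact (hP _ h𝔭).2.2 M (hMP _ h𝔭) (hM1 _ h𝔭) f hfM hf0 q rfl
    · refine good_local' (K := K) (q.comap (algebraMap O (chart O M f))) a ?_ x hx0 hrel hgen b htb M
        hMN (hM2 _ hpp h𝔭) f hfM hf0 q rfl
      intro i hi
      apply h𝔭
      rw [hS]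
      refine ⟨hpp, ?_⟩
      have h1 : D = (2 * a i) * ∏ j ∈ Finset.univ.erase i, a j := by
        rw [hD, ← Finset.mul_prod_erase _ _ (Finset.mem_univ i)]
        ring
      rw [h1]
      exact Ideal.mul_mem_right _ _ hi

end

end Pool.Agent.H918R2.Quad
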