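import Pool.Agent.H918R2.Quad.Pres

/-! Local rings of the model at good primes. -/

set_option autoImplicit false

namespace Pool.Agent.H918R2.Quad

open MvPolynomial

/-- Products of three coordinates. -/
def G3 {F : Type} [Field F] {N : ℕ} (x : Fin N → F) : Set F := {g | ∃ i j k, g = x i * x j * x k}

theorem aeval_tau' {ι A R : Type} [DecidableEq ι] [CommRing R] [CommRing A] [Algebra R A] (s : ι)
    (t : ι → A) (hs : t s = 1) (j : ι) :
    aeval (fun j : {j : ι // j ≠ s} => t j) (tau (R := R) s j) = t j := by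
  unfold tau
  by_cases h : j = s
  · subst h; simp [hs]
  · simp [h]

theorem regular_good {R F : Type} [CommRing R] [IsDomain R] [IsRegularRing R] [Field F]
    [Algebra R F] (𝒪 : Subring F) (hloc : IsLoc 𝒪) (hR : ∀ r : R, algebraMap R F r ∈ 𝒪)
    {N : ℕ} (a : Fin N → R) (ha : ∀ i, IsUnit (2 * a i)) (x : Fin N → F)
    (hrel : ∑ i, algebraMap R F (a i) * x i ^ 2 = 0)
    (hind : ∀ s, x s ≠ 0 → ∃ j₀ : {j : Fin N // j ≠ s},
      AlgebraicIndependent R (fun j : {j : {j : Fin N // j ≠ s} // j ≠ j₀} => x j / x s))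
    (f : F) (hf : f ≠ 0) (hfG : f ∈ Submodule.span R (G3 x)) (hG : ∀ g ∈ G3 x, g / f ∈ 𝒪)
    (hloc2 : IsLocOf 𝒪 (chart R (Submodule.span R (G3 x)) f)) : IsRegularLocalRing 𝒪 := by
  obtain ⟨g, ⟨s, k, l, rfl⟩, hU⟩ := exists_U_gen hloc hR _ f hf hG hfG
  have hne : x s * x k * x l ≠ 0 := by
    intro h
    rw [h, zero_div] at hU
    exact not_U_zero hU
  have hl : x l ≠ 0 := right_ne_zero_of_mul hne
  have hk : x k ≠ 0 := right_ne_zero_of_mul (left_ne_zero_of_mul hne)
  have hs : x s ≠ 0 := left_ne_zero_of_mul (left_ne_zero_of_mul hne)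
  obtain ⟨j₀, hj₀⟩ := hind s hs
  have hz : ∀ j, x j / x s ∈ 𝒪 := by
    intro j
    have h1 : x j * x k * x l / f ∈ 𝒪 := hG _ ⟨j, k, l, rfl⟩
    have h2 : x j / x s = (x j * x k * x l / f) * (x s * x k * x l / f)⁻¹ := by field_simp
    rw [h2]
    exact 𝒪.mul_mem h1 hU.2.2
  have hzk : x s / x k ∈ 𝒪 := by
    have h1 : x s * x s * x l / f ∈ 𝒪 := hG _ ⟨s, s, l, rfl⟩
    have h2 : x s / x k = (x s * x s * x l / f) * (x s * x k * x l / f)⁻¹ := by field_simp
    rw [h2]
    exact 𝒪.mul_mem h1 hU.2.2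
  have hzl : x s / x l ∈ 𝒪 := by
    have h1 : x s * x k * x s / f ∈ 𝒪 := hG _ ⟨s, k, s, rfl⟩
    have h2 : x s / x l = (x s * x k * x s / f) * (x s * x k * x l / f)⁻¹ := by field_simp
    rw [h2]
    exact 𝒪.mul_mem h1 hU.2.2
  have hUk : U 𝒪 (x k / x s) := ⟨div_ne_zero hk hs, hz k, by rw [inv_div]; exact hzk⟩
  have hUl : U 𝒪 (x l / x s) := ⟨div_ne_zero hl hs, hz l, by rw [inv_div]; exact hzl⟩
  have hfh : U 𝒪 (f / x s ^ 3) := by
    have h1 : f / x s ^ 3 = (x s * x k * x l / f)⁻¹ * (x k / x s) * (x l / x s) := by field_simp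
    rw [h1]
    exact (hU.inv.mul hUk).mul hUl
  set t : Fin N → F := fun j => x j / x s with ht
  have hts : t s = 1 := div_self hs
  let E : MvPolynomial {j : Fin N // j ≠ s} R := ∑ i, C (a i) * tau s i ^ 2
  let I : Ideal (MvPolynomial {j : Fin N // j ≠ s} R) := Ideal.span {E}
  let eW : MvPolynomial {j : Fin N // j ≠ s} R →ₐ[R] F :=
    aeval (fun j : {j : Fin N // j ≠ s} => t j)
  have heC : ∀ r, eW (C r) = algebraMap R F r := fun r => aeval_C _ r
  have heX : ∀ j, eW (X j) = t j := fun j => aeval_X _ j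
  have heW : ∀ w, eW w ∈ 𝒪 := by
    intro w
    induction w using MvPolynomial.induction_on with
    | C r => rw [heC]; exact hR r
    | add p q hp hq => rw [map_add]; exact 𝒪.add_mem hp hq
    | mul_X p j hp => rw [map_mul, heX]; exact 𝒪.mul_mem hp (hz _)
  have hmap : ∀ j, eW (tau s j) = t j := fun j => aeval_tau' s t hts j
  have hEt : eW E = 0 := by
    simp only [E, map_sum, map_mul, map_pow, heC, hmap]
    have h1 : ∀ i, algebraMap R F (a i) * t i ^ 2 =
        (algebraMap R F (a i) * x i ^ 2) * ((x s)⁻¹) ^ 2 := by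
      intro i
      simp only [ht]
      field_simp
    simp only [h1]
    rw [← Finset.sum_mul, hrel, zero_mul]
  have hI : ∀ w ∈ I, eW w = 0 := by
    intro w hw
    obtain ⟨c, rfl⟩ := Ideal.mem_span_singleton.1 hw
    rw [map_mul, hEt, zero_mul]
  have hzt : ∀ j, x j = x s * eW (tau s j) := by
    intro j
    rw [hmap]
    simp only [ht]
    field_simp
  have hG' : ∀ g ∈ G3 x, ∃ w, g = x s ^ 3 * eW w := by
    rintro g ⟨i, j, k, rfl⟩
    refine ⟨tau s i * tau s j * tau s k, ?_⟩
    rw [map_mul, map_mul, hzt i, hzt j, hzt k]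
    simp only [hmap]
    ring
  have hfrac := frac_of_chart eW heW (G3 x) f (x s ^ 3) (pow_ne_zero 3 hs) hG' hfG hfh hloc2
  have has : ∀ i, IsUnit (a i) := fun i => isUnit_of_mul_isUnit_right (ha i)
  have hE0 : constantCoeff E = a s := by
    simp only [E, map_sum, map_mul, map_pow, constantCoeff_C]
    rw [Finset.sum_eq_single s]
    · simp [tau]
    · intro j _ hj
      simp [tau, hj]
    · intro h
      exact absurd (Finset.mem_univ s) h
  have hEne : E ≠ 0 := by
    intro h
    rw [h, map_zero] at hE0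
    exact (has s).ne_zero hE0.symm
  have hpd : ∀ j : {j : Fin N // j ≠ s}, pderiv j E = C (2 * a j) * X j := by
    intro j
    simp only [E, map_sum]
    rw [Finset.sum_eq_single (j : Fin N)]
    · have h1 : tau (R := R) s (j : Fin N) = X j := by
        unfold tau
        rw [dif_neg j.2]
      rw [h1, Derivation.leibniz, pderiv_C, Derivation.leibniz_pow, pderiv_X_self]
      simp only [smul_zero, add_zero, smul_eq_mul, C_mul, map_ofNat]
      simp
      ring
    · intro i _ hi
      have h1 : pderiv j (tau (R := R) s i) = 0 := by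
        unfold tau
        by_cases h : i = s
        · rw [dif_pos h]; simp
        · rw [dif_neg h, pderiv_X_of_ne]
          intro h2
          exact hi (congrArg Subtype.val h2)
      rw [Derivation.leibniz, pderiv_C, Derivation.leibniz_pow, h1]
      simp
    · intro h
      exact absurd (Finset.mem_univ _) h
  obtain ⟨A, _, _, pr, hpr, hprk, hpr0⟩ := exists_quot (R := R) I
  have haev : ∀ p : MvPolynomial {j : Fin N // j ≠ s} R,
      aeval (fun j : {j : Fin N // j ≠ s} => (X j : MvPolynomial {j : Fin N // j ≠ s} R)) p = p := by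
    intro p
    rw [aeval_X_left_apply]
  refine regular_of_pres 𝒪 hloc pr hpr eW ?_ heW hfrac ?_
    (fun j : {j : Fin N // j ≠ s} => X j) E hEne ?_ j₀ ?_ ?_
  · intro w hw
    exact hI w ((hpr0 w).1 hw)
  · intro q hq hqm
    by_cases hall : ∀ j : {j : Fin N // j ≠ s}, pr (X j) ∈ q
    · exfalso
      have h1 : pr E = 0 := (hpr0 E).2 (Ideal.mem_span_singleton_self _)
      have h2 : pr E = pr (C (a s)) + ∑ i ∈ Finset.univ.erase s, pr (C (a i) * tau s i ^ 2) := by
        simp only [E]
        rw [map_sum, ← Finset.add_sum_erase _ _ (Finset.mem_univ s)]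
        congr 1
        unfold tau
        rw [dif_pos rfl]
        simp
      have h3 : pr (C (a s)) ∈ q := by
        have h4 : ∑ i ∈ Finset.univ.erase s, pr (C (a i) * tau s i ^ 2) ∈ q := by
          refine q.sum_mem fun i hi => ?_
          have hi' := (Finset.mem_erase.1 hi).1
          rw [map_mul, map_pow]
          apply q.mul_mem_left
          apply Ideal.pow_mem_of_mem _ _ _ (by norm_num)
          unfold tau
          rw [dif_neg hi']
          exact hall ⟨i, hi'⟩
        rw [h1] at h2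
        have h5 : pr (C (a s)) = - ∑ i ∈ Finset.univ.erase s, pr (C (a i) * tau s i ^ 2) :=
          eq_neg_of_add_eq_zero_left h2.symm
        rw [h5]
        exact q.neg_mem h4
      exact Ideal.IsPrime.ne_top hq (Ideal.eq_top_of_isUnit_mem q h3
        (((has s).map (C (σ := {j : Fin N // j ≠ s}))).map pr))
    · push Not at hall
      obtain ⟨j, hj⟩ := hall
      refine regular_of_pderiv E (pr : _ →+* A) hpr hprk q j ?_
      rw [hpd]
      intro h
      have h1 : pr (C (2 * a j)) * pr (X j) ∈ q := by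
        rw [← map_mul]; exact h
      rcases Ideal.IsPrime.mem_or_mem hq h1 with h2 | h2
      · exact Ideal.IsPrime.ne_top hq (Ideal.eq_top_of_isUnit_mem q h2
          (((ha j).map (C (σ := {j : Fin N // j ≠ s}))).map pr))
      · exact hj h2
  · rw [haev, hpr0]
    exact Ideal.mem_span_singleton_self _
  · convert hj₀ using 2 with j
    exact heX _
  · intro w
    refine ⟨w, 1, by simp, ?_⟩
    rw [haev 1, one_mul, haev]

end Pool.Agent.H918R2.Quad
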