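import Pool.Agent.H918R2.Quad.Defs

/-! Local subrings of a field. -/

set_option autoImplicit false

namespace Pool.Agent.H918R2.Quad

variable {F : Type} [Field F]

/-- Units of a subring of a field. -/
def U (𝒪 : Subring F) (x : F) : Prop := x ≠ 0 ∧ x ∈ 𝒪 ∧ x⁻¹ ∈ 𝒪

/-- Local subrings. -/
def IsLoc (𝒪 : Subring F) : Prop :=
  ∀ x y, x ∈ 𝒪 → y ∈ 𝒪 → U 𝒪 (x + y) → U 𝒪 x ∨ U 𝒪 y

variable {𝒪 : Subring F}

theorem U_one : U 𝒪 1 := ⟨one_ne_zero, 𝒪.one_mem, by simp [𝒪.one_mem]⟩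

theorem U.mul {x y : F} (hx : U 𝒪 x) (hy : U 𝒪 y) : U 𝒪 (x * y) :=
  ⟨mul_ne_zero hx.1 hy.1, 𝒪.mul_mem hx.2.1 hy.2.1, by
    rw [mul_inv]; exact 𝒪.mul_mem hx.2.2 hy.2.2⟩

theorem U.inv {x : F} (hx : U 𝒪 x) : U 𝒪 x⁻¹ :=
  ⟨inv_ne_zero hx.1, hx.2.2, by rw [inv_inv]; exact hx.2.1⟩

theorem U.div {x y : F} (hx : U 𝒪 x) (hy : U 𝒪 y) : U 𝒪 (x / y) := by
  rw [div_eq_mul_inv]; exact hx.mul hy.inv

theorem U.pow {x : F} (hx : U 𝒪 x) (n : ℕ) : U 𝒪 (x ^ n) := by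
  induction n with
  | zero => simpa using U_one
  | succ n ih => rw [pow_succ]; exact ih.mul hx

theorem U.of_mul_left {x y : F} (hx : x ∈ 𝒪) (hy : y ∈ 𝒪) (h : U 𝒪 (x * y)) : U 𝒪 x := by
  refine ⟨left_ne_zero_of_mul h.1, hx, ?_⟩
  have h1 : x⁻¹ = y * (x * y)⁻¹ := by
    have := left_ne_zero_of_mul h.1
    have := right_ne_zero_of_mul h.1
    field_simp
  rw [h1]
  exact 𝒪.mul_mem hy h.2.2

theorem U.of_mul_right {x y : F} (hx : x ∈ 𝒪) (hy : y ∈ 𝒪) (h : U 𝒪 (x * y)) : U 𝒪 y := by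
  rw [mul_comm] at h
  exact h.of_mul_left hy hx

theorem not_U_zero : ¬ U 𝒪 (0 : F) := fun h => h.1 rfl

/-- The prime of nonunits. -/
def primeOf (h : IsLoc 𝒪) {A : Type} [CommRing A] (e : A →+* F) (he : ∀ a, e a ∈ 𝒪) : Ideal A where
  carrier := {a | ¬ U 𝒪 (e a)}
  add_mem' := by
    intro a b ha hb hab
    rw [map_add] at hab
    rcases h _ _ (he a) (he b) hab with h1 | h1
    · exact ha h1
    · exact hb h1
  zero_mem' := by
    intro h0
    rw [map_zero] at h0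
    exact not_U_zero h0
  smul_mem' := by
    intro c a ha hca
    rw [smul_eq_mul, map_mul] at hca
    exact ha (hca.of_mul_right (he c) (he a))

theorem mem_primeOf (h : IsLoc 𝒪) {A : Type} [CommRing A] (e : A →+* F) (he : ∀ a, e a ∈ 𝒪)
    (a : A) : a ∈ primeOf h e he ↔ ¬ U 𝒪 (e a) := Iff.rfl

instance primeOf_isPrime (h : IsLoc 𝒪) {A : Type} [CommRing A] (e : A →+* F)
    (he : ∀ a, e a ∈ 𝒪) : (primeOf h e he).IsPrime := by
  constructor
  · intro htop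
    have h1 : (1 : A) ∈ primeOf h e he := by rw [htop]; trivial
    rw [mem_primeOf, map_one] at h1
    exact h1 U_one
  · intro a b hab
    rw [mem_primeOf, map_mul] at hab
    by_contra hcon
    push Not at hcon
    rw [mem_primeOf, mem_primeOf, not_not, not_not] at hcon
    exact hab (hcon.1.mul hcon.2)

theorem mem_primeOf' (h : IsLoc 𝒪) {A : Type} [CommRing A] (e : A →+* F) (he : ∀ a, e a ∈ 𝒪)
    (a : A) : a ∈ primeOf h e he ↔ (e a = 0 ∨ (e a)⁻¹ ∉ 𝒪) := by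
  rw [mem_primeOf, U]
  have := he a
  tauto

/-- `𝒪` is the localization of `A` at its nonunits. -/
def IsLocOf (𝒪 : Subring F) (A : Set F) : Prop :=
  (∀ a ∈ A, a ∈ 𝒪) ∧ ∀ x ∈ 𝒪, ∃ a ∈ A, ∃ b ∈ A, U 𝒪 b ∧ x = a / b

section span

variable {R : Type} [CommRing R] [Algebra R F]

theorem mem_of_span (hR : ∀ r : R, algebraMap R F r ∈ 𝒪) (G : Set F) (f : F)
    (hG : ∀ g ∈ G, g / f ∈ 𝒪) : ∀ m ∈ Submodule.span R G, m / f ∈ 𝒪 := by
  intro m hm
  induction hm using Submodule.span_induction with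
  | mem x hx => exact hG x hx
  | zero => simp [𝒪.zero_mem]
  | add x y _ _ hx hy => rw [add_div]; exact 𝒪.add_mem hx hy
  | smul r x _ hx =>
    rw [Algebra.smul_def, mul_div_assoc]
    exact 𝒪.mul_mem (hR r) hx

theorem exists_U_gen (h : IsLoc 𝒪) (hR : ∀ r : R, algebraMap R F r ∈ 𝒪) (G : Set F) (f : F)
    (hf : f ≠ 0) (hG : ∀ g ∈ G, g / f ∈ 𝒪) (hfG : f ∈ Submodule.span R G) :
    ∃ g ∈ G, U 𝒪 (g / f) := by
  by_contra hcon
  push Not at hcon
  have key : ∀ m ∈ Submodule.span R G, m / f ∈ 𝒪 ∧ ¬ U 𝒪 (m / f) := by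
    intro m hm
    induction hm using Submodule.span_induction with
    | mem x hx => exact ⟨hG x hx, hcon x hx⟩
    | zero => exact ⟨by simp [𝒪.zero_mem], by simpa using not_U_zero⟩
    | add x y _ _ hx hy =>
      rw [add_div]
      exact ⟨𝒪.add_mem hx.1 hy.1, fun hu => (h _ _ hx.1 hy.1 hu).elim hx.2 hy.2⟩
    | smul r x _ hx =>
      rw [Algebra.smul_def, mul_div_assoc]
      exact ⟨𝒪.mul_mem (hR r) hx.1, fun hu => hx.2 (hu.of_mul_right (hR r) hx.1)⟩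
  have h1 := (key f hfG).2
  rw [div_self hf] at h1
  exact h1 U_one

/-- Fractions: from the chart of `M = span G` at `f` to the image of `e`. -/
theorem frac_of_chart {W : Type} [CommRing W] [Algebra R W] (e : W →ₐ[R] F)
    (he : ∀ w, e w ∈ 𝒪) (G : Set F) (f : F) (h : F) (hh : h ≠ 0)
    (hG : ∀ g ∈ G, ∃ w, g = h * e w) (hfG : f ∈ Submodule.span R G) (hfh : U 𝒪 (f / h))
    (hloc : IsLocOf 𝒪 (chart R (Submodule.span R G) f)) :
    ∀ x ∈ 𝒪, ∃ a b : W, e b ≠ 0 ∧ (e b)⁻¹ ∈ 𝒪 ∧ x = e a / e b := by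
  have hspan : ∀ m ∈ Submodule.span R G, ∃ w, m = h * e w := by
    intro m hm
    induction hm using Submodule.span_induction with
    | mem x hx => exact hG x hx
    | zero => exact ⟨0, by simp⟩
    | add x y _ _ hx hy =>
      obtain ⟨w, rfl⟩ := hx
      obtain ⟨w', rfl⟩ := hy
      exact ⟨w + w', by rw [map_add]; ring⟩
    | smul r x _ hx =>
      obtain ⟨w, rfl⟩ := hx
      exact ⟨algebraMap R W r * w, by rw [map_mul, AlgHom.commutes, Algebra.smul_def]; ring⟩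
  obtain ⟨wf, hwf⟩ := hspan f hfG
  have hUf : U 𝒪 (e wf) := by
    have : f / h = e wf := by rw [hwf]; field_simp
    rwa [this] at hfh
  have hchart : ∀ x ∈ chart R (Submodule.span R G) f, ∃ a b : W, U 𝒪 (e b) ∧ x = e a / e b := by
    intro x hx
    induction hx using Algebra.adjoin_induction with
    | mem x hx =>
      obtain ⟨m, hm, rfl⟩ := hx
      obtain ⟨w, rfl⟩ := hspan m hm
      refine ⟨w, wf, hUf, ?_⟩
      rw [hwf]
      have := hUf.1
      field_simp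
    | algebraMap r => exact ⟨algebraMap R W r, 1, by rw [map_one]; exact U_one, by
        rw [AlgHom.commutes, map_one, div_one]⟩
    | add x y _ _ hx hy =>
      obtain ⟨a, b, hb, rfl⟩ := hx
      obtain ⟨a', b', hb', rfl⟩ := hy
      refine ⟨a * b' + a' * b, b * b', by rw [map_mul]; exact hb.mul hb', ?_⟩
      have := hb.1
      have := hb'.1
      simp only [map_add, map_mul]
      field_simp
    | mul x y _ _ hx hy =>
      obtain ⟨a, b, hb, rfl⟩ := hx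
      obtain ⟨a', b', hb', rfl⟩ := hy
      refine ⟨a * a', b * b', by rw [map_mul]; exact hb.mul hb', ?_⟩
      have := hb.1
      have := hb'.1
      simp only [map_mul]
      field_simp
  intro x hx
  obtain ⟨a, ha, b, hb, hUb, rfl⟩ := hloc.2 x hx
  obtain ⟨a₁, a₂, ha₂, rfl⟩ := hchart a ha
  obtain ⟨b₁, b₂, hb₂, rfl⟩ := hchart b hb
  have hb₁ : U 𝒪 (e b₁) := by
    have : e b₁ = (e b₁ / e b₂) * e b₂ := by
      have := hb₂.1
      field_simp
    rw [this]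
    exact hUb.mul hb₂
  have hU : U 𝒪 (e (a₂ * b₁)) := by rw [map_mul]; exact ha₂.mul hb₁
  refine ⟨a₁ * b₂, a₂ * b₁, hU.1, hU.2.2, ?_⟩
  have := ha₂.1
  have := hb₂.1
  have := hb₁.1
  simp only [map_mul]
  field_simp

end span

end Pool.Agent.H918R2.Quad
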