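import Pool.Agent.H918R2.Quad.Trans
import Pool.Agent.H918R2.Quad.Bad3
import Pool.Agent.H918R2.Quad.Good
import Pool.Agent.H918R2.Quad.Trdeg

/-! Regularity of the model at all primes. -/

set_option autoImplicit false

namespace Pool.Agent.H918R2.Quad

theorem hind_of {K F : Type} [Field K] [Field F] [Algebra K F] {m : ℕ} {ι : Type} [Fintype ι]
    [DecidableEq ι] (hι : Fintype.card ι = m + 2) (x : Fin (m + 2) → F) (hx0 : x 0 = 1)
    (hgen : IntermediateField.adjoin K (Set.range x) = ⊤)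
    (b : Fin m → F) (htb : IsTranscendenceBasis K b) (z : ι → F)
    (u : Fin (m + 2) → ι → K) (hxz : ∀ i, x i = ∑ j, algebraMap K F (u i j) * z j) (s : ι)
    (hs : z s ≠ 0) : ∃ j₀ : {j : ι // j ≠ s},
      AlgebraicIndependent K (fun j : {j : {j : ι // j ≠ s} // j ≠ j₀} => z j / z s) := by
  refine exists_omit b htb (ρ := {j : ι // j ≠ s}) ?_
    (fun j => z j / z s) ?_
  · rw [Fintype.card_subtype_compl, Fintype.card_subtype_eq, hι]
    rfl
  · rw [eq_top_iff, ← hgen, IntermediateField.adjoin_le_iff]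
    set L := IntermediateField.adjoin K (Set.range fun j : {j : ι // j ≠ s} => z j / z s) with hL
    have h1 : ∀ j, z j / z s ∈ L := by
      intro j
      by_cases hj : j = s
      · rw [hj, div_self hs]; exact L.one_mem
      · exact IntermediateField.subset_adjoin K _ ⟨⟨j, hj⟩, rfl⟩
    have h2 : ∀ i, x i / z s ∈ L := by
      intro i
      rw [hxz, Finset.sum_div]
      refine L.sum_mem fun j _ => ?_
      rw [mul_div_assoc]
      exact L.mul_mem (L.algebraMap_mem _) (h1 j)
    rintro _ ⟨i, rfl⟩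
    have h3 : x i = (x i / z s) / (x 0 / z s) := by
      rw [hx0]
      field_simp
    rw [h3]
    exact L.div_mem (h2 i) (h2 0)

/-- Regularity of all chart rings at the primes over `𝔭`. -/
def RegAt {O F : Type} [CommRing O] [Field F] [Algebra O F] (𝔭 : Ideal O) (M : Submodule O F) :
    Prop :=
  ∀ f ∈ M, f ≠ 0 → ∀ (q : Ideal (chart O M f)) [q.IsPrime],
    q.comap (algebraMap O (chart O M f)) = 𝔭 → IsRegularLocalRing (Localization.AtPrime q)

section good

variable {O R K F : Type} [CommRing O] [CommRing R] [IsDomain R] [Field K] [Field F]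
  [Algebra O R] [Algebra R K] [Algebra O F] [Algebra R F] [Algebra K F]
  [IsScalarTower O R F] [IsScalarTower R K F]

theorem good_local (𝔭 : Ideal O) [𝔭.IsPrime] [IsLocalization.AtPrime R 𝔭] [IsRegularRing R]
    (hinj : Function.Injective (algebraMap R K)) {m : ℕ} (a : Fin (m + 2) → O)
    (ha : ∀ i, 2 * a i ∉ 𝔭) (x : Fin (m + 2) → F) (hx0 : x 0 = 1)
    (hrel : ∑ i, algebraMap O F (a i) * x i ^ 2 = 0)
    (hgen : IntermediateField.adjoin K (Set.range x) = ⊤)
    (b : Fin m → F) (htb : IsTranscendenceBasis K b)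
    (M : Submodule O F) (hM : M ≤ Submodule.span O (G3 x))
    (hM2 : ∀ y ∈ Submodule.span O (G3 x), ∃ s, s ∉ 𝔭 ∧ s • y ∈ M) : RegAt 𝔭 M := by
  intro f hfM hf q hqp hq
  have hMG : ∀ y ∈ M, y ∈ Submodule.span R (G3 x) := by
    intro y hy
    have h1 := hM hy
    exact Submodule.span_subset_span O R _ h1
  have hGM : ∀ y ∈ Submodule.span R (G3 x), ∃ s, s ∉ 𝔭 ∧ s • y ∈ M := by
    intro y hy
    obtain ⟨s, hs, hsy⟩ := clear_denom 𝔭 (G3 x) y hy
    obtain ⟨t, ht, hty⟩ := hM2 _ hsy
    refine ⟨t * s, fun h => (Ideal.IsPrime.mem_or_mem ‹𝔭.IsPrime› h).elim ht hs, ?_⟩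
    rw [mul_smul]
    exact hty
  obtain ⟨𝒪, hloc, hR, _, hloc2, hG, hreg⟩ := transfer (R := R) 𝔭 M (G3 x) hMG hGM f q hq
  apply hreg
  refine regular_good 𝒪 hloc hR (fun i => algebraMap O R (a i)) ?_ x ?_ ?_ f hf (hMG f hfM) hG
    hloc2
  · intro i
    have h1 : (2 : R) * algebraMap O R (a i) = algebraMap O R (2 * a i) := by
      rw [map_mul, map_ofNat]
    rw [h1]
    exact IsLocalization.map_units R (⟨2 * a i, ha i⟩ : 𝔭.primeCompl)
  · simpa only [← IsScalarTower.algebraMap_apply] using hrel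
  · intro s hs
    obtain ⟨j₀, hj₀⟩ := hind_of (K := K) (ι := Fin (m + 2)) (by simp) x hx0 hgen b htb x
      (fun i j => if i = j then 1 else 0) (by
        intro i
        simp [apply_ite (algebraMap K F)]) s hs
    exact ⟨j₀, hj₀.restrictScalars hinj⟩

end good

section bad

variable {O R K F : Type} [CommRing O] [CommRing R] [IsDomain R] [Field K] [Field F]
  [Algebra O R] [Algebra R K] [Algebra O F] [Algebra R F] [Algebra K F]
  [IsScalarTower O R F] [IsScalarTower R K F]

theorem G3_span {N : ℕ} (x : Fin N → F) : Submodule.span R (Set.range x) *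
    (Submodule.span R (Set.range x) * Submodule.span R (Set.range x)) =
    Submodule.span R (G3 x) := by
  rw [Submodule.span_mul_span, Submodule.span_mul_span]
  congr 1
  ext g
  simp only [Set.mem_mul, Set.mem_range, G3, Set.mem_ofPred_eq]
  constructor
  · rintro ⟨_, ⟨i, rfl⟩, _, ⟨_, ⟨j, rfl⟩, _, ⟨k, rfl⟩, rfl⟩, rfl⟩
    exact ⟨i, j, k, by ring⟩
  · rintro ⟨i, j, k, rfl⟩
    exact ⟨_, ⟨i, rfl⟩, _, ⟨_, ⟨j, rfl⟩, _, ⟨k, rfl⟩, rfl⟩, by ring⟩

theorem Gset_le {d m N : ℕ} (π : R) (c₁ : Fin d → Fin d → R) (x : Fin N → F)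
    (z : Fin d ⊕ Fin m → F) (hz : ∀ j, z j ∈ Submodule.span R (Set.range x)) :
    Submodule.span R (Gset π c₁ z) ≤ Submodule.span R (G3 x) := by
  rw [Submodule.span_le, ← G3_span]
  have h2 : ∀ i j, z i * z j ∈ Submodule.span R (Set.range x) * Submodule.span R (Set.range x) :=
    fun i j => Submodule.mul_mem_mul (hz i) (hz j)
  rintro g ⟨j, b, hb, rfl⟩
  apply Submodule.mul_mem_mul (hz j)
  rcases hb with ⟨i, j, rfl⟩ | ⟨i, j, rfl⟩ | rfl
  · rw [mul_assoc, ← Algebra.smul_def]
    exact Submodule.smul_mem _ _ (h2 i j)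
  · exact h2 _ _
  · refine Submodule.sum_mem _ fun i _ => Submodule.sum_mem _ fun j _ => ?_
    rw [mul_assoc, ← Algebra.smul_def]
    exact Submodule.smul_mem _ _ (h2 _ _)

theorem exists_pow_mul [IsDiscreteValuationRing R] [IsFractionRing R K] (π : R)
    (hπ : Irreducible π) (y : K) : ∃ k : ℕ, ∀ l, k ≤ l → ∃ r : R,
      algebraMap R K π ^ l * y = algebraMap R K r := by
  obtain ⟨r, s, hs, rfl⟩ := IsFractionRing.div_surjective (A := R) y
  have hs0 : s ≠ 0 := nonZeroDivisors.ne_zero hs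
  obtain ⟨k, u, hu⟩ := IsDiscreteValuationRing.eq_unit_mul_pow_irreducible hs0 hπ
  refine ⟨k, fun l hl => ⟨π ^ (l - k) * ((u⁻¹ : Rˣ) : R) * r, ?_⟩⟩
  have hsK : algebraMap R K s ≠ 0 := by
    intro h
    exact hs0 (IsFractionRing.injective R K (by rw [h, map_zero]))
  rw [← mul_div_assoc, div_eq_iff hsK, ← map_pow, ← map_mul, ← map_mul]
  congr 1
  rw [hu]
  have h1 : π ^ l = π ^ (l - k) * π ^ k := by rw [← pow_add, Nat.sub_add_cancel hl]
  rw [h1]
  have h2 : ((u⁻¹ : Rˣ) : R) * (u : R) = 1 := by simp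
  linear_combination (- π ^ (l - k) * r * π ^ k) * h2

theorem bad_local [IsDomain O] (𝔭 : Ideal O) [𝔭.IsPrime] [IsLocalization.AtPrime R 𝔭]
    [IsDiscreteValuationRing R] [Finite (IsLocalRing.ResidueField R)] [CharZero K]
    [IsFractionRing R K] {m : ℕ} (a : Fin (m + 2) → O)
    (ha : ∀ i, algebraMap O R (a i) ≠ 0) (x : Fin (m + 2) → F) (hx0 : x 0 = 1)
    (hrel : ∑ i, algebraMap O F (a i) * x i ^ 2 = 0)
    (hgen : IntermediateField.adjoin K (Set.range x) = ⊤)
    (b : Fin m → F) (htb : IsTranscendenceBasis K b) :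
    ∃ P : Submodule O F, (∀ y ∈ P, ∃ s, s ∉ 𝔭 ∧ s • y ∈ Submodule.span O (G3 x)) ∧
      (∃ k : ℕ, ∀ c ∈ 𝔭 ^ k, ∀ y ∈ Submodule.span O (G3 x), c • y ∈ P) ∧
      ∀ M : Submodule O F, M ≤ P → (∀ y ∈ P, ∃ s, s ∉ 𝔭 ∧ s • y ∈ M) → RegAt 𝔭 M := by
  obtain ⟨π, hπ⟩ := IsDiscreteValuationRing.exists_irreducible R
  obtain ⟨d, m', hd, hdm, T, V, c₁, c₂, c₀, hUT, hTU, hQ, haniso, hrad⟩ :=
    exists_adapted (K := K) (m + 2) (fun i => algebraMap O R (a i)) ha π hπ
  have hinj : Function.Injective (algebraMap R K) := IsFractionRing.injective R K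
  have hRKF : ∀ r : R, algebraMap R F r = algebraMap K F (algebraMap R K r) :=
    fun r => IsScalarTower.algebraMap_apply R K F r
  set z : Fin d ⊕ Fin m' → F := fun j => ∑ i, algebraMap R F (T j i) * x i with hz
  have hxz : ∀ i, x i = ∑ j, algebraMap K F (V i j) * z j := by
    intro i
    simp only [hz, Finset.mul_sum]
    rw [Finset.sum_comm]
    have h1 : ∀ i', ∑ j, algebraMap K F (V i j) * (algebraMap R F (T j i') * x i') =
        (if i = i' then x i' else 0) := by
      intro i'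
      have h2 := congrArg (algebraMap K F) (hUT i i')
      rw [map_sum] at h2
      simp only [map_mul, ← hRKF] at h2
      simp only [← mul_assoc, ← Finset.sum_mul]
      rw [h2]
      split_ifs <;> simp
    simp only [h1]
    simp
  have hzx : ∀ j, z j ∈ Submodule.span R (Set.range x) := by
    intro j
    refine Submodule.sum_mem _ fun i _ => ?_
    rw [← Algebra.smul_def]
    exact Submodule.smul_mem _ _ (Submodule.subset_span ⟨i, rfl⟩)
  have hrelz : Qval F π c₁ c₂ c₀ z = 0 := by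
    have h1 := hQ F z
    simp only [← hxz, ← hRKF, ← IsScalarTower.algebraMap_apply O R F] at h1
    rw [hrel] at h1
    exact h1.symm
  have hne : ∀ s, Epol π c₁ c₂ c₀ s ≠ 0 := by
    intro s
    have h1 : ∃ i, T s i ≠ 0 := by
      by_contra hcon
      push Not at hcon
      have h2 := hTU s s
      simp [hcon] at h2
    obtain ⟨i₀, hi₀⟩ := h1
    refine Epol_ne_zero hinj π c₁ c₂ c₀ s (fun j => T j i₀) hi₀ ?_
    intro h0
    have h2 := hQ K (fun j => algebraMap R K (T j i₀))
    have h3 := congrArg (algebraMap R K) h0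
    unfold Qval at h3
    simp only [map_add, map_mul, map_sum, Algebra.algebraMap_self, RingHom.id_apply, map_zero] at h3 h2
    rw [h3] at h2
    simp only [hUT] at h2
    simp at h2
    exact ha i₀ (hinj (by rw [h2, map_zero]))
  refine ⟨(Submodule.span R (Gset π c₁ z)).restrictScalars O, ?_, ?_, ?_⟩
  · intro y hy
    exact clear_denom (R := R) 𝔭 (G3 x) y (Gset_le π c₁ x z hzx hy)
  · choose kk hkk using fun i j => exists_pow_mul (K := K) π hπ (V i j)
    set k0 := Finset.univ.sup (fun p : Fin (m + 2) × (Fin d ⊕ Fin m') => kk p.1 p.2) with hk0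
    have hle : ∀ i j, kk i j ≤ k0 := fun i j =>
      Finset.le_sup (f := fun p : Fin (m + 2) × (Fin d ⊕ Fin m') => kk p.1 p.2)
        (Finset.mem_univ (i, j))
    have hx1 : ∀ i, algebraMap R F π ^ k0 * x i ∈ Submodule.span R (Set.range z) := by
      intro i
      rw [hxz i, Finset.mul_sum]
      refine Submodule.sum_mem _ fun j _ => ?_
      obtain ⟨r, hr⟩ := hkk i j k0 (hle i j)
      have h1 : algebraMap R F π ^ k0 * (algebraMap K F (V i j) * z j) = algebraMap R F r * z j := by
        rw [hRKF r, ← hr, map_mul, map_pow, hRKF π]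
        ring
      rw [h1, ← Algebra.smul_def]
      exact Submodule.smul_mem _ _ (Submodule.subset_span ⟨j, rfl⟩)
    have hZ : ∀ y ∈ Submodule.span R (Set.range z) * (Submodule.span R (Set.range z) *
        Submodule.span R (Set.range z)), algebraMap R F π * y ∈ Submodule.span R (Gset π c₁ z) := by
      intro y hy
      rw [Submodule.span_mul_span, Submodule.span_mul_span] at hy
      induction hy using Submodule.span_induction with
      | mem y hy =>
        obtain ⟨_, ⟨i, rfl⟩, _, ⟨_, ⟨j, rfl⟩, _, ⟨l, rfl⟩, rfl⟩, rfl⟩ := hy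
        exact Submodule.subset_span ⟨i, algebraMap R F π * z j * z l, Or.inl ⟨j, l, rfl⟩, by
          simp only []
          ring⟩
      | zero => rw [mul_zero]; exact Submodule.zero_mem _
      | add a b _ _ ha hb => rw [mul_add]; exact Submodule.add_mem _ ha hb
      | smul r a _ ha =>
        rw [mul_smul_comm]
        exact Submodule.smul_mem _ _ ha
    have hg : ∀ g ∈ G3 x, algebraMap R F π ^ (3 * k0 + 1) * g ∈ Submodule.span R (Gset π c₁ z) := by
      rintro g ⟨i, j, l, rfl⟩
      have h1 := hZ _ (Submodule.mul_mem_mul (hx1 i) (Submodule.mul_mem_mul (hx1 j) (hx1 l)))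
      have h2 : algebraMap R F π ^ (3 * k0 + 1) * (x i * x j * x l) = algebraMap R F π *
        (algebraMap R F π ^ k0 * x i * (algebraMap R F π ^ k0 * x j *
          (algebraMap R F π ^ k0 * x l))) := by
        ring
      rw [h2]
      exact h1
    have hmap : 𝔭.map (algebraMap O R) ≤ Ideal.span {π} := by
      rw [Ideal.map_le_iff_le_comap, ← hπ.maximalIdeal_eq]
      intro c hc
      rw [Ideal.mem_comap]
      exact (IsLocalization.AtPrime.to_map_mem_maximal_iff R 𝔭 c).2 hc
    refine ⟨3 * k0 + 1, ?_⟩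
    intro c hc y hy
    have hc1 : ∃ r : R, algebraMap O R c = π ^ (3 * k0 + 1) * r := by
      have h1 : algebraMap O R c ∈ Ideal.span {π ^ (3 * k0 + 1)} := by
        rw [← Ideal.span_singleton_pow]
        apply Ideal.pow_right_mono hmap
        rw [← Ideal.map_pow]
        exact Ideal.mem_map_of_mem _ hc
      obtain ⟨r, hr⟩ := Ideal.mem_span_singleton.1 h1
      exact ⟨r, hr⟩
    obtain ⟨r, hr⟩ := hc1
    show c • y ∈ Submodule.span R (Gset π c₁ z)
    induction hy using Submodule.span_induction with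
    | mem y hy =>
      rw [Algebra.smul_def, IsScalarTower.algebraMap_apply O R F, hr, map_mul, map_pow,
        mul_comm (algebraMap R F π ^ _), mul_assoc, ← Algebra.smul_def]
      exact Submodule.smul_mem _ _ (hg y hy)
    | zero => rw [smul_zero]; exact Submodule.zero_mem _
    | add a b _ _ ha hb => rw [smul_add]; exact Submodule.add_mem _ ha hb
    | smul o a _ ha =>
      rw [smul_comm, ← algebraMap_smul R o (c • a)]
      exact Submodule.smul_mem _ _ ha
  · intro M hMP hM2 f hfM hf q hqp hq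
    obtain ⟨𝒪, hloc, hR, hRU, hloc2, hG, hreg⟩ := transfer (R := R) 𝔭 M (Gset π c₁ z)
      (fun y hy => hMP hy) (fun y hy => hM2 y hy) f q hq
    apply hreg
    refine regular_bad 𝒪 hloc hR π hπ (fun h => hπ.not_isUnit (hRU π h)) hd c₁ c₂ c₀ haniso hrad z
      hrelz hne ?_ f hf (hMP hfM) hG hloc2
    intro s hs
    obtain ⟨j₀, hj₀⟩ := hind_of (K := K) (ι := Fin d ⊕ Fin m') (by simp [hdm]) x hx0 hgen b htb z V
      hxz s hs
    exact ⟨j₀, hj₀.restrictScalars hinj⟩

end bad

end Pool.Agent.H918R2.Quad
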