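import Pool.Agent.H968R2.FL.Param

/-! Regular local rings: criterion by generators, regular local rings are domains. -/

set_option autoImplicit false

namespace Pool.Agent.H918R2.Quad

open IsLocalRing

/-- Regularity of a localization from generators. -/
theorem regular_of_gens {A : Type*} [CommRing A] [IsNoetherianRing A] (q : Ideal A) [q.IsPrime]
    (G : Finset A) (hG : ∀ g ∈ G, g ∈ q)
    (hgen : ∀ x ∈ q, ∃ c, c ∉ q ∧ c * x ∈ Ideal.span (G : Set A))
    (hN : (G.card : ℕ∞) ≤ q.height) : IsRegularLocalRing (Localization.AtPrime q) := by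
  have hnoeth : IsNoetherianRing (Localization.AtPrime q) :=
    IsLocalization.isNoetherianRing q.primeCompl _ inferInstance
  apply IsRegularLocalRing.of_spanFinrank_maximalIdeal_le
  have hspan : maximalIdeal (Localization.AtPrime q) =
      Ideal.span ((algebraMap A (Localization.AtPrime q)) '' (G : Set A)) := by
    rw [← Localization.AtPrime.map_eq_maximalIdeal, ← Ideal.map_span]
    apply le_antisymm
    · rw [Ideal.map_le_iff_le_comap]
      intro x hx
      obtain ⟨c, hc, hcx⟩ := hgen x hx
      rw [Ideal.mem_comap]
      have h1 : algebraMap A (Localization.AtPrime q) (c * x) ∈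
          Ideal.map (algebraMap A (Localization.AtPrime q)) (Ideal.span (G : Set A)) :=
        Ideal.mem_map_of_mem _ hcx
      rw [map_mul] at h1
      have hu : IsUnit (algebraMap A (Localization.AtPrime q) c) :=
        IsLocalization.map_units _ (⟨c, hc⟩ : q.primeCompl)
      exact (Ideal.unit_mul_mem_iff_mem _ hu).1 h1
    · apply Ideal.map_mono
      rw [Ideal.span_le]
      exact hG
  rw [IsLocalization.AtPrime.ringKrullDim_eq_height q (Localization.AtPrime q), hspan]
  have h1 : (Submodule.spanFinrank (Ideal.span
      ((algebraMap A (Localization.AtPrime q)) '' (G : Set A)))) ≤ G.card := by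
    refine (Submodule.spanFinrank_span_le_ncard_of_finite
      ((Finset.finite_toSet G).image _)).trans ?_
    refine (Set.ncard_image_le (Finset.finite_toSet G)).trans ?_
    rw [Set.ncard_coe_finset]
  have h2 : ((Submodule.spanFinrank (Ideal.span
      ((algebraMap A (Localization.AtPrime q)) '' (G : Set A))) : ℕ) : ℕ∞) ≤ q.height :=
    le_trans (by exact_mod_cast h1) hN
  exact_mod_cast h2

/-- Regular local rings are domains. -/
theorem regular_isDomain_aux.{u} (n : ℕ) : ∀ (R : Type u) [CommRing R] [IsRegularLocalRing R],
    ringKrullDim R = n → IsDomain R := by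
  induction n with
  | zero =>
    intro R _ _ h0
    have h1 := IsRegularLocalRing.spanFinrank_maximalIdeal (R := R)
    rw [h0] at h1
    have h2 : (maximalIdeal R).spanFinrank = 0 := by exact_mod_cast h1
    have h3 : maximalIdeal R = ⊥ := by
      have := (Submodule.spanFinrank_eq_zero_iff_eq_bot
        ((maximalIdeal R).fg_of_isNoetherianRing)).1 h2
      exact this
    exact (IsLocalRing.isField_iff_maximalIdeal_eq.2 h3).isDomain
  | succ n ih =>
    intro R _ _ hn
    -- choose an element outside `m ^ 2` and the minimal primes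
    have hm0 : maximalIdeal R ≠ ⊥ := by
      intro h
      have h1 := IsRegularLocalRing.spanFinrank_maximalIdeal (R := R)
      rw [h, hn] at h1
      simp at h1
      have h2 : (0 : WithBot ℕ∞) = ((n + 1 : ℕ) : WithBot ℕ∞) := by exact_mod_cast h1
      have h3 : (0 : ℕ) = n + 1 := by exact_mod_cast h2
      omega
    have hfin : (minimalPrimes R).Finite := minimalPrimes.finite_of_isNoetherianRing R
    have hex : ∃ x ∈ maximalIdeal R, x ∉ maximalIdeal R ^ 2 ∧ ∀ P ∈ minimalPrimes R, x ∉ P := by
      by_contra hcon
      push Not at hcon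
      classical
      let s : Finset (Ideal R) := insert (maximalIdeal R ^ 2) hfin.toFinset
      have hsub : ((maximalIdeal R : Ideal R) : Set R) ⊆ ⋃ i ∈ (s : Set (Ideal R)), (i : Set R) := by
        intro x hx
        by_cases h2 : x ∈ maximalIdeal R ^ 2
        · exact Set.mem_biUnion (x := maximalIdeal R ^ 2) (by simp [s]) h2
        · obtain ⟨P, hP, hxP⟩ := hcon x hx h2
          exact Set.mem_biUnion (x := P) (by simp [s, hP]) hxP
      have hpr := (Ideal.subset_union_prime (s := s) (f := id) (maximalIdeal R ^ 2)
        (maximalIdeal R ^ 2) (by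
          intro i hi h1 _
          have : i ∈ minimalPrimes R := by
            simp only [s, Finset.mem_insert, Set.Finite.mem_toFinset] at hi
            rcases hi with h | h
            · exact absurd h h1
            · exact h
          exact this.1.1) (I := maximalIdeal R)).1 (by simpa using hsub)
      obtain ⟨i, hi, hle⟩ := hpr
      simp only [s, Finset.mem_insert, Set.Finite.mem_toFinset] at hi
      rcases hi with h | h
      · -- m ≤ m ^ 2
        rw [h, id, pow_two] at hle
        apply hm0
        exact Submodule.eq_bot_of_le_smul_of_le_jacobson_bot (maximalIdeal R) (maximalIdeal R)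
          ((maximalIdeal R).fg_of_isNoetherianRing) hle (maximalIdeal_le_jacobson _)
      · have h3 : i.IsPrime := h.1.1
        have h4 : i = maximalIdeal R :=
          le_antisymm (IsLocalRing.le_maximalIdeal h3.ne_top) hle
        have h5 : (maximalIdeal R).height = 0 := by
          rw [← h4]
          exact Ideal.height_eq_zero_iff.2 h
        have h6 := maximalIdeal_height_eq_ringKrullDim (R := R)
        rw [h5, hn] at h6
        have h7 : (0 : WithBot ℕ∞) = ((n + 1 : ℕ) : WithBot ℕ∞) := by exact_mod_cast h6
        have h8 : (0 : ℕ) = n + 1 := by exact_mod_cast h7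
        omega
    obtain ⟨x, hx, hx2, hxP⟩ := hex
    obtain ⟨d, z, i₀, hd, hz, hzx⟩ :=
      Pool.Agent.H968R2.FL.exists_param_of_mem (B := R) x hx hx2
    have hdn : d = n + 1 := by
      rw [hn] at hd
      exact_mod_cast hd.symm
    have : Nontrivial (R ⧸ Ideal.span {x}) := by
      apply Ideal.Quotient.nontrivial_iff.2
      intro h
      have h1 : (1 : R) ∈ Ideal.span {x} := by rw [h]; trivial
      have h2 : Ideal.span {x} ≤ maximalIdeal R := by
        rw [Ideal.span_le]
        simpa using hx
      exact (Ideal.ne_top_iff_one _).1 (maximalIdeal.isMaximal R).ne_top (h2 h1)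
    have hloc : IsLocalRing (R ⧸ Ideal.span {x}) :=
      IsLocalRing.of_surjective' (Ideal.Quotient.mk (Ideal.span {x})) Ideal.Quotient.mk_surjective
    have hdim1 : ((n : ℕ) : WithBot ℕ∞) ≤ ringKrullDim (R ⧸ Ideal.span {x}) := by
      have h1 := Ideal.height_le_ringKrullDim_quotient_add_one (p := maximalIdeal R) hx
      rw [maximalIdeal_height_eq_ringKrullDim, hn] at h1
      have h2 : ((n : ℕ) : WithBot ℕ∞) + 1 ≤ ringKrullDim (R ⧸ Ideal.span {x}) + 1 := by
        simpa using h1
      exact ENat.WithBot.add_le_add_one_right_iff.1 h2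
    have hspan : maximalIdeal (R ⧸ Ideal.span {x}) =
        Ideal.span ((fun i => Ideal.Quotient.mk (Ideal.span {x}) (z i)) '' {i | i ≠ i₀}) := by
      have h1 : maximalIdeal (R ⧸ Ideal.span {x}) =
          (maximalIdeal R).map (Ideal.Quotient.mk (Ideal.span {x})) := by
        have h := IsLocalRing.map_maximalIdeal_of_surjective (Ideal.Quotient.mk (Ideal.span {x}))
          Ideal.Quotient.mk_surjective
        exact h.symm
      rw [h1, ← hz, Ideal.map_span]
      apply le_antisymm
      · rw [Ideal.span_le]
        rintro _ ⟨_, ⟨i, rfl⟩, rfl⟩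
        by_cases hi : i = i₀
        · subst hi
          rw [hzx]
          have : Ideal.Quotient.mk (Ideal.span {x}) x = 0 :=
            Ideal.Quotient.eq_zero_iff_mem.2 (Ideal.mem_span_singleton_self x)
          rw [this]
          exact Submodule.zero_mem _
        · exact Ideal.subset_span ⟨i, hi, rfl⟩
      · apply Ideal.span_mono
        rintro _ ⟨i, _, rfl⟩
        exact ⟨z i, ⟨i, rfl⟩, rfl⟩
    have hfr : (maximalIdeal (R ⧸ Ideal.span {x})).spanFinrank ≤ n := by
      rw [hspan]
      refine (Submodule.spanFinrank_span_le_ncard_of_finite (Set.toFinite _)).trans ?_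
      refine (Set.ncard_image_le (Set.toFinite _)).trans ?_
      have h1 : ({i | i ≠ i₀} : Set (Fin d)) = ((Finset.univ.erase i₀ : Finset (Fin d)) : Set (Fin d)) := by
        ext i; simp
      rw [h1, Set.ncard_coe_finset, Finset.card_erase_of_mem (Finset.mem_univ _)]
      simp [hdn]
    have hreg : IsRegularLocalRing (R ⧸ Ideal.span {x}) := by
      apply IsRegularLocalRing.of_spanFinrank_maximalIdeal_le
      exact le_trans (by exact_mod_cast hfr) hdim1
    have hdim : ringKrullDim (R ⧸ Ideal.span {x}) = n := by
      apply le_antisymm _ hdim1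
      rw [← IsRegularLocalRing.spanFinrank_maximalIdeal (R := R ⧸ Ideal.span {x})]
      exact_mod_cast hfr
    have hdom := ih (R ⧸ Ideal.span {x}) hdim
    have hprime : (Ideal.span {x}).IsPrime := (Ideal.Quotient.isDomain_iff_prime _).1 hdom
    obtain ⟨P, hP, hPx⟩ := Ideal.exists_minimalPrimes_le (I := (⊥ : Ideal R))
      (J := Ideal.span {x}) bot_le
    have hPprime : P.IsPrime := hP.1.1
    have hPbot : P = ⊥ := by
      apply Submodule.eq_bot_of_le_smul_of_le_jacobson_bot (maximalIdeal R) P
        (P.fg_of_isNoetherianRing) _ (maximalIdeal_le_jacobson _)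
      intro p hp
      obtain ⟨r, rfl⟩ := Ideal.mem_span_singleton.1 (hPx hp)
      have hr : r ∈ P := (hPprime.mem_or_mem hp).resolve_left (hxP P hP)
      exact Submodule.smul_mem_smul hx hr
    rw [hPbot] at hPprime
    exact IsDomain.of_bot_isPrime R

theorem regular_isDomain.{u} (R : Type u) [CommRing R] [IsRegularLocalRing R] : IsDomain R :=
  regular_isDomain_aux (maximalIdeal R).spanFinrank R
    (IsRegularLocalRing.spanFinrank_maximalIdeal (R := R)).symm

end Pool.Agent.H918R2.Quad
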