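import Pool.Agent.H918R2.Quad.Loc
import Pool.Agent.H918R2.Quad.Reg2

/-! Second round of tasks for MP_4d1008_ag (quadrics). -/

set_option autoImplicit false

namespace Pool.Agent.H918R2.Quad

/-- Products of three coordinates. -/
def G3 {F : Type} [Field F] {N : ℕ} (x : Fin N → F) : Set F := {g | ∃ i j k, g = x i * x j * x k}

/-- TASK G1 (good primes and the generic fibre). -/
theorem regular_good {R F : Type} [CommRing R] [IsDomain R] [IsRegularRing R] [Field F]
    [Algebra R F] (𝒪 : Subring F) (hloc : IsLoc 𝒪) (hR : ∀ r : R, algebraMap R F r ∈ 𝒪)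
    {N : ℕ} (a : Fin N → R) (ha : ∀ i, IsUnit (2 * a i)) (x : Fin N → F)
    (hrel : ∑ i, algebraMap R F (a i) * x i ^ 2 = 0)
    (hind : ∀ s, x s ≠ 0 → ∃ j₀ : {j : Fin N // j ≠ s},
      AlgebraicIndependent R (fun j : {j : {j : Fin N // j ≠ s} // j ≠ j₀} => x j / x s))
    (f : F) (hf : f ≠ 0) (hfG : f ∈ Submodule.span R (G3 x)) (hG : ∀ g ∈ G3 x, g / f ∈ 𝒪)
    (hloc2 : IsLocOf 𝒪 (chart R (Submodule.span R (G3 x)) f)) : IsRegularLocalRing 𝒪 := by sorry

/-- TASK G2. -/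
theorem exists_omit {K F : Type} [Field K] [Field F] [Algebra K F] {m : ℕ} (b : Fin m → F)
    (hb : IsTranscendenceBasis K b) {ρ : Type} [Fintype ρ] (hρ : Fintype.card ρ = m + 1)
    (w : ρ → F) (hw : IntermediateField.adjoin K (Set.range w) = ⊤) :
    ∃ j₀, AlgebraicIndependent K (fun j : {j : ρ // j ≠ j₀} => w j) := by sorry

end Pool.Agent.H918R2.Quad
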