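import Pool.Agent.H918R2.Quad.Loc
import Pool.Agent.H918R2.Quad.Reg2
import Pool.Agent.H918R2.Quad.HasModule

/-! Round 3 of tasks for MP_4d1008_ag: hypersurfaces of degree at most two. -/

set_option autoImplicit false

namespace Pool.Agent.H918R2.Quad

/-- TASK P1. Purely transcendental extensions. -/
theorem hasModule_poly {O F₀ F : Type} [CommRing O] [IsNoetherianRing O] [Field F₀] [Field F]
    [Algebra O F₀] [Algebra F₀ F] [Algebra O F] [IsScalarTower O F₀ F]
    (h : HasModule O F₀) {ρ : Type} [Finite ρ] (t : ρ → F) (ht : AlgebraicIndependent F₀ t)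
    (htop : IntermediateField.adjoin F₀ (Set.range t) = ⊤) : HasModule O F := by sorry

/-- TASK P2. The fraction field of a Dedekind domain. -/
theorem hasModule_frac {O K : Type} [CommRing O] [IsDedekindDomain O] [Field K] [Algebra O K]
    [IsFractionRing O K] : HasModule O K := by sorry

/-- TASK P3. Function fields of hypersurfaces of degree two. -/
theorem degree_two_cases {K F : Type} [Field K] [CharZero K] [Field F] [Algebra K F] {N : ℕ}
    (x : Fin (N + 1) → F) (hx0 : x 0 = 1) (hgen : IntermediateField.adjoin K (Set.range x) = ⊤)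
    (htr : (N : Cardinal) ≤ Algebra.trdeg K F + 1)
    (c : Fin (N + 1) → Fin (N + 1) → K) (hc : ∃ v : Fin (N + 1) → K, ∑ i, ∑ j, c i j * v i * v j ≠ 0)
    (hrel : ∑ i, ∑ j, algebraMap K F (c i j) * x i * x j = 0) :
    (∃ K' : IntermediateField K F, FiniteDimensional K K' ∧ ∃ (ρ : Type) (_ : Finite ρ)
      (t : ρ → F), AlgebraicIndependent K' t ∧ IntermediateField.adjoin K' (Set.range t) = ⊤) ∨
    (∃ (m : ℕ) (a : Fin (m + 2) → K) (_ : ∀ i, a i ≠ 0) (F₀ : IntermediateField K F)
      (y : Fin (m + 2) → F₀) (_ : y 0 = 1) (_ : ∑ i, algebraMap K F₀ (a i) * y i ^ 2 = 0)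
      (_ : IntermediateField.adjoin K (Set.range y) = ⊤)
      (_ : ∃ b : Fin m → F₀, IsTranscendenceBasis K b) (ρ : Type) (_ : Finite ρ) (t : ρ → F),
      AlgebraicIndependent F₀ t ∧ IntermediateField.adjoin F₀ (Set.range t) = ⊤) := by sorry

open MvPolynomial in
/-- TASK P4. Generators, relation and transcendence degree for an irreducible polynomial of degree
at most two. -/
theorem degree_two_field {K F : Type} [Field K] [CharZero K] [Field F] (N : ℕ)
    (f : MvPolynomial (Fin N) K) (hf : Irreducible f) (hdeg : f.totalDegree ≤ 2)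
    (e : F ≃+* FractionRing (MvPolynomial (Fin N) K ⧸ Ideal.span {f})) :
    ∃ (_ : Algebra K F) (x : Fin (N + 1) → F) (c : Fin (N + 1) → Fin (N + 1) → K), x 0 = 1 ∧
      IntermediateField.adjoin K (Set.range x) = ⊤ ∧ (N : Cardinal) ≤ Algebra.trdeg K F + 1 ∧
      (∃ v : Fin (N + 1) → K, ∑ i, ∑ j, c i j * v i * v j ≠ 0) ∧
      ∑ i, ∑ j, algebraMap K F (c i j) * x i * x j = 0 := by sorry

end Pool.Agent.H918R2.Quad
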