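import Pool.Agent.H918R2.Quad.Loc
import Pool.Agent.H918R2.Quad.Reg2

/-! From the charts of the model over `O` to local subrings over `R = O_𝔭`. -/

set_option autoImplicit false

namespace Pool.Agent.H918R2.Quad

section loc

variable {F A : Type} [Field F] [CommRing A]

/-- The local subring of `F` attached to an injection `ι : A → F` and a prime of `A`. -/
theorem exists_loc (ι : A →+* F) (hι : Function.Injective ι) (q : Ideal A) [q.IsPrime] :
    ∃ 𝒪 : Subring F, IsLoc 𝒪 ∧ (∀ x, x ∈ 𝒪 ↔ ∃ a b : A, b ∉ q ∧ x = ι a / ι b) ∧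
      (∀ a, U 𝒪 (ι a) ↔ a ∉ q) ∧
      (IsRegularLocalRing 𝒪 → IsRegularLocalRing (Localization.AtPrime q)) := by
  have hne : ∀ b : A, b ∉ q → ι b ≠ 0 := by
    intro b hb h
    apply hb
    have : b = 0 := hι (by rw [h, map_zero])
    rw [this]
    exact q.zero_mem
  let ψ : Localization.AtPrime q →+* F := IsLocalization.lift (M := q.primeCompl) (g := ι)
    (fun b => IsUnit.mk0 _ (hne b b.2))
  have hψ : ∀ (a : A) (b : q.primeCompl), ψ (IsLocalization.mk' _ a b) = ι a / ι b := by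
    intro a b
    rw [IsLocalization.lift_mk'_spec, mul_div_cancel₀]
    exact hne b b.2
  have hψinj : Function.Injective ψ := by
    rw [injective_iff_map_eq_zero]
    intro x hx
    obtain ⟨a, b, rfl⟩ := IsLocalization.exists_mk'_eq q.primeCompl x
    rw [hψ, div_eq_zero_iff] at hx
    have h1 : ι a = 0 := hx.resolve_right (hne b b.2)
    have h2 : a = 0 := hι (by rw [h1, map_zero])
    rw [h2, IsLocalization.mk'_zero]
  have hmem : ∀ x, x ∈ ψ.range ↔ ∃ a b : A, b ∉ q ∧ x = ι a / ι b := by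
    intro x
    constructor
    · rintro ⟨y, rfl⟩
      obtain ⟨a, b, rfl⟩ := IsLocalization.exists_mk'_eq q.primeCompl y
      exact ⟨a, b, b.2, hψ a b⟩
    · rintro ⟨a, b, hb, rfl⟩
      exact ⟨IsLocalization.mk' _ a ⟨b, hb⟩, hψ a ⟨b, hb⟩⟩
  have hU : ∀ a, U ψ.range (ι a) ↔ a ∉ q := by
    intro a
    constructor
    · rintro ⟨h0, _, h2⟩ haq
      obtain ⟨c, d, hd, hcd⟩ := (hmem _).1 h2
      apply hd
      have h3 : ι d = ι (a * c) := by
        rw [map_mul]
        have := hne d hd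
        field_simp at hcd
        rw [← hcd]
      rw [hι h3]
      exact q.mul_mem_right _ haq
    · intro ha
      refine ⟨hne a ha, (hmem _).2 ⟨a, 1, (Ideal.ne_top_iff_one q).1 Ideal.IsPrime.ne_top', by simp⟩,
        (hmem _).2 ⟨1, a, ha, by simp⟩⟩
  refine ⟨ψ.range, ?_, hmem, hU, ?_⟩
  · intro x y hx hy hxy
    obtain ⟨a, b, hb, rfl⟩ := (hmem x).1 hx
    obtain ⟨c, d, hd, rfl⟩ := (hmem y).1 hy
    have hb0 := hne b hb
    have hd0 := hne d hd
    have h1 : ι (a * d + c * b) = (ι a / ι b + ι c / ι d) * ι (b * d) := by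
      simp only [map_add, map_mul]
      field_simp
    have h2 : U ψ.range (ι (a * d + c * b)) := by
      rw [h1]
      apply hxy.mul
      rw [hU]
      intro h
      rcases Ideal.IsPrime.mem_or_mem ‹q.IsPrime› h with h | h
      · exact hb h
      · exact hd h
    rw [hU] at h2
    by_cases ha : a ∈ q
    · right
      have hc : c ∉ q := by
        intro hc
        exact h2 (q.add_mem (q.mul_mem_right _ ha) (q.mul_mem_right _ hc))
      exact ((hU c).2 hc).div ((hU d).2 hd)
    · left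
      exact ((hU a).2 ha).div ((hU b).2 hb)
  · intro hreg
    exact IsRegularLocalRing.of_ringEquiv (RingEquiv.ofBijective ψ.rangeRestrict
      ⟨fun x y h => hψinj (congrArg Subtype.val h), ψ.rangeRestrict_surjective⟩).symm

end loc

variable {O R F : Type} [CommRing O] [CommRing R] [Field F] [Algebra O R] [Algebra O F]
  [Algebra R F] [IsScalarTower O R F]

theorem transfer (𝔭 : Ideal O) [𝔭.IsPrime] [IsLocalization.AtPrime R 𝔭]
    (M : Submodule O F) (G : Set F) (hMG : ∀ x ∈ M, x ∈ Submodule.span R G)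
    (hGM : ∀ x ∈ Submodule.span R G, ∃ s, s ∉ 𝔭 ∧ s • x ∈ M) (f : F)
    (q : Ideal (chart O M f)) [q.IsPrime]
    (hq : q.comap (algebraMap O (chart O M f)) = 𝔭) :
    ∃ 𝒪 : Subring F, IsLoc 𝒪 ∧ (∀ r : R, algebraMap R F r ∈ 𝒪) ∧
      (∀ r : R, U 𝒪 (algebraMap R F r) → IsUnit r) ∧
      IsLocOf 𝒪 (chart R (Submodule.span R G) f) ∧ (∀ g ∈ G, g / f ∈ 𝒪) ∧
      (IsRegularLocalRing 𝒪 → IsRegularLocalRing (Localization.AtPrime q)) := by
  obtain ⟨𝒪, hloc, hmem, hU, hreg⟩ := exists_loc ((chart O M f).val : chart O M f →+* F)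
    Subtype.val_injective q
  have hval : ∀ a : chart O M f, ((chart O M f).val : chart O M f →+* F) a = (a : F) :=
    fun a => rfl
  simp only [hval] at hmem hU
  have hOU : ∀ s : O, U 𝒪 (algebraMap O F s) ↔ s ∉ 𝔭 := by
    intro s
    have h1 := hU (algebraMap O (chart O M f) s)
    rw [← hq, Ideal.mem_comap]
    exact h1
  have hchart : ∀ a ∈ chart O M f, a ∈ 𝒪 := by
    intro a ha
    rw [hmem]
    refine ⟨⟨a, ha⟩, 1, (Ideal.ne_top_iff_one q).1 Ideal.IsPrime.ne_top', by simp⟩
  have hRF : ∀ (o : O) (s : 𝔭.primeCompl), algebraMap R F (IsLocalization.mk' R o s) =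
      algebraMap O F o / algebraMap O F s := by
    intro o s
    have h1 : algebraMap O F s ≠ 0 := ((hOU s).2 s.2).1
    rw [eq_div_iff h1, IsScalarTower.algebraMap_apply O R F s, ← map_mul,
      IsLocalization.mk'_spec, ← IsScalarTower.algebraMap_apply]
  have hR𝒪 : ∀ r : R, algebraMap R F r ∈ 𝒪 := by
    intro r
    obtain ⟨o, s, rfl⟩ := IsLocalization.exists_mk'_eq 𝔭.primeCompl r
    rw [hRF, div_eq_mul_inv]
    exact 𝒪.mul_mem (hchart _ (Subalgebra.algebraMap_mem _ _)) ((hOU s).2 s.2).2.2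
  have hspan : ∀ m ∈ Submodule.span R G, m / f ∈ 𝒪 := by
    intro m hm
    obtain ⟨s, hs, hsm⟩ := hGM m hm
    have h1 : (s • m) / f ∈ 𝒪 := hchart _ (Algebra.subset_adjoin ⟨s • m, hsm, rfl⟩)
    have h2 : m / f = (s • m) / f * (algebraMap O F s)⁻¹ := by
      have := ((hOU s).2 hs).1
      rw [Algebra.smul_def]
      field_simp
    rw [h2]
    exact 𝒪.mul_mem h1 ((hOU s).2 hs).2.2
  refine ⟨𝒪, hloc, hR𝒪, ?_, ⟨?_, ?_⟩, fun g hg => hspan g (Submodule.subset_span hg), hreg⟩
  · intro r hr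
    obtain ⟨o, s, rfl⟩ := IsLocalization.exists_mk'_eq 𝔭.primeCompl r
    rw [hRF] at hr
    have h1 : U 𝒪 (algebraMap O F o) := by
      have h2 : algebraMap O F o = algebraMap O F o / algebraMap O F s * algebraMap O F s := by
        have := ((hOU s).2 s.2).1
        field_simp
      rw [h2]
      exact hr.mul ((hOU s).2 s.2)
    rw [hOU] at h1
    exact (IsLocalization.AtPrime.isUnit_mk'_iff R 𝔭 o s).2 h1
  · intro a ha
    induction ha using Algebra.adjoin_induction with
    | mem x hx =>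
      obtain ⟨m, hm, rfl⟩ := hx
      exact hspan m hm
    | algebraMap r => exact hR𝒪 r
    | add x y _ _ hx hy => exact 𝒪.add_mem hx hy
    | mul x y _ _ hx hy => exact 𝒪.mul_mem hx hy
  · have hle : ∀ a ∈ chart O M f, a ∈ chart R (Submodule.span R G) f := by
      intro a ha
      induction ha using Algebra.adjoin_induction with
      | mem x hx =>
        obtain ⟨m, hm, rfl⟩ := hx
        exact Algebra.subset_adjoin ⟨m, hMG m hm, rfl⟩
      | algebraMap r =>
        rw [IsScalarTower.algebraMap_apply O R F]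
        exact Subalgebra.algebraMap_mem _ _
      | add x y _ _ hx hy => exact Subalgebra.add_mem _ hx hy
      | mul x y _ _ hx hy => exact Subalgebra.mul_mem _ hx hy
    intro x hx
    obtain ⟨a, b, hb, rfl⟩ := (hmem x).1 hx
    exact ⟨a, hle _ a.2, b, hle _ b.2, (hU b).2 hb, rfl⟩

/-- Clearing denominators. -/
theorem clear_denom (𝔭 : Ideal O) [𝔭.IsPrime] [IsLocalization.AtPrime R 𝔭] (G : Set F) :
    ∀ x ∈ Submodule.span R G, ∃ s, s ∉ 𝔭 ∧ s • x ∈ Submodule.span O G := by
  intro x hx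
  induction hx using Submodule.span_induction with
  | mem x hx =>
    exact ⟨1, (Ideal.ne_top_iff_one 𝔭).1 Ideal.IsPrime.ne_top', by
      rw [one_smul]; exact Submodule.subset_span hx⟩
  | zero =>
    exact ⟨1, (Ideal.ne_top_iff_one 𝔭).1 Ideal.IsPrime.ne_top', by
      rw [one_smul]; exact Submodule.zero_mem _⟩
  | add x y _ _ hx hy =>
    obtain ⟨s, hs, hsx⟩ := hx
    obtain ⟨t, ht, hty⟩ := hy
    refine ⟨s * t, fun h => (Ideal.IsPrime.mem_or_mem ‹𝔭.IsPrime› h).elim hs ht, ?_⟩
    rw [smul_add]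
    apply Submodule.add_mem
    · rw [mul_comm, mul_smul]
      exact Submodule.smul_mem _ _ hsx
    · rw [mul_smul]
      exact Submodule.smul_mem _ _ hty
  | smul r x _ hx =>
    obtain ⟨s, hs, hsx⟩ := hx
    obtain ⟨o, t, rfl⟩ := IsLocalization.exists_mk'_eq 𝔭.primeCompl r
    refine ⟨t * s, fun h => (Ideal.IsPrime.mem_or_mem ‹𝔭.IsPrime› h).elim t.2 hs, ?_⟩
    have h1 : ((t : O) * s) • (IsLocalization.mk' R o t) • x = o • (s • x) := by
      rw [Algebra.smul_def, Algebra.smul_def, Algebra.smul_def, Algebra.smul_def, ← mul_assoc,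
        ← mul_assoc]
      congr 1
      rw [IsScalarTower.algebraMap_apply O R F, IsScalarTower.algebraMap_apply O R F o,
        IsScalarTower.algebraMap_apply O R F s, ← map_mul, ← map_mul]
      congr 1
      rw [map_mul, mul_assoc, mul_comm _ (IsLocalization.mk' R o t), ← mul_assoc,
        IsLocalization.mk'_spec']
    rw [h1]
    exact Submodule.smul_mem _ _ hsx

end Pool.Agent.H918R2.Quad
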